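import Pool.Agent.Lib.MP_8277d7_ag.Cuts

/-! The action of the general linear group and normal forms of points. -/

open Polynomial Matrix

namespace Pool.Agent.Lib.MP_8277d7_ag

section
variable {n : ℕ}

/-- The substitution `X ↦ g X gᵀ`. -/
noncomputable def act (g : Matrix (Fin n) (Fin n) ℂ) : SymRing n →+* SymRing n :=
  sub (g.map MvPolynomial.C * genSym n * (g.map MvPolynomial.C)ᵀ)

lemma act_map (g : Matrix (Fin n) (Fin n) ℂ) : (genSym n).map (act g) =
    g.map MvPolynomial.C * genSym n * (g.map MvPolynomial.C)ᵀ :=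
  gen_map_sub (isSymm_conj _ (genSym_symm n))

lemma act_C (g : Matrix (Fin n) (Fin n) ℂ) (c : ℂ) :
    act g (MvPolynomial.C c) = MvPolynomial.C c := sub_C _ c

lemma sub_act {A : Type} [CommRing A] [Algebra ℂ A] {N : Matrix (Fin n) (Fin n) A} (hN : N.IsSymm)
    (g : Matrix (Fin n) (Fin n) ℂ) :
    (sub N).comp (act g) = sub (g.map (algebraMap ℂ A) * N * (g.map (algebraMap ℂ A))ᵀ) := by
  apply symRing_ext
  · intro c
    simp [act_C, sub_C]
  · intro i j
    have h1 := congrFun (congrFun (act_map g) i) j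
    rw [map_apply] at h1
    rw [RingHom.comp_apply, h1, sub_gen (isSymm_conj _ hN)]
    simp [mul_apply, sub_C, sub_gen hN]

lemma sub_genSym : sub (genSym n) = RingHom.id (SymRing n) := by
  apply symRing_ext
  · intro c
    simp [sub_C]
  · intro i j
    simp [sub_gen (genSym_symm n)]

lemma act_comp {g h : Matrix (Fin n) (Fin n) ℂ} (hg : h * g = 1) :
    (act g).comp (act h) = RingHom.id _ := by
  rw [act, sub_act (isSymm_conj _ (genSym_symm n)), ← sub_genSym]
  congr 1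
  have h1 : h.map (algebraMap ℂ (SymRing n)) * g.map MvPolynomial.C = 1 := by
    rw [MvPolynomial.algebraMap_eq, ← Matrix.map_mul, hg]
    simp
  have h2 : (g.map MvPolynomial.C)ᵀ * (h.map (algebraMap ℂ (SymRing n)))ᵀ = 1 := by
    rw [← transpose_mul, h1, transpose_one]
  calc _ = (h.map (algebraMap ℂ (SymRing n)) * g.map MvPolynomial.C) * genSym n *
      ((g.map MvPolynomial.C)ᵀ * (h.map (algebraMap ℂ (SymRing n)))ᵀ) := by
        simp only [Matrix.mul_assoc]
    _ = _ := by rw [h1, h2, Matrix.one_mul, Matrix.mul_one]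

/-- The automorphism attached to an invertible matrix. -/
noncomputable def actEquiv {g h : Matrix (Fin n) (Fin n) ℂ} (hg : g * h = 1) :
    SymRing n ≃+* SymRing n :=
  RingEquiv.ofRingHom (act g) (act h) (act_comp (mul_eq_one_comm.mp hg)) (act_comp hg)

lemma GLStab.act_mem {J : Ideal (SymRing n)} (hJ : GLStab J) (g : Matrix (Fin n) (Fin n) ℂ)
    {x : SymRing n} (hx : x ∈ J) : act g x ∈ J := by
  have h1 : (evalRingHom 0).comp (fam (g.map C)) = act g := by
    apply symRing_ext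
    · intro c
      simp [fam_C, act_C]
    · intro i j
      have h1 := congrFun (congrFun (act_map g) i) j
      rw [map_apply] at h1
      rw [RingHom.comp_apply, fam_gen, h1]
      simp [mul_apply, eval_finsetSum]
  have h2 := hJ (g.map C) (Ideal.mem_map_of_mem _ hx)
  rw [Ideal.mem_map_C_iff] at h2
  rw [← h1, RingHom.comp_apply, coe_evalRingHom, ← coeff_zero_eq_eval_zero]
  exact h2 0

/-- Congruence of matrices. -/
def Cong (M N : Matrix (Fin n) (Fin n) ℂ) : Prop :=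
  ∃ g h : Matrix (Fin n) (Fin n) ℂ, g * h = 1 ∧ N = g * M * gᵀ

lemma Cong.trans {M N P : Matrix (Fin n) (Fin n) ℂ} (h₁ : Cong M N) (h₂ : Cong N P) :
    Cong M P := by
  obtain ⟨g, h, hg, rfl⟩ := h₁
  obtain ⟨g', h', hg', rfl⟩ := h₂
  refine ⟨g' * g, h * h', ?_, by simp only [transpose_mul, Matrix.mul_assoc]⟩
  rw [Matrix.mul_assoc, ← Matrix.mul_assoc g, hg, Matrix.one_mul, hg']

lemma Cong.ne_zero {M N : Matrix (Fin n) (Fin n) ℂ} (h₁ : Cong M N) (hM : M ≠ 0) : N ≠ 0 := by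
  obtain ⟨g, h, hg, rfl⟩ := h₁
  intro h0
  apply hM
  have h1 := mul_eq_one_comm.mp hg
  have h2 : gᵀ * hᵀ = 1 := by rw [← transpose_mul, h1, transpose_one]
  calc M = (h * g) * M * (gᵀ * hᵀ) := by rw [h1, h2, Matrix.one_mul, Matrix.mul_one]
    _ = h * (g * M * gᵀ) * hᵀ := by simp only [Matrix.mul_assoc]
    _ = 0 := by rw [h0]; simp

lemma cong_diag {M : Matrix (Fin n) (Fin n) ℂ} (hM : M.IsSymm) : ∃ d, Cong M (diagonal d) := by
  have : Invertible (2 : ℂ) := invertibleOfNonzero two_ne_zero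
  obtain ⟨v, hv⟩ := LinearMap.BilinForm.exists_orthogonal_basis (B := toBilin' M)
    ⟨(Matrix.isSymm_toBilin'_iff_isSymm.mpr hM).eq⟩
  let e : Fin (Module.finrank ℂ (Fin n → ℂ)) ≃ Fin n := finCongr (by simp)
  let b := v.reindex e
  have hb : ∀ i j, i ≠ j → toBilin' M (b i) (b j) = 0 := by
    intro i j hij
    simp only [b, Module.Basis.reindex_apply]
    exact hv (fun h => hij (e.symm.injective h))
  refine ⟨fun i => toBilin' M (b i) (b i), ((Pi.basisFun ℂ (Fin n)).toMatrix b)ᵀ,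
    (b.toMatrix (Pi.basisFun ℂ (Fin n)))ᵀ, ?_, ?_⟩
  · rw [← transpose_mul, Module.Basis.toMatrix_mul_toMatrix_flip, transpose_one]
  · ext i j
    have h1 : (((Pi.basisFun ℂ (Fin n)).toMatrix b)ᵀ * M *
        ((Pi.basisFun ℂ (Fin n)).toMatrix b)ᵀᵀ) i j = toBilin' M (b i) (b j) := by
      simp only [toBilin'_apply, mul_apply, transpose_apply, Module.Basis.toMatrix_apply,
        Pi.basisFun_repr, Finset.sum_mul]
      rw [Finset.sum_comm]
    rw [h1, diagonal_apply]
    split_ifs with h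
    · rw [h]
    · exact (hb i j h).symm

lemma cong_perm (d : Fin n → ℂ) (π : Equiv.Perm (Fin n)) :
    Cong (diagonal d) (diagonal (d ∘ π)) := by
  refine ⟨π.permMatrix ℂ, (π⁻¹).permMatrix ℂ, ?_, ?_⟩
  · rw [← permMatrix_mul]
    simp
  · rw [transpose_permMatrix, Equiv.Perm.permMatrix, Equiv.Perm.permMatrix,
      PEquiv.toMatrix_toPEquiv_mul, PEquiv.mul_toMatrix_toPEquiv]
    ext i j
    simp [diagonal_apply, Equiv.Perm.inv_def]

lemma cong_scale (d s : Fin n → ℂ) (hs : ∀ i, s i ≠ 0) :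
    Cong (diagonal d) (diagonal fun i => s i * d i * s i) := by
  refine ⟨diagonal s, diagonal fun i => (s i)⁻¹, ?_, ?_⟩
  · rw [diagonal_mul_diagonal, ← diagonal_one]
    congr 1
    ext i
    exact mul_inv_cancel₀ (hs i)
  · rw [diagonal_transpose, diagonal_mul_diagonal, diagonal_mul_diagonal]

lemma exists_scale (x : ℂ) : ∃ s : ℂ, s ≠ 0 ∧ (x ≠ 0 → s * x * s = 1) := by
  by_cases hx : x = 0
  · exact ⟨1, one_ne_zero, fun h => absurd hx h⟩
  · obtain ⟨z, hz⟩ := IsAlgClosed.exists_eq_mul_self x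
    have hz0 : z ≠ 0 := by
      rintro rfl
      exact hx (by simpa using hz)
    refine ⟨z⁻¹, inv_ne_zero hz0, fun _ => ?_⟩
    rw [hz]
    field_simp

lemma pt_cong {M : Matrix (Fin n) (Fin n) ℂ} (hM : M.IsSymm) (g : Matrix (Fin n) (Fin n) ℂ) :
    (pt (ptOf M)).comap (act g) = pt (ptOf (g * M * gᵀ)) := by
  rw [pt, pt, RingHom.comap_ker, eval_ptOf, eval_ptOf, sub_act hM]
  rfl

lemma V_cong {M N : Matrix (Fin n) (Fin n) ℂ} (hM : M.IsSymm) (h : Cong M N)
    {J₁ J₂ : Ideal (SymRing n)} (h₁ : GLStab J₁) (h₂ : GLStab J₂) {i : ℕ}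
    (hV : V (pt (ptOf N)) i (SQ J₁ J₂)) : V (pt (ptOf M)) i (SQ J₁ J₂) := by
  obtain ⟨g, g', hg, rfl⟩ := h
  rw [← pt_cong hM] at hV
  let σ := actEquiv hg
  have hσ : ∀ x, σ x = act g x := fun _ => rfl
  have hσ' : ∀ x, σ.symm x = act g' x := fun _ => rfl
  let f : J₁ →+ J₁ :=
    { toFun := fun x => ⟨σ x, h₁.act_mem g x.2⟩
      map_zero' := Subtype.ext (map_zero σ)
      map_add' := fun x y => Subtype.ext (map_add σ _ _) }
  let K := (Submodule.comap J₁.subtype J₂).toAddSubgroup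
  let φ : SQ J₁ J₂ →+ SQ J₁ J₂ := QuotientAddGroup.map K K f fun x hx => h₂.act_mem g hx
  have hφ : ∀ x : J₁, φ (Submodule.Quotient.mk x) = Submodule.Quotient.mk (f x) := fun _ => rfl
  have hbij : Function.Bijective φ := by
    constructor
    · rw [injective_iff_map_eq_zero]
      intro x hx
      obtain ⟨x, rfl⟩ := Submodule.Quotient.mk_surjective _ x
      rw [hφ, Submodule.Quotient.mk_eq_zero] at hx
      rw [Submodule.Quotient.mk_eq_zero]
      have h3 := h₂.act_mem g' hx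
      rw [← hσ'] at h3
      have h4 : σ.symm (σ x) ∈ J₂ := h3
      rw [σ.symm_apply_apply] at h4
      exact h4
    · intro y
      obtain ⟨y, rfl⟩ := Submodule.Quotient.mk_surjective _ y
      refine ⟨Submodule.Quotient.mk ⟨σ.symm y, h₁.act_mem g' y.2⟩, ?_⟩
      rw [hφ]
      congr 1
      exact Subtype.ext (σ.apply_symm_apply y)
  refine V_transfer σ (AddEquiv.ofBijective φ hbij) (fun r x => ?_) hV
  obtain ⟨x, rfl⟩ := Submodule.Quotient.mk_surjective _ x
  rw [AddEquiv.ofBijective_apply, AddEquiv.ofBijective_apply, ← Submodule.Quotient.mk_smul, hφ, hφ,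
    ← Submodule.Quotient.mk_smul]
  congr 1
  exact Subtype.ext (map_mul σ _ _)

lemma kill_cong {M N : Matrix (Fin n) (Fin n) ℂ} (hM : M.IsSymm) (h : Cong M N)
    {J₁ J₂ : Ideal (SymRing n)} (h₁ : GLStab J₁) (h₂ : GLStab J₂)
    (hV : ∃ t, t ∉ pt (ptOf N) ∧ ∀ x ∈ J₁, t * x ∈ J₂) :
    ∃ t, t ∉ pt (ptOf M) ∧ ∀ x ∈ J₁, t * x ∈ J₂ := by
  obtain ⟨g, g', hg, rfl⟩ := h
  rw [← pt_cong hM] at hV
  obtain ⟨t, ht, H⟩ := hV
  refine ⟨act g t, ht, fun x hx => ?_⟩
  have h3 := h₂.act_mem g (H _ (h₁.act_mem g' hx))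
  rw [map_mul] at h3
  have h4 : act g (act g' x) = x := RingHom.congr_fun (act_comp (mul_eq_one_comm.mp hg)) x
  rwa [h4] at h3

lemma glStab_top : GLStab (⊤ : Ideal (SymRing n)) := fun _ => Stab.top _

/-- A quotient ring as a subquotient. -/
noncomputable def topSQ {R : Type} [CommRing R] (J : Ideal R) : SQ (⊤ : Ideal R) J ≃ₗ[R] R ⧸ J :=
  quotEquiv _ _ (⊤ : Ideal R).subtype (fun _ => Iff.rfl) fun z => ⟨⟨z, trivial⟩, by simp⟩

lemma V_cong_quot {M N : Matrix (Fin n) (Fin n) ℂ} (hM : M.IsSymm) (h : Cong M N)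
    {J : Ideal (SymRing n)} (hJ : GLStab J) {i : ℕ}
    (hV : V (pt (ptOf N)) i (SymRing n ⧸ J)) : V (pt (ptOf M)) i (SymRing n ⧸ J) :=
  V_equiv (topSQ J).symm (V_cong hM h glStab_top hJ (V_equiv (topSQ J) hV))

/-- The symmetric matrix of a point. -/
noncomputable def matOf (c : Idx n → ℂ) : Matrix (Fin n) (Fin n) ℂ :=
  (genSym n).map (MvPolynomial.eval c)

lemma matOf_symm (c : Idx n → ℂ) : (matOf c).IsSymm := (genSym_symm n).map _

lemma ptOf_matOf (c : Idx n → ℂ) : ptOf (matOf c) = c := by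
  ext s
  simp [ptOf, matOf, genSym_idx]

end

lemma blk_zero_eq : blk (0 : Matrix (Fin 3) (Fin 3) ℂ) = diagonal ![1, 0, 0, 0] := by
  ext i j
  fin_cases i <;> fin_cases j <;> simp [blk]

/-- Normal forms of nonzero symmetric `4 × 4` matrices. -/
lemma normal_form {M : Matrix (Fin 4) (Fin 4) ℂ} (hM : M.IsSymm) (h0 : M ≠ 0) :
    Cong M (blk 0) ∨ ∃ a b, Cong M (diagonal ![1, 1, a, b]) := by
  obtain ⟨d, hd⟩ := cong_diag hM
  have h1 : ∃ i, d i ≠ 0 := by
    by_contra h
    push Not at h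
    exact hd.ne_zero h0 (by rw [show d = 0 from funext h]; simp)
  obtain ⟨i, hi⟩ := h1
  have hd1 := hd.trans (cong_perm d (Equiv.swap 0 i))
  set d1 := d ∘ Equiv.swap 0 i with hd1def
  have h10 : d1 0 ≠ 0 := by simpa [hd1def] using hi
  by_cases h2 : ∃ j, j ≠ 0 ∧ d1 j ≠ 0
  · right
    obtain ⟨j, hj0, hj⟩ := h2
    have hd2 := hd1.trans (cong_perm d1 (Equiv.swap 1 j))
    set d2 := d1 ∘ Equiv.swap 1 j with hd2def
    have h20 : d2 0 ≠ 0 := by
      rw [hd2def, Function.comp_apply, Equiv.swap_apply_of_ne_of_ne (by decide) hj0.symm]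
      exact h10
    have h21 : d2 1 ≠ 0 := by simpa [hd2def] using hj
    choose s hs hs' using fun k => exists_scale (d2 k)
    refine ⟨s 2 * d2 2 * s 2, s 3 * d2 3 * s 3, ?_⟩
    convert hd2.trans (cong_scale d2 s hs) using 2
    ext k
    fin_cases k
    · exact (hs' 0 h20).symm
    · exact (hs' 1 h21).symm
    · rfl
    · rfl
  · left
    push Not at h2
    choose s hs hs' using fun k => exists_scale (d1 k)
    rw [blk_zero_eq]
    convert hd1.trans (cong_scale d1 s hs) using 2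
    ext k
    fin_cases k
    · exact (hs' 0 h10).symm
    · simp [h2 1 (by decide)]
    · simp [h2 2 (by decide)]
    · simp [h2 3 (by decide)]

lemma point_cases (c : Idx 4 → ℂ) (hc : c ≠ 0) :
    Cong (matOf c) (blk 0) ∨ ∃ a b, Cong (matOf c) (diagonal ![1, 1, a, b]) := by
  refine normal_form (matOf_symm c) fun h => hc ?_
  rw [← ptOf_matOf c, h]
  rfl

lemma zs4_mem_blk : ∀ z ∈ zs4, z ∈ pt (ptOf (blk 0)) := by
  intro z hz
  rw [mem_pt, eval_ptOf]
  simp only [zs4, List.mem_cons, List.not_mem_nil, or_false] at hz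
  rcases hz with rfl | rfl | rfl | rfl <;>
    simp only [map_sub, map_one, sub_gen (blk_symm isSymm_zero)] <;> simp [blk]

lemma zs6_mem_diag (a b : ℂ) : ∀ z ∈ zs6, z ∈ pt (ptOf (diagonal ![1, 1, a, b])) := by
  intro z hz
  rw [mem_pt, eval_ptOf]
  simp only [zs6, List.mem_cons, List.not_mem_nil, or_false] at hz
  rcases hz with rfl | rfl | rfl | rfl | rfl | rfl <;> simp [sub_gen (isSymm_diagonal _)]

lemma zs4_mem_diag (a b : ℂ) : ∀ z ∈ zs4, z ∈ pt (ptOf (diagonal ![1, 1, a, b])) := by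
  intro z hz
  apply zs6_mem_diag
  simp only [zs4, List.mem_cons, List.not_mem_nil, or_false] at hz
  rcases hz with rfl | rfl | rfl | rfl <;> simp [zs6]

end Pool.Agent.Lib.MP_8277d7_ag
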