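import Pool.Agent.Lib.MP_8277d7_ag.Minors

/-! Regular sequences at points of rank one and two; reduction to the `3 × 3` case. -/

open Polynomial Matrix

namespace Pool.Agent.Lib.MP_8277d7_ag

section
variable {n : ℕ}

/-- Scaling family. -/
noncomputable def diagG (k : Fin n) : Matrix (Fin n) (Fin n) ℂ[X] :=
  diagonal fun i => if i = k then X else 1

/-- Transvection family. -/
noncomputable def elemG (a b : Fin n) : Matrix (Fin n) (Fin n) ℂ[X] :=
  of fun i j => (if i = j then 1 else 0) + if i = a ∧ j = b then X else 0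

lemma diagG_eval (k : Fin n) : (diagG k).map (eval 1) = 1 := by
  ext i j
  simp only [diagG, map_apply, diagonal_apply, one_apply]
  split_ifs <;> simp

lemma elemG_eval (a b : Fin n) : (elemG a b).map (eval 0) = 1 := by
  ext i j
  simp only [elemG, map_apply, of_apply, one_apply]
  split_ifs <;> simp

lemma fam_diagG (k i j : Fin n) : fam (diagG k) (genSym n i j) =
    (if i = k then X else 1) * C (genSym n i j) * (if j = k then X else 1) := by
  rw [fam_gen]
  simp only [diagG, diagonal_apply, apply_ite (liftT (SymRing n)), map_zero, ite_mul, zero_mul,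
    Finset.sum_ite_eq, Finset.mem_univ, if_true, mul_ite, mul_zero, map_one, coe_mapRingHom, map_X]

lemma elemG_sum {A : Type} [CommRing A] [Algebra ℂ A] (a b i : Fin n) (f : Fin n → A[X]) :
    ∑ k, liftT A (elemG a b i k) * f k = f i + if i = a then X * f b else 0 := by
  simp only [elemG, of_apply, map_add, apply_ite (liftT A), map_zero, map_one, add_mul,
    Finset.sum_add_distrib, ite_mul, zero_mul, one_mul, Finset.sum_ite_eq, Finset.mem_univ, if_true,
    coe_mapRingHom, map_X]
  by_cases h : i = a <;> simp [h]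

lemma fam_elemG (a b i j : Fin n) : fam (elemG a b) (genSym n i j) =
    (C (genSym n i j) + if i = a then X * C (genSym n b j) else 0) +
      if j = a then X * (C (genSym n i b) + if i = a then X * C (genSym n b b) else 0) else 0 := by
  rw [fam_gen]
  simp only [elemG_sum]
  simp only [mul_comm _ (liftT (SymRing n) _)]
  rw [elemG_sum]

lemma fam_one (G : Matrix (Fin n) (Fin n) ℂ[X]) : fam G 1 = C 1 := by simp

end

/-- The first four cuts. -/
noncomputable def zs4 : List (SymRing 4) :=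
  [genSym 4 0 0 - 1, genSym 4 0 1, genSym 4 0 2, genSym 4 0 3]

/-- Six cuts. -/
noncomputable def zs6 : List (SymRing 4) :=
  [genSym 4 0 0 - 1, genSym 4 0 1, genSym 4 0 2, genSym 4 0 3, genSym 4 1 1 - 1, genSym 4 1 2]

lemma mem_sup_self {R : Type} [CommRing R] (J : Ideal R) (z : R) : z ∈ J ⊔ Ideal.span {z} :=
  Ideal.mem_sup_right (Ideal.mem_span_singleton_self z)

lemma regSeq6 {J : Ideal (SymRing 4)} (hJ : GLStab J) : RegSeq J zs6 := by
  have e0 := fun a b : Fin 4 => fam_eval (elemG_eval a b)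
  have e1 := fun a : Fin 4 => fam_eval (diagG_eval a)
  refine ⟨?_, ?_, ?_, ?_, ?_, ?_, trivial⟩
  · refine reg_of_family (e1 0) (hJ _) 0 (Reg.of_isUnit _ ?_)
    simp [fam_diagG]
  · refine reg_of_family (e0 1 0) ((hJ _).sup_fixed ?_) 1 (Reg.of_unit_mod (u := 1) ?_)
    · simp [fam_elemG]
    · simpa [fam_elemG] using mem_sup_self _ _
  · refine reg_of_family (e0 2 0) (((hJ _).sup_fixed ?_).sup_fixed ?_) 1
      (Reg.of_unit_mod (u := 1) ?_)
    · simp [fam_elemG]
    · simp [fam_elemG]
    · simpa [fam_elemG] using Ideal.mem_sup_left (mem_sup_self _ _)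
  · refine reg_of_family (e0 3 0) ((((hJ _).sup_fixed ?_).sup_fixed ?_).sup_fixed ?_) 1
      (Reg.of_unit_mod (u := 1) ?_)
    · simp [fam_elemG]
    · simp [fam_elemG]
    · simp [fam_elemG]
    · simpa [fam_elemG] using Ideal.mem_sup_left (Ideal.mem_sup_left (mem_sup_self _ _))
  · refine reg_of_family (e1 1)
      (((((hJ _).sup_fixed ?_).sup_span ?_).sup_fixed ?_).sup_fixed ?_) 0 (Reg.of_isUnit _ ?_)
    · simp [fam_diagG]
    · rw [fam_diagG]
      exact Ideal.mul_mem_right _ _ (Ideal.mul_mem_left _ _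
        (Ideal.mem_map_of_mem _ (mem_sup_self _ _)))
    · simp [fam_diagG]
    · simp [fam_diagG]
    · simp [fam_diagG]
  · refine reg_of_family (e0 2 1)
      ((((((hJ _).sup_fixed ?_).sup_fixed ?_).sup_span ?_).sup_fixed ?_).sup_fixed ?_) 1
      (Reg.of_unit_mod (u := 1) ?_)
    · simp [fam_elemG]
    · simp [fam_elemG]
    · have : fam (elemG 2 1) (genSym 4 0 2) = C (genSym 4 0 2) + X * C (genSym 4 0 1) := by
        simp [fam_elemG]
      rw [this]
      exact Ideal.add_mem _ (Ideal.mem_map_of_mem _ (mem_sup_self _ _)) (Ideal.mul_mem_left _ _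
        (Ideal.mem_map_of_mem _ (Ideal.mem_sup_left (mem_sup_self _ _))))
    · simp [fam_elemG]
    · simp [fam_elemG]
    · simpa [fam_elemG] using mem_sup_self _ _

lemma regSeq4 {J : Ideal (SymRing 4)} (hJ : GLStab J) : RegSeq J zs4 := by
  obtain ⟨h1, h2, h3, h4, _⟩ := regSeq6 hJ
  exact ⟨h1, h2, h3, h4, trivial⟩

/-- The block matrix `diag(1, Y)`. -/
def blk {A : Type} [CommRing A] (Y : Matrix (Fin 3) (Fin 3) A) : Matrix (Fin 4) (Fin 4) A :=
  !![1, 0, 0, 0; 0, Y 0 0, Y 0 1, Y 0 2; 0, Y 1 0, Y 1 1, Y 1 2; 0, Y 2 0, Y 2 1, Y 2 2]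

lemma blk_symm {A : Type} [CommRing A] {Y : Matrix (Fin 3) (Fin 3) A} (h : Y.IsSymm) :
    (blk Y).IsSymm := by
  ext i j
  fin_cases i <;> fin_cases j <;> simp [blk, h.apply]

lemma blk_det {A : Type} [CommRing A] (Y : Matrix (Fin 3) (Fin 3) A) : (blk Y).det = Y.det := by
  simp [blk, det_succ_row_zero, Fin.sum_univ_succ, Fin.succAbove]

lemma blk_adj {A : Type} [CommRing A] (Y : Matrix (Fin 3) (Fin 3) A) : (blk Y).adjugate =
    !![Y.det, 0, 0, 0; 0, Y.adjugate 0 0, Y.adjugate 0 1, Y.adjugate 0 2;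
      0, Y.adjugate 1 0, Y.adjugate 1 1, Y.adjugate 1 2;
      0, Y.adjugate 2 0, Y.adjugate 2 1, Y.adjugate 2 2] := by
  ext i j
  fin_cases i <;> fin_cases j <;>
    simp [blk, adjugate_fin_succ_eq_det_submatrix, det_fin_three, Fin.succAbove,
      det_fin_two] <;> ring

lemma det_mem_adjIdeal {A : Type} [CommRing A] {m : ℕ} (Y : Matrix (Fin (m + 1)) (Fin (m + 1)) A) :
    Y.det ∈ adjIdeal Y := by
  have := congrFun (congrFun (mul_adjugate Y) 0) 0
  simp only [mul_apply, Matrix.smul_apply, one_apply_eq, smul_eq_mul, mul_one] at this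
  rw [← this]
  exact Ideal.sum_mem _ fun k _ => Ideal.mul_mem_left _ _ (adj_mem _ _ _)

lemma adjIdeal_blk {A : Type} [CommRing A] (Y : Matrix (Fin 3) (Fin 3) A) :
    adjIdeal (blk Y) = adjIdeal Y := by
  apply le_antisymm
  · rw [adjIdeal, Ideal.span_le]
    rintro _ ⟨⟨i, j⟩, rfl⟩
    simp only [blk_adj]
    fin_cases i <;> fin_cases j <;> simp [adj_mem, det_mem_adjIdeal]
  · rw [adjIdeal, Ideal.span_le]
    rintro _ ⟨⟨i, j⟩, rfl⟩
    have := adj_mem (blk Y) i.succ j.succ
    rw [blk_adj] at this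
    fin_cases i <;> fin_cases j <;> simpa using this

/-- The restriction to the slice `diag(1, Y)`. -/
noncomputable def rho1 : SymRing 4 →+* SymRing 3 := sub (blk (genSym 3))

lemma rho1_gen (i j : Fin 4) : rho1 (genSym 4 i j) = blk (genSym 3) i j :=
  sub_gen (blk_symm (genSym_symm 3)) i j

lemma rho1_map : (genSym 4).map rho1 = blk (genSym 3) := gen_map_sub (blk_symm (genSym_symm 3))

lemma rho1_C (c : ℂ) : rho1 (MvPolynomial.C c) = MvPolynomial.C c := sub_C _ c

/-- The inclusion of the lower block. -/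
noncomputable def iota1 : SymRing 3 →+* SymRing 4 := sub ((genSym 4).submatrix Fin.succ Fin.succ)

lemma iota1_gen (i j : Fin 3) : iota1 (genSym 3 i j) = genSym 4 i.succ j.succ :=
  sub_gen ((genSym_symm 4).submatrix _) i j

lemma iota1_C (c : ℂ) : iota1 (MvPolynomial.C c) = MvPolynomial.C c := sub_C _ c

lemma rho1_surj : Function.Surjective rho1 := by
  have : rho1.comp iota1 = RingHom.id _ := by
    apply symRing_ext
    · intro c
      simp [iota1_C, rho1_C]
    · intro i j
      rw [RingHom.comp_apply, iota1_gen, rho1_gen]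
      fin_cases i <;> fin_cases j <;> simp [blk]
  exact fun y => ⟨iota1 y, RingHom.congr_fun this y⟩

lemma rho1_comap_map (J : Ideal (SymRing 4)) : (J.map rho1).comap rho1 = addL J zs4 := by
  rw [Ideal.comap_map_of_surjective _ rho1_surj, addL_eq]
  congr 1
  apply le_antisymm
  · intro f hf
    have h1 : rho1 f = 0 := by simpa using hf
    have h2 := sub_hom_mem (iota1.comp rho1) (fun c => by simp [rho1_C, iota1_C])
      (Ideal.span {z | z ∈ zs4}) (fun s => ?_) f
    · simpa [h1] using h2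
    · have hz : ∀ z ∈ zs4, z ∈ Ideal.span {z | z ∈ zs4} := fun z hz => Ideal.subset_span hz
      have h0 := hz (genSym 4 0 0 - 1) (by simp [zs4])
      have h1 := hz (genSym 4 0 1) (by simp [zs4])
      have h2 := hz (genSym 4 0 2) (by simp [zs4])
      have h3 := hz (genSym 4 0 3) (by simp [zs4])
      rw [← genSym_idx, RingHom.comp_apply, rho1_gen]
      obtain ⟨⟨i, j⟩, hij⟩ := s
      fin_cases i <;> fin_cases j <;> simp at hij <;> simp [blk, iota1_gen, h0, h1, h2, h3]
  · rw [Ideal.span_le]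
    intro z hz
    simp only [zs4, List.mem_cons, List.not_mem_nil, or_false, Set.mem_ofPred_eq] at hz
    rcases hz with rfl | rfl | rfl | rfl <;> simp [rho1_gen, blk]

lemma rho1_minor : (minorIdeal 3 (genSym 4)).map rho1 = adjIdeal (genSym 3) := by
  rw [minorIdeal_map, rho1_map, minorIdeal_eq_adj, adjIdeal_blk]

lemma rho1_det : rho1 (genSym 4).det = (genSym 3).det := by
  rw [RingHom.map_det, RingHom.mapMatrix_apply, rho1_map, blk_det]

/-- The point of a symmetric complex matrix. -/
def ptOf {n : ℕ} (M : Matrix (Fin n) (Fin n) ℂ) : Idx n → ℂ := fun s => M s.1.1 s.1.2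

lemma eval_ptOf {n : ℕ} (M : Matrix (Fin n) (Fin n) ℂ) : MvPolynomial.eval (ptOf M) = sub M :=
  MvPolynomial.ringHom_ext (fun c => by simp [sub_C]) fun s => by simp [sub_X, ptOf]

lemma pt_blk_zero : pt (ptOf (blk 0)) = (pt (0 : Idx 3 → ℂ)).comap rho1 := by
  have : (MvPolynomial.eval (0 : Idx 3 → ℂ)).comp rho1 = MvPolynomial.eval (ptOf (blk 0)) := by
    rw [eval_ptOf]
    apply symRing_ext
    · intro c
      simp [rho1_C, sub_C]
    · intro i j
      rw [RingHom.comp_apply, rho1_gen, sub_gen (blk_symm isSymm_zero)]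
      fin_cases i <;> fin_cases j <;> simp [blk, genSym]
  rw [pt, pt, RingHom.comap_ker, this]

lemma card_idx4 : Fintype.card (Idx 4) = 10 := by decide

end Pool.Agent.Lib.MP_8277d7_ag
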