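import Mathlib

/-! Symmetric determinantal ideals: basic definitions. -/

namespace Pool.Agent.Lib.MP_8277d7_ag

/-- The index set of the variables `x_{ij}`, `i ≤ j`. -/
abbrev Idx (n : ℕ) : Type := {p : Fin n × Fin n // p.1 ≤ p.2}

/-- The coordinate ring `ℂ[x_{ij} : i ≤ j]` of symmetric `n × n` matrices. -/
abbrev SymRing (n : ℕ) : Type := MvPolynomial (Idx n) ℂ

/-- The generic symmetric matrix, with entries `X_{ij} = X_{ji} = x_{ij}` for `i ≤ j`. -/
noncomputable def genSym (n : ℕ) : Matrix (Fin n) (Fin n) (SymRing n) :=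
  Matrix.of fun i j => MvPolynomial.X ⟨(min i j, max i j), min_le_max⟩

/-- The ideal generated by the `p × p` minors of a square matrix. -/
def minorIdeal {R : Type} [CommRing R] {n : ℕ} (p : ℕ) (M : Matrix (Fin n) (Fin n) R) : Ideal R :=
  Ideal.span {d | ∃ r c : Fin p ↪o Fin n, d = (M.submatrix r c).det}

end Pool.Agent.Lib.MP_8277d7_ag
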