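import Pool.Agent.Lib.MP_8277d7_ag.Segre

/-! Depth of the weight modules. -/

open MvPolynomial

namespace Pool.Agent.Lib.MP_8277d7_ag

/-- Exponents that involve a variable outside `P, Q`. -/
def bPQ (P Q : Finset (Fin 4)) : UpperSet (II →₀ ℕ) :=
  ⟨{α | (∃ i, i ∉ P ∧ α (Sum.inl i) ≠ 0) ∨ ∃ j, j ∉ Q ∧ α (Sum.inr j) ≠ 0}, by
    rintro α β h (⟨i, hi, h'⟩ | ⟨j, hj, h'⟩)
    · exact Or.inl ⟨i, hi, by have := h (Sum.inl i); omega⟩
    · exact Or.inr ⟨j, hj, by have := h (Sum.inr j); omega⟩⟩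

lemma mem_bPQ {P Q : Finset (Fin 4)} {α : II →₀ ℕ} : α ∈ bPQ P Q ↔
    (∃ i, i ∉ P ∧ α (Sum.inl i) ≠ 0) ∨ ∃ j, j ∉ Q ∧ α (Sum.inr j) ≠ 0 := Iff.rfl

/-- Adding a monomial generator. -/
def b2 (B : UpperSet (II →₀ ℕ)) (m : II →₀ ℕ) : UpperSet (II →₀ ℕ) :=
  ⟨{α | α ∈ B ∨ m ≤ α}, by
    rintro α β h (h' | h')
    · exact Or.inl (B.upper h h')
    · exact Or.inr (h'.trans h)⟩

lemma mem_b2 {B : UpperSet (II →₀ ℕ)} {m α : II →₀ ℕ} : α ∈ b2 B m ↔ α ∈ B ∨ m ≤ α := Iff.rfl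

/-- The exponent of `u_i`. -/
noncomputable abbrev eu (i : Fin 4) : II →₀ ℕ := Finsupp.single (Sum.inl i) 1

/-- The exponent of `w_i`. -/
noncomputable abbrev ew (i : Fin 4) : II →₀ ℕ := Finsupp.single (Sum.inr i) 1

lemma eu_le {i : Fin 4} {α : II →₀ ℕ} : eu i ≤ α ↔ α (Sum.inl i) ≠ 0 := by
  rw [Finsupp.single_le_iff, Nat.one_le_iff_ne_zero]

lemma ew_le {i : Fin 4} {α : II →₀ ℕ} : ew i ≤ α ↔ α (Sum.inr i) ≠ 0 := by
  rw [Finsupp.single_le_iff, Nat.one_le_iff_ne_zero]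

lemma euw_le {i j : Fin 4} {α : II →₀ ℕ} :
    eu i + ew j ≤ α ↔ α (Sum.inl i) ≠ 0 ∧ α (Sum.inr j) ≠ 0 := by
  constructor
  · exact fun h => ⟨eu_le.mp (le_self_add.trans h), ew_le.mp (le_add_self.trans h)⟩
  · rintro ⟨h1, h2⟩ s
    simp only [Finsupp.add_apply, Finsupp.single_apply]
    split_ifs with h3 h4 h4
    · rw [← h3] at h4
      simp at h4
    · rw [← h3]; omega
    · rw [← h4]; omega
    · simp

lemma eu_add_mem {P Q : Finset (Fin 4)} {p : Fin 4} {α : II →₀ ℕ} :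
    eu p + α ∈ bPQ P Q ↔ p ∉ P ∨ α ∈ bPQ P Q := by
  simp only [mem_bPQ, Finsupp.add_apply, Finsupp.single_apply, Sum.inl.injEq, reduceCtorEq,
    if_false, zero_add]
  constructor
  · rintro (⟨i, hi, h⟩ | h)
    · by_cases hp : p = i
      · exact Or.inl (hp ▸ hi)
      · exact Or.inr (Or.inl ⟨i, hi, by simpa [hp] using h⟩)
    · exact Or.inr (Or.inr h)
  · rintro (h | ⟨i, hi, h⟩ | h)
    · exact Or.inl ⟨p, h, by simp⟩
    · exact Or.inl ⟨i, hi, by omega⟩
    · exact Or.inr h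

lemma ew_add_mem {P Q : Finset (Fin 4)} {q : Fin 4} {α : II →₀ ℕ} :
    ew q + α ∈ bPQ P Q ↔ q ∉ Q ∨ α ∈ bPQ P Q := by
  simp only [mem_bPQ, Finsupp.add_apply, Finsupp.single_apply, Sum.inr.injEq, reduceCtorEq,
    if_false, zero_add]
  constructor
  · rintro (h | ⟨i, hi, h⟩)
    · exact Or.inr (Or.inl h)
    · by_cases hp : q = i
      · exact Or.inl (hp ▸ hi)
      · exact Or.inr (Or.inr ⟨i, hi, by simpa [hp] using h⟩)
  · rintro (h | h | ⟨i, hi, h⟩)
    · exact Or.inr ⟨q, h, by simp⟩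
    · exact Or.inl h
    · exact Or.inr ⟨i, hi, by omega⟩

lemma mem_erase_u {P Q : Finset (Fin 4)} {p : Fin 4} {α : II →₀ ℕ} :
    α ∈ bPQ (P.erase p) Q ↔ α ∈ bPQ P Q ∨ α (Sum.inl p) ≠ 0 := by
  simp only [mem_bPQ, Finset.mem_erase, not_and_or, not_not]
  constructor
  · rintro (⟨i, hi | hi, h⟩ | h)
    · exact Or.inr (hi ▸ h)
    · exact Or.inl (Or.inl ⟨i, hi, h⟩)
    · exact Or.inl (Or.inr h)
  · rintro ((⟨i, hi, h⟩ | h) | h)
    · exact Or.inl ⟨i, Or.inr hi, h⟩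
    · exact Or.inr h
    · exact Or.inl ⟨p, Or.inl rfl, h⟩

lemma mem_erase_w {P Q : Finset (Fin 4)} {q : Fin 4} {α : II →₀ ℕ} :
    α ∈ bPQ P (Q.erase q) ↔ α ∈ bPQ P Q ∨ α (Sum.inr q) ≠ 0 := by
  simp only [mem_bPQ, Finset.mem_erase, not_and_or, not_not]
  constructor
  · rintro (h | ⟨i, hi | hi, h⟩)
    · exact Or.inl (Or.inl h)
    · exact Or.inr (hi ▸ h)
    · exact Or.inl (Or.inr ⟨i, hi, h⟩)
  · rintro ((h | ⟨i, hi, h⟩) | h)
    · exact Or.inl h
    · exact Or.inr ⟨i, Or.inr hi, h⟩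
    · exact Or.inr ⟨q, Or.inl rfl, h⟩

lemma wt_eu_add (i : Fin 4) {k k' : ℤ} (h : 1 + k = k') : wt (eu i) + k = k' := by rw [wt_u, h]

lemma wt_ew_add (i : Fin 4) {k k' : ℤ} (h : -1 + k = k') : wt (ew i) + k = k' := by rw [wt_w, h]

lemma wt_euw_add (i j : Fin 4) (k : ℤ) : wt (eu i + ew j) + k = k := by
  rw [wt, map_add, ← wt, ← wt, wt_u, wt_w]
  ring

lemma SES.smul_unit {R : Type} [CommRing R] {A B C : Type} [AddCommGroup A] [Module R A]
    [AddCommGroup B] [Module R B] [AddCommGroup C] [Module R C] {f : A →ₗ[R] B} {g : B →ₗ[R] C}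
    (h : SES f g) {c : R} (hc : IsUnit c) : SES (c • f) g := by
  obtain ⟨d, hd⟩ := hc.exists_left_inv
  refine ⟨fun x y hxy => h.inj ?_, h.surj, fun y => (h.ex y).trans ⟨?_, ?_⟩⟩
  · have := congrArg (d • ·) hxy
    simpa [smul_smul, hd] using this
  · rintro ⟨x, rfl⟩
    exact ⟨d • x, by simp [smul_smul, hd]⟩
  · rintro ⟨x, rfl⟩
    exact ⟨c • x, by simp⟩

lemma SES.congr_left {R : Type} [CommRing R] {A B C : Type} [AddCommGroup A] [Module R A]
    [AddCommGroup B] [Module R B] [AddCommGroup C] [Module R C] {f f' : A →ₗ[R] B} {g : B →ₗ[R] C}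
    (h : SES f g) (e : f = f') : SES f' g := e ▸ h

lemma monomial_euw (p q : Fin 4) : (monomial (eu p + ew q) (1 : ℂ) : RR) = uu p * ww q := by
  rw [uu, ww, X, X, monomial_mul, one_mul]

lemma ses_euw {P Q : Finset (Fin 4)} {p q : Fin 4} (hp : p ∈ P) (hq : q ∈ Q) (k : ℤ) :
    SES (mm (eu p + ew q) (wt_euw_add p q k) (B₁ := bPQ P Q) (B₂ := bPQ P Q)
        fun _ _ h => (bPQ P Q).upper le_add_self h)
      (rs (B₂ := b2 (bPQ P Q) (eu p + ew q)) fun _ _ h => Or.inl h) :=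
  ses_mm _ _ (fun α _ => by rw [add_assoc, eu_add_mem, ew_add_mem]; simp [hp, hq])
    fun _ _ => mem_b2

lemma ses_cut_gen {P Q : Finset (Fin 4)} {p q : Fin 4} (hp : p ∈ P) (hq : q ∈ Q)
    (h : p = q ∨ q ∉ P) (k : ℤ) :
    ∃ g : NN (bPQ P Q) k →ₗ[SymRing 4] NN (b2 (bPQ P Q) (eu p + ew q)) k,
      SES (genSym 4 p q • LinearMap.id) g := by
  have H := ses_euw hp hq k
  rcases h with rfl | h
  · have hu : IsUnit (C 2 : SymRing 4) := (IsUnit.mk0 (2 : ℂ) two_ne_zero).map C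
    have H2 := H.smul_unit hu
    refine ⟨_, H2.congr_left ?_⟩
    refine Submodule.linearMap_qext _ (LinearMap.ext fun x => ?_)
    refine (Submodule.Quotient.eq _).mpr ?_
    have : (C 2 : SymRing 4) • mT (eu p + ew p) (wt_euw_add p p k) x - genSym 4 p p • x = 0 := by
      apply Subtype.ext
      simp only [AddSubgroupClass.coe_sub, SetLike.val_smul, mT_coe, smul_RR, rho_gen,
        monomial_euw, ZeroMemClass.coe_zero, map_ofNat]
      ring
    rw [this]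
    exact Submodule.zero_mem _
  · refine ⟨_, H.congr_left ?_⟩
    refine Submodule.linearMap_qext _ (LinearMap.ext fun x => ?_)
    refine (Submodule.Quotient.eq _).mpr ?_
    have : (TW k).subtype (mT (eu p + ew q) (wt_euw_add p q k) x - genSym 4 p q • x) =
        monomial (eu q) (1 : ℂ) * (-(ww p * x)) := by
      simp only [Submodule.subtype_apply, AddSubgroupClass.coe_sub, SetLike.val_smul, mT_coe,
        smul_RR, rho_gen, monomial_euw]
      rw [← X]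
      ring
    rw [Submodule.mem_comap, this]
    intro α hα
    rw [coeff_monomial_mul'] at hα
    split_ifs at hα with h'
    · exact Or.inl ⟨q, h, eu_le.mp h'⟩
    · exact absurd rfl hα

section
variable {k₀ : ℕ} (D : DT (SymRing 4) (pt 0) k₀)

lemma depth_NN : ∀ (n : ℕ) (P Q : Finset (Fin 4)) (k : ℤ), P.card + Q.card = n →
    -(P.card : ℤ) < k → k < Q.card → ∀ i, k₀ + 1 < i + n → D.W i (NN (bPQ P Q) k) := by
  intro n
  induction n with
  | zero => intro P Q k _ _ _ i hi; exact D.big _ _ (by omega)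
  | succ n ih =>
    intro P Q k hn h1 h2 i hi
    by_cases hP : P = ∅
    · refine D.kill D.one (sq_kill fun x hx α hα => ?_) i
      rw [one_smul] at hα
      obtain ⟨j, hj⟩ := exists_u (α := α) (by have := hx hα; simp [hP] at h1; rw [wt]; omega)
      exact Or.inl ⟨j, by simp [hP], hj⟩
    by_cases hQ : Q = ∅
    · refine D.kill D.one (sq_kill fun x hx α hα => ?_) i
      rw [one_smul] at hα
      obtain ⟨j, hj⟩ := exists_w (α := α) (by have := hx hα; simp [hQ] at h2; rw [wt]; omega)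
      exact Or.inr ⟨j, by simp [hQ], hj⟩
    obtain ⟨p, q, hp, hq, hpq⟩ : ∃ p q, p ∈ P ∧ q ∈ Q ∧ (p = q ∨ q ∉ P) := by
      obtain ⟨q, hq⟩ := Finset.nonempty_iff_ne_empty.mpr hQ
      by_cases h : q ∈ P
      · exact ⟨q, q, h, hq, Or.inl rfl⟩
      · obtain ⟨p, hp⟩ := Finset.nonempty_iff_ne_empty.mpr hP
        exact ⟨p, q, hp, hq, Or.inr h⟩
    obtain ⟨g, hg⟩ := ses_cut_gen hp hq hpq k
    refine D.nak (gen_mem_pt p q) hg ?_
    have cP := Finset.card_erase_add_one hp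
    have cQ := Finset.card_erase_add_one hq
    by_cases c1 : -(P.card : ℤ) + 1 < k
    · have H := ses_mm (eu p) (wt_eu_add p (k := k - 1) (k' := k) (by ring))
        (B₁ := bPQ P (Q.erase q)) (B₂ := b2 (bPQ P Q) (eu p + ew q)) (B₃ := bPQ (P.erase p) Q)
        (fun α _ => by rw [mem_b2, mem_erase_w, eu_add_mem, euw_le]; simp [hp])
        (fun α _ => by rw [mem_b2, mem_erase_u, euw_le, eu_le]; tauto)
      exact D.mid H (ih _ _ _ (by omega) (by omega) h2 _ (by omega))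
        (ih _ _ _ (by omega) (by omega) (by omega) _ (by omega))
    by_cases c2 : k + 1 < Q.card
    · have H := ses_mm (ew q) (wt_ew_add q (k := k + 1) (k' := k) (by ring))
        (B₁ := bPQ (P.erase p) Q) (B₂ := b2 (bPQ P Q) (eu p + ew q)) (B₃ := bPQ P (Q.erase q))
        (fun α _ => by rw [mem_b2, mem_erase_u, ew_add_mem, euw_le]; simp [hq])
        (fun α _ => by rw [mem_b2, mem_erase_w, euw_le, ew_le]; tauto)
      exact D.mid H (ih _ _ _ (by omega) h1 (by omega) _ (by omega))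
        (ih _ _ _ (by omega) (by omega) (by omega) _ (by omega))
    · exact D.big _ _ (by omega)

lemma not_W_k0 : ¬ D.W k₀ (NN (bPQ ∅ ∅) 0) := by
  intro h
  let f : SymRing 4 →ₗ[SymRing 4] TW 0 := (Algebra.linearMap _ RR).codRestrict _ hom_rho
  have hc : ∀ s, coeff 0 (rho s) = eval 0 s := by
    intro s
    have : constantCoeff.comp rho = eval (0 : Idx 4 → ℂ) := by
      apply symRing_ext
      · intro c
        simp [rho_C]
      · intro i j
        rw [mem_pt.mp (gen_mem_pt i j)]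
        simp [rho_gen]
    exact RingHom.congr_fun this s
  have hmem : ∀ α : II →₀ ℕ, α ∈ bPQ ∅ ∅ ↔ α ≠ 0 := by
    intro α
    simp only [mem_bPQ, Finset.notMem_empty, not_false_eq_true, true_and, Finsupp.ne_iff,
      Sum.exists, Finsupp.coe_zero, Pi.zero_apply]
  have hMI : ∀ x : RR, x ∈ MI (bPQ ∅ ∅) ↔ coeff 0 x = 0 := by
    intro x
    simp only [mem_MI, hmem]
    constructor
    · intro h
      by_contra h'
      exact h 0 h' rfl
    · rintro h α hα rfl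
      exact hα h
  refine D.top (D.equiv (quotEquiv (pt 0) ((MI (bPQ ∅ ∅)).comap (TW 0).subtype) f
    (fun s => ?_) fun z => ⟨C (coeff 0 (z : RR)), ?_⟩) h)
  · rw [Submodule.mem_comap, hMI]
    exact (hc s).symm ▸ mem_pt
  · rw [Submodule.mem_comap, hMI]
    have : (TW 0).subtype (z - f (C (coeff 0 (z : RR)))) = z - rho (C (coeff 0 (z : RR))) := rfl
    rw [this, rho_C]
    simp

end

end Pool.Agent.Lib.MP_8277d7_ag
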