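import Pool.Agent.Lib.MP_8277d7_ag.Vero
import Pool.Agent.Lib.MP_8277d7_ag.Cuts

/-! The double filtration of the ring of symmetric `3 × 3` matrices. -/

open MvPolynomial

namespace Pool.Agent.Lib.MP_8277d7_ag

/-- The Veronese ideal. -/
noncomputable abbrev I3 : Ideal (SymRing 3) := adjIdeal (genSym 3)

/-- The determinant. -/
noncomputable abbrev d3 : SymRing 3 := (genSym 3).det

/-- The filtration steps. -/
noncomputable def Kge (e a : ℕ) : Ideal (SymRing 3) :=
  ⨆ p : {p : ℕ × ℕ // e < 2 * p.1 + p.2 ∨ (2 * p.1 + p.2 = e ∧ a ≤ p.1)},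
    Ideal.span {d3 ^ p.1.1} * I3 ^ p.1.2

lemma le_Kge {e a a' b' : ℕ} (h : e < 2 * a' + b' ∨ (2 * a' + b' = e ∧ a ≤ a')) :
    Ideal.span {d3 ^ a'} * I3 ^ b' ≤ Kge e a :=
  le_iSup (fun p : {p : ℕ × ℕ // e < 2 * p.1 + p.2 ∨ (2 * p.1 + p.2 = e ∧ a ≤ p.1)} =>
    Ideal.span {d3 ^ p.1.1} * I3 ^ p.1.2) ⟨(a', b'), h⟩

lemma mem_Kge {e a a' b' : ℕ} (h : e < 2 * a' + b' ∨ (2 * a' + b' = e ∧ a ≤ a')) {x : SymRing 3}
    (hx : x ∈ I3 ^ b') : d3 ^ a' * x ∈ Kge e a :=
  le_Kge h (Ideal.mul_mem_mul (Ideal.mem_span_singleton_self _) hx)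

lemma Kge_le {e a : ℕ} {J : Ideal (SymRing 3)}
    (h : ∀ a' b', e < 2 * a' + b' ∨ (2 * a' + b' = e ∧ a ≤ a') →
      ∀ x ∈ I3 ^ b', d3 ^ a' * x ∈ J) : Kge e a ≤ J := by
  refine iSup_le fun p => ?_
  rw [Ideal.span_singleton_mul_le_iff]
  exact h _ _ p.2

lemma Kge_mono {e a e' a' : ℕ} (h : e < e' ∨ (e = e' ∧ a ≤ a')) : Kge e' a' ≤ Kge e a :=
  Kge_le fun _ _ h' _ hx => mem_Kge (by omega) hx

lemma Kge_succ {e a : ℕ} (h : e < 2 * a) : Kge e a = Kge (e + 1) 0 :=
  le_antisymm (Kge_le fun _ _ h' _ hx => mem_Kge (by omega) hx) (Kge_mono (by omega))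

lemma mul_mem_Kge {e a i : ℕ} {x y : SymRing 3} (hx : x ∈ I3 ^ i) (hy : y ∈ Kge e a) :
    x * y ∈ Kge (e + i) a := by
  have : Kge e a ≤ (Kge (e + i) a).colon {x} := by
    refine Kge_le fun a' b' h z hz => ?_
    rw [Submodule.mem_colon_singleton, smul_eq_mul, mul_assoc]
    exact mem_Kge (b' := b' + i) (by omega) (pow_add I3 b' i ▸ Ideal.mul_mem_mul hz hx)
  have h2 := this hy
  rwa [Submodule.mem_colon_singleton, smul_eq_mul, mul_comm] at h2

lemma Kge_step {a b : ℕ} {x : SymRing 3} (hx : x ∈ Kge (2 * a + b) a) :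
    ∃ y ∈ I3 ^ b, x - d3 ^ a * y ∈ Kge (2 * a + b) (a + 1) := by
  have : Kge (2 * a + b) a ≤ Ideal.span {d3 ^ a} * I3 ^ b ⊔ Kge (2 * a + b) (a + 1) := by
    refine Kge_le fun a' b' h z hz => ?_
    by_cases h' : a' = a ∧ b' = b
    · obtain ⟨rfl, rfl⟩ := h'
      exact Ideal.mem_sup_left (Ideal.mul_mem_mul (Ideal.mem_span_singleton_self _) hz)
    · exact Ideal.mem_sup_right (mem_Kge (by omega) hz)
  obtain ⟨u, hu, v, hv, rfl⟩ := Submodule.mem_sup.mp (this hx)
  obtain ⟨y, hy, rfl⟩ := Ideal.mem_span_singleton_mul.mp hu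
  exact ⟨y, hy, by simpa using hv⟩

/-- The adjugate entries. -/
noncomputable def adjF (q : Fin 3 × Fin 3) : SymRing 3 := (genSym 3).adjugate q.1 q.2

lemma adjF_mem (q : Fin 3 × Fin 3) : adjF q ∈ I3 := adj_mem _ _ _

/-- The Rees substitution. -/
noncomputable def Theta : TT →+* Polynomial (SymRing 3) :=
  eval₂Hom Polynomial.C fun q => Polynomial.X * Polynomial.C (adjF q)

lemma Theta_C (c : SymRing 3) : Theta (C c) = Polynomial.C c := by simp [Theta]

lemma Theta_X (q : Fin 3 × Fin 3) : Theta (X q) = Polynomial.X * Polynomial.C (adjF q) := by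
  simp [Theta]

lemma Theta_coeff (g : TT) : ∀ b, (Theta g).coeff b ∈ I3 ^ b := by
  induction g using MvPolynomial.induction_on with
  | C a =>
    intro b
    rw [Theta_C, Polynomial.coeff_C]
    split_ifs with h
    · simp [h]
    · exact Ideal.zero_mem _
  | add p q hp hq => intro b; rw [map_add, Polynomial.coeff_add]; exact Ideal.add_mem _ (hp b) (hq b)
  | mul_X p s hp =>
    intro b
    rw [map_mul, Theta_X, ← mul_assoc, Polynomial.coeff_mul_C]
    cases b with
    | zero => simp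
    | succ b =>
      rw [Polynomial.coeff_mul_X, pow_succ]
      exact Ideal.mul_mem_mul (hp b) (adjF_mem s)

lemma eval₂_scale {σ K A : Type} [CommRing K] [CommRing A] (f : K →+* A) (x : σ → A) (s : A)
    {p : MvPolynomial σ K} {b : ℕ} (hp : p.IsHomogeneous b) :
    eval₂ f (fun i => s * x i) p = s ^ b * eval₂ f x p := by
  rw [eval₂_eq, eval₂_eq, Finset.mul_sum]
  refine Finset.sum_congr rfl fun d hd => ?_
  have h1 : ∑ i ∈ d.support, d i = b := by
    have := hp (mem_support_iff.mp hd)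
    rw [← this, Finsupp.weight_apply, Finsupp.sum]
    simp
  simp only [mul_pow, Finset.prod_mul_distrib, Finset.prod_pow_eq_pow_sum, h1]
  ring

lemma Theta_hom {g : TT} {b : ℕ} (hg : g.IsHomogeneous b) : (Theta g).coeff b = eval adjF g := by
  have h1 : Theta g = Polynomial.X ^ b * Polynomial.C (eval adjF g) := by
    rw [Theta, coe_eval₂Hom, eval₂_scale _ _ _ hg, eval, coe_eval₂Hom, eval₂_comp_left]
    rfl
  rw [h1, mul_comm, Polynomial.coeff_C_mul_X_pow, if_pos rfl]

/-- The ideal of relations of the associated graded ring. -/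
noncomputable def LL : Ideal TT where
  carrier := {g | ∀ a b, d3 ^ a * (Theta g).coeff b ∈ Kge (2 * a + b) (a + 1)}
  zero_mem' := by simp
  add_mem' := fun {x y} hx hy a b => by
    rw [map_add, Polynomial.coeff_add, mul_add]
    exact Ideal.add_mem _ (hx a b) (hy a b)
  smul_mem' := fun r x hx a b => by
    rw [smul_eq_mul, map_mul, Polynomial.coeff_mul, Finset.mul_sum]
    refine Ideal.sum_mem _ fun p hp => ?_
    have h1 := mul_mem_Kge (Theta_coeff r p.1) (hx a p.2)
    have h2 : 2 * a + p.2 + p.1 = 2 * a + b := by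
      have := Finset.HasAntidiagonal.mem_antidiagonal.mp hp
      omega
    rw [h2] at h1
    convert h1 using 1
    ring

lemma adj_symm {R : Type} [CommRing R] {n : ℕ} {Y : Matrix (Fin n) (Fin n) R} (h : Y.IsSymm) :
    Y.adjugate.IsSymm := by
  rw [Matrix.IsSymm, Matrix.adjugate_transpose, h.eq]

lemma adjadj (i j : Fin 3) : (genSym 3).adjugate.adjugate i j = d3 * genSym 3 i j := by
  rw [Matrix.adjugate_adjugate _ (by simp)]
  simp

lemma LL_flag : FlagRel LL where
  adj x hx a b := by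
    rw [Theta_C, Polynomial.coeff_C]
    split_ifs with h
    · exact mem_Kge (b' := 1) (by omega) (by simpa using hx)
    · simp
  symm i j a b := by
    have : Theta (X (i, j) - X (j, i)) = 0 := by
      rw [map_sub, Theta_X, Theta_X, adjF, adjF, (adj_symm (genSym_symm 3)).apply i j, sub_self]
    simp [this]
  rel i j k l a b := by
    have h1 : Theta (X (i, j) * X (k, l) - X (i, k) * X (j, l)) =
        Polynomial.C (adjF (i, j) * adjF (k, l) - adjF (i, k) * adjF (j, l)) * Polynomial.X ^ 2 := by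
      simp only [map_sub, map_mul, Theta_X]
      ring
    have h2 : adjIdeal (genSym 3).adjugate ≤ Ideal.span {d3} := by
      rw [adjIdeal, Ideal.span_le]
      rintro _ ⟨q, rfl⟩
      simp only [adjadj]
      exact Ideal.mul_mem_right _ _ (Ideal.mem_span_singleton_self _)
    obtain ⟨c, hc⟩ := Ideal.mem_span_singleton'.mp
      (h2 (two_minor_mem (adj_symm (genSym_symm 3)) i j k l))
    rw [h1, Polynomial.coeff_C_mul_X_pow]
    split_ifs with h
    · have h3 := mem_Kge (e := 2 * a + b) (a := a + 1) (a' := a + 1) (b' := 0) (x := c) (by omega)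
        (by simp)
      convert h3 using 1
      simp only [adjF]
      rw [← hc]
      ring
    · simp
  inc k l a b := by
    have h0 : ∑ i, genSym 3 i k * adjF (i, l) = if k = l then d3 else 0 := by
      have := congrFun (congrFun (Matrix.mul_adjugate (genSym 3)) k) l
      simp only [Matrix.mul_apply, Matrix.smul_apply, Matrix.one_apply, smul_eq_mul, mul_ite,
        mul_one, mul_zero] at this
      rw [← this]
      exact Finset.sum_congr rfl fun i _ => by rw [genSym_comm, adjF]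
    have h1 : Theta (∑ i, C (genSym 3 i k) * X (i, l)) =
        Polynomial.C (if k = l then d3 else 0) * Polynomial.X ^ 1 := by
      rw [← h0]
      simp only [map_sum, map_mul, Theta_X, Theta_C, Finset.sum_mul]
      exact Finset.sum_congr rfl fun i _ => by ring
    rw [h1, Polynomial.coeff_C_mul_X_pow]
    split_ifs with h h'
    · have h3 := mem_Kge (e := 2 * a + b) (a := a + 1) (a' := a + 1) (b' := 0) (x := 1) (by omega)
        (by simp)
      convert h3 using 1
      ring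
    · simp
    · simp

section
variable {A : Type} [CommRing A]

/-- The deformation `v vᵀ + ε u uᵀ + η e₀ e₀ᵀ` with `u₀ = 0`. -/
def defMat (v0 v1 v2 u1 u2 ε η : A) : Matrix (Fin 3) (Fin 3) A :=
  !![v0 * v0 + η, v0 * v1, v0 * v2;
    v0 * v1, v1 * v1 + ε * (u1 * u1), v1 * v2 + ε * (u1 * u2);
    v0 * v2, v1 * v2 + ε * (u1 * u2), v2 * v2 + ε * (u2 * u2)]

lemma defMat_symm (v0 v1 v2 u1 u2 ε η : A) : (defMat v0 v1 v2 u1 u2 ε η).IsSymm := by
  ext i j
  fin_cases i <;> fin_cases j <;> rfl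

lemma defMat_det (v0 v1 v2 u1 u2 ε η : A) :
    (defMat v0 v1 v2 u1 u2 ε η).det = ε * η * (v1 * u2 - v2 * u1) ^ 2 := by
  simp [defMat, Matrix.det_fin_three]
  ring

lemma defMat_adj (v0 v1 v2 u1 u2 ε s : A) (i j : Fin 3) :
    (defMat v0 v1 v2 u1 u2 ε (ε * s)).adjugate i j =
      ε * (![v1 * u2 - v2 * u1, -(v0 * u2), v0 * u1] i * ![v1 * u2 - v2 * u1, -(v0 * u2), v0 * u1] j
        + s * (![0, v2, -v1] i * ![0, v2, -v1] j + ε * (![0, u2, -u1] i * ![0, u2, -u1] j))) := by
  fin_cases i <;> fin_cases j <;> simp [defMat, Matrix.adjugate_fin_three] <;> ring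

end

lemma semantic_gen {U : Type} [CommRing U] [IsDomain U] [Algebra ℂ U] (v : Fin 3 → U) (u1 u2 : U)
    (om : Fin 3 → U) (hom : om = ![v 1 * u2 - v 2 * u1, -(v 0 * u2), v 0 * u1]) (hne : om 0 ≠ 0)
    {a b : ℕ} {g : TT} (hg : g.IsHomogeneous b)
    (h : d3 ^ a * eval adjF g ∈ Kge (2 * a + b) (a + 1)) :
    eval₂ (sub (Matrix.of fun i j => v i * v j)) (fun q => om q.1 * om q.2) g = 0 := by
  let c : U →+* Polynomial U := Polynomial.C
  let s : Polynomial U := Polynomial.X
  let N := a + 1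
  let M := defMat (c (v 0)) (c (v 1)) (c (v 2)) (c u1) (c u2) (s ^ N) (s ^ N * s)
  let Ψ : SymRing 3 →+* Polynomial U := sub M
  have hM : (genSym 3).map Ψ = M := gen_map_sub (defMat_symm _ _ _ _ _ _ _)
  have hd : Ψ d3 = s ^ (2 * N + 1) * c (om 0) ^ 2 := by
    rw [RingHom.map_det, RingHom.mapMatrix_apply, hM, defMat_det]
    simp only [hom, Matrix.cons_val_zero, map_sub, map_mul]
    ring
  let τ : Fin 3 × Fin 3 → Polynomial U := fun q => c (om q.1 * om q.2) +
    s * (![0, c (v 2), -c (v 1)] q.1 * ![0, c (v 2), -c (v 1)] q.2 +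
      s ^ N * (![0, c u2, -c u1] q.1 * ![0, c u2, -c u1] q.2))
  have hadj : ∀ q, Ψ (adjF q) = s ^ N * τ q := by
    rintro ⟨i, j⟩
    have h1 := congrFun (congrFun (RingHom.map_adjugate Ψ (genSym 3)) i) j
    rw [RingHom.mapMatrix_apply, RingHom.mapMatrix_apply, hM, Matrix.map_apply, defMat_adj] at h1
    rw [adjF, h1]
    congr 2
    fin_cases i <;> fin_cases j <;> simp [hom]
  have hI : ∀ b' x, x ∈ I3 ^ b' → Ψ x ∈ Ideal.span {s ^ (N * b')} := by
    intro b' x hx
    have h1 : I3.map Ψ ≤ Ideal.span {s ^ N} := by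
      rw [Ideal.map_le_iff_le_comap, I3, adjIdeal, Ideal.span_le]
      rintro _ ⟨q, rfl⟩
      exact Ideal.mem_span_singleton'.mpr ⟨τ q, by rw [mul_comm]; exact (hadj q).symm⟩
    have h2 := Ideal.mem_map_of_mem Ψ hx
    rw [Ideal.map_pow] at h2
    have h3 := Ideal.pow_right_mono h1 b' h2
    rwa [Ideal.span_singleton_pow, ← pow_mul] at h3
  have hK : Kge (2 * a + b) (a + 1) ≤ (Ideal.span {s ^ (N * (2 * a + b) + a + 1)}).comap Ψ := by
    refine Kge_le fun a' b' h' x hx => ?_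
    obtain ⟨y, hy⟩ := Ideal.mem_span_singleton'.mp (hI b' x hx)
    rw [Ideal.mem_comap, map_mul, map_pow, hd, ← hy, Ideal.mem_span_singleton]
    have h1 : N * (2 * a + b) + a + 1 ≤ (2 * N + 1) * a' + N * b' := by
      rcases h' with h' | ⟨h', h''⟩
      · have : N * (2 * a + b + 1) ≤ N * (2 * a' + b') := Nat.mul_le_mul_left _ h'
        simp only [N] at this ⊢
        nlinarith
      · rw [← h']
        nlinarith
    refine (pow_dvd_pow s h1).trans ⟨(c (om 0) ^ 2) ^ a' * y, ?_⟩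
    rw [pow_add, pow_mul]
    ring
  have h1 := hK h
  have h2 : Ψ (eval adjF g) = (s ^ N) ^ b * eval₂ Ψ τ g := by
    rw [← eval₂_scale Ψ τ (s ^ N) hg, eval, coe_eval₂Hom, eval₂_comp_left]
    congr 1
    exact funext hadj
  rw [Ideal.mem_comap, map_mul, map_pow, hd, h2, Ideal.mem_span_singleton] at h1
  have h3 : s ∣ (c (om 0) ^ 2) ^ a * eval₂ Ψ τ g := by
    have hs : s ^ (N * (2 * a + b) + a) ≠ 0 := pow_ne_zero _ Polynomial.X_ne_zero
    rw [← mul_dvd_mul_iff_left hs, ← pow_succ]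
    convert h1 using 1
    ring
  rw [Polynomial.X_dvd_iff, Polynomial.coeff_zero_eq_eval_zero, Polynomial.eval_mul,
    Polynomial.eval_pow, Polynomial.eval_pow, Polynomial.eval_C] at h3
  have h4 := (mul_eq_zero.mp h3).resolve_left (pow_ne_zero _ (pow_ne_zero _ hne))
  have h5 : (Polynomial.evalRingHom 0).comp Ψ = sub (Matrix.of fun i j => v i * v j) := by
    apply symRing_ext
    · intro r
      simp only [RingHom.comp_apply, Ψ, sub_C]
      simp
    · intro i j
      rw [RingHom.comp_apply, sub_gen (defMat_symm _ _ _ _ _ _ _),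
        sub_gen (by ext i j; simp [mul_comm])]
      fin_cases i <;> fin_cases j <;> simp [defMat, s, c, N] <;> ring
  rw [← h4, ← Polynomial.coe_evalRingHom, eval₂_comp_left, h5]
  congr 1
  ext1 q
  simp [τ, s, c]

/-- The cross product `v × u` with `u = (0, w₁, w₂)`. -/
noncomputable def om : Fin 3 → QQ :=
  ![C (X 1) * X 2 - C (X 2) * X 1, -(C (X 0) * X 2), C (X 0) * X 1]

lemma om0_ne : om 0 ≠ 0 := by
  intro h
  have := congrArg (eval₂Hom (eval ![(0 : ℂ), 1, 0]) ![(0 : ℂ), 0, 1]) h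
  simp [om] at this

lemma nu_gen {W : Type} [CommRing W] (mk : QQ →+* W) (hq : mk qq = 0) {b : ℕ} {g : TT}
    (hg : g.IsHomogeneous b) (h6 : eval₂ (C.comp pi0) (fun q => om q.1 * om q.2) g = 0) :
    mk ((C (X 0) ^ 2) ^ b * piT g) = 0 := by
  let ν : QQ →+* W := eval₂Hom (mk.comp C) ![0, mk (X 2), -mk (X 1)]
  rw [qq, Fin.sum_univ_three, map_add, map_add, map_mul, map_mul, map_mul] at hq
  have hC : ∀ x, ν (C x) = mk (C x) := fun x => by simp [ν]
  have hX1 : ν (X 1) = mk (X 2) := by simp [ν]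
  have hX2 : ν (X 2) = - mk (X 1) := by simp [ν]
  have hν : ∀ i, ν (om i) = mk (C (X 0)) * mk (X i) := by
    intro i
    fin_cases i
    · simp [om, hC, hX1, hX2]
      linear_combination -hq
    · simp [om, hC, hX2]
    · simp [om, hC, hX1]
  have h7 := congrArg ν h6
  rw [map_zero, eval₂_comp_left] at h7
  have h8 : ν.comp (C.comp pi0) = mk.comp (C.comp pi0) := RingHom.ext fun x => hC _
  have h9 : (ν ∘ fun q : Fin 3 × Fin 3 => om q.1 * om q.2) =
      fun q => mk (C (X 0)) ^ 2 * (mk ∘ fun q : Fin 3 × Fin 3 => X q.1 * X q.2) q := by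
    ext1 q
    simp only [Function.comp_apply, map_mul, hν]
    ring
  rw [h8, h9, eval₂_scale (mk.comp (C.comp pi0)) _ _ hg, ← eval₂_comp_left] at h7
  rw [map_mul, map_pow, map_pow]
  exact h7

lemma semantic {a b : ℕ} {g : TT} (hg : g.IsHomogeneous b)
    (h : d3 ^ a * eval adjF g ∈ Kge (2 * a + b) (a + 1)) : piT g ∈ Ideal.span {qq} := by
  have h1 := semantic_gen (U := QQ) (fun i => C (X i)) (X 1) (X 2) om rfl om0_ne hg h
  have h2 : sub (Matrix.of fun i j : Fin 3 => (C (X i) : QQ) * C (X j)) = C.comp pi0 := by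
    apply symRing_ext
    · intro r
      rw [sub_C, RingHom.comp_apply, pi0_C]
      rfl
    · intro i j
      rw [sub_gen (by ext i j : 2; simp [mul_comm]), RingHom.comp_apply, pi0_gen, map_mul]
      rfl
  rw [h2] at h1
  have h0 : Ideal.Quotient.mk (Ideal.span {qq}) qq = 0 :=
    Ideal.Quotient.eq_zero_iff_mem.mpr (Ideal.mem_span_singleton_self _)
  have h3 := nu_gen (W := QQ ⧸ Ideal.span {qq}) (Ideal.Quotient.mk (Ideal.span {qq})) h0 hg h1
  exact (reg_v0.pow 2).pow b _ (Ideal.Quotient.eq_zero_iff_mem.mp h3)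

end Pool.Agent.Lib.MP_8277d7_ag
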