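import Pool.Agent.Lib.MP_8277d7_ag.Tool3

/-! Local cohomology as a direct limit of `Ext` modules: basic properties. -/

open CategoryTheory Abelian

namespace Pool.Agent.Lib.MP_8277d7_ag

variable {R : Type} [CommRing R]

/-- The projection `R/m^t → R/m^s` for `s ≤ t`. -/
def fac (m : Ideal R) {s t : ℕ} (h : s ≤ t) : (R ⧸ m ^ t) →ₗ[R] (R ⧸ m ^ s) :=
  Submodule.mapQ _ _ LinearMap.id (Ideal.pow_le_pow_right h)

lemma fac_mk (m : Ideal R) {s t : ℕ} (h : s ≤ t) (a : R) :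
    fac m h (Submodule.Quotient.mk a) = Submodule.Quotient.mk a := rfl

section
variable {A B C D : Type} [AddCommGroup A] [Module R A] [AddCommGroup B] [Module R B]
  [AddCommGroup C] [Module R C] [AddCommGroup D] [Module R D]

/-- Transition maps of the direct system. -/
noncomputable def lcMap (m : Ideal R) (A : Type) [AddCommGroup A] [Module R A] (j s t : ℕ)
    (h : s ≤ t) : EE R (R ⧸ m ^ s) A j →ₗ[R] EE R (R ⧸ m ^ t) A j :=
  (mk0 (fac m h)).precompOfLinear R _ (zero_add j)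

lemma lcMap_apply (m : Ideal R) (j s t : ℕ) (h : s ≤ t) (x : EE R (R ⧸ m ^ s) A j) :
    lcMap m A j s t h x = (mk0 (fac m h)).comp x (zero_add j) := rfl

instance (m : Ideal R) (j : ℕ) :
    DirectedSystem (fun t => EE R (R ⧸ m ^ t) A j) (fun s t h => lcMap m A j s t h) where
  map_self := by
    intro t x
    have : fac m (le_refl t) = LinearMap.id := by
      ext
      rfl
    rw [lcMap_apply, this, mk0_id_comp]
  map_map := by
    intro u t s h1 h2 x
    rw [lcMap_apply, lcMap_apply, lcMap_apply, mk0_mk0_comp]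
    congr 2
    ext
    rfl

/-- Local cohomology `H^j_m(A)`. -/
abbrev LCoh (m : Ideal R) (j : ℕ) (A : Type) [AddCommGroup A] [Module R A] : Type :=
  Module.DirectLimit (fun t => EE R (R ⧸ m ^ t) A j) (lcMap m A j)

variable {m : Ideal R}

/-- The structure maps of the direct limit. -/
noncomputable def lof {j : ℕ} (t : ℕ) : EE R (R ⧸ m ^ t) A j →ₗ[R] LCoh m j A :=
  Module.DirectLimit.of R ℕ (fun t => EE R (R ⧸ m ^ t) A j) (lcMap m A j) t

lemma lof_f {j s t : ℕ} (h : s ≤ t) (x : EE R (R ⧸ m ^ s) A j) :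
    lof t ((mk0 (fac m h)).comp x (zero_add j)) = lof s x :=
  Module.DirectLimit.of_f (f := lcMap m A j) (hij := h)

lemma lof_surj {j : ℕ} (z : LCoh m j A) (c : ℕ) : ∃ t, c ≤ t ∧ ∃ x, lof t x = z := by
  obtain ⟨s, x, hx⟩ := Module.DirectLimit.exists_of z
  exact ⟨max c s, le_max_left _ _, _, (lof_f (le_max_right c s) x).trans hx⟩

lemma lof_zero {j s : ℕ} {x : EE R (R ⧸ m ^ s) A j} (h : lof s x = 0) :
    ∃ t, ∃ h : s ≤ t, (mk0 (fac m h)).comp x (zero_add j) = 0 :=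
  Module.DirectLimit.of.zero_exact (f := lcMap m A j) h

/-- The action of `Ext` classes on local cohomology. -/
noncomputable def lcomp {i j l : ℕ} (y : EE R A B i) (h : j + i = l) : LCoh m j A →ₗ[R] LCoh m l B :=
  Module.DirectLimit.lift R ℕ (fun t => EE R (R ⧸ m ^ t) A j) (lcMap m A j)
    (fun t => lof t ∘ₗ y.postcompOfLinear R _ h) fun s t hst x => by
      change lof t (((mk0 (fac m hst)).comp x (zero_add j)).comp y h) = lof s (x.comp y h)
      rw [Ext.comp_assoc _ _ _ (zero_add j) h (by omega), lof_f]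

lemma lcomp_of {i j l : ℕ} (y : EE R A B i) (h : j + i = l) (t : ℕ) (x : EE R (R ⧸ m ^ t) A j) :
    lcomp y h (lof t x) = lof t (x.comp y h) :=
  Module.DirectLimit.lift_of (G := fun t => EE R (R ⧸ m ^ t) A j) (f := lcMap m A j) (i := t) _ _ x

lemma lcomp_lcomp {i i' j l l' n : ℕ} (y : EE R A B i) (z : EE R B C i') (h : j + i = l)
    (h' : l + i' = l') (h'' : i + i' = n) (x : LCoh m j A) :
    lcomp z h' (lcomp y h x) = lcomp (y.comp z h'') (by omega) x := by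
  obtain ⟨t, -, x, rfl⟩ := lof_surj x 0
  rw [lcomp_of, lcomp_of, lcomp_of, Ext.comp_assoc _ _ _ h h'' (by omega)]

/-- The pairing between local cohomology and `Ext`. -/
noncomputable def lpair (m : Ideal R) (A B : Type) [AddCommGroup A] [Module R A] [AddCommGroup B]
    [Module R B] {i j l : ℕ} (h : j + i = l) :
    LCoh m j A →ₗ[R] (EE R A B i →ₗ[R] LCoh m l B) :=
  LinearMap.mk₂ R (fun x y => lcomp y h x) (fun _ _ _ => map_add _ _ _) (fun _ _ _ => map_smul _ _ _)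
    (fun x y y' => by
      obtain ⟨t, -, x, rfl⟩ := lof_surj x 0
      rw [lcomp_of, lcomp_of, lcomp_of, Ext.comp_add, map_add])
    (fun c x y => by
      obtain ⟨t, -, x, rfl⟩ := lof_surj x 0
      rw [lcomp_of, lcomp_of, Ext.comp_smul, map_smul])

lemma lpair_apply {i j l : ℕ} (h : j + i = l) (x : LCoh m j A) (y : EE R A B i) :
    lpair m A B h x y = lcomp y h x := rfl

lemma lcomp_id {j : ℕ} (x : LCoh m j A) : lcomp (mk0 LinearMap.id) (add_zero j) x = x := by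
  obtain ⟨t, -, x, rfl⟩ := lof_surj x 0
  rw [lcomp_of, comp_mk0_id]

lemma SES.lexA {f : A →ₗ[R] B} {g : B →ₗ[R] C} (h : SES f g) {j : ℕ} (x : LCoh m (j + 1) A)
    (hx : lcomp (mk0 f) (add_zero (j + 1)) x = 0) : ∃ w : LCoh m j C, lcomp h.cls rfl w = x := by
  obtain ⟨s, -, x, rfl⟩ := lof_surj x 0
  rw [lcomp_of] at hx
  obtain ⟨t, hst, ht⟩ := lof_zero hx
  rw [← Ext.comp_assoc _ _ _ (zero_add (j + 1)) (add_zero (j + 1)) (by omega)] at ht
  obtain ⟨w, hw⟩ := Ext.covariant_sequence_exact₁ _ h.se _ ht rfl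
  exact ⟨lof t w, by rw [lcomp_of, ← lof_f hst]; exact congrArg _ hw⟩

lemma SES.lexC {f : A →ₗ[R] B} {g : B →ₗ[R] C} (h : SES f g) {j : ℕ} (x : LCoh m j C)
    (hx : lcomp h.cls rfl x = 0) : ∃ w : LCoh m j B, lcomp (mk0 g) (add_zero j) w = x := by
  obtain ⟨s, -, x, rfl⟩ := lof_surj x 0
  rw [lcomp_of] at hx
  obtain ⟨t, hst, ht⟩ := lof_zero hx
  rw [← Ext.comp_assoc _ _ _ (zero_add j) rfl (by omega)] at ht
  obtain ⟨w, hw⟩ := Ext.covariant_sequence_exact₃ _ h.se _ rfl ht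
  exact ⟨lof t w, by rw [lcomp_of, ← lof_f hst]; exact congrArg _ hw⟩

lemma ext_kill {a : R} (h : ∀ x : A, a • x = 0) {i : ℕ} (e : EE R A B i) : a • e = 0 := by
  have h1 : a • (LinearMap.id : A →ₗ[R] A) = 0 := by ext x; simp [h]
  rw [← mk0_smul_id_comp, h1, mk0_zero, Ext.zero_comp]

lemma quot_kill {t : ℕ} {a : R} (ha : a ∈ m ^ t) (x : R ⧸ m ^ t) : a • x = 0 := by
  obtain ⟨x, rfl⟩ := Submodule.Quotient.mk_surjective _ x
  rw [← Submodule.Quotient.mk_smul, Submodule.Quotient.mk_eq_zero]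
  exact Ideal.mul_mem_right _ _ ha

lemma LCoh_tors {j : ℕ} (x : LCoh m j A) : ∃ t, ∀ a ∈ m ^ t, a • x = 0 := by
  obtain ⟨t, -, x, rfl⟩ := lof_surj x 0
  exact ⟨t, fun a ha => by rw [← map_smul, ext_kill (quot_kill ha), map_zero]⟩

lemma tors_of_fg [Module.Finite R A] (f : A →ₗ[R] B) (h : ∀ x, ∃ t, ∀ a ∈ m ^ t, a • f x = 0) :
    ∃ t, ∀ a ∈ m ^ t, ∀ x, a • f x = 0 := by
  obtain ⟨r, v, hv⟩ := Module.Finite.exists_fin (R := R) (M := A)
  choose t ht using fun i => h (v i)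
  refine ⟨Finset.univ.sup t, fun a ha x => ?_⟩
  have hx : x ∈ Submodule.span R (Set.range v) := hv ▸ Submodule.mem_top
  induction hx using Submodule.span_induction with
  | mem x hx =>
    obtain ⟨i, rfl⟩ := hx
    exact ht i a (Ideal.pow_le_pow_right (Finset.le_sup (Finset.mem_univ i)) ha)
  | zero => simp
  | add x y _ _ hx hy => rw [map_add, smul_add, hx, hy, add_zero]
  | smul c x _ hx => rw [map_smul, smul_comm, hx, smul_zero]

/-- `mk0` as a linear map. -/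
noncomputable def mk0L : (A →ₗ[R] B) →ₗ[R] EE R A B 0 where
  toFun := mk0
  map_add' := mk0_add
  map_smul' := mk0_smul

lemma mk0_sum {ι : Type} (s : Finset ι) (f : ι → (A →ₗ[R] B)) :
    mk0 (∑ i ∈ s, f i) = ∑ i ∈ s, mk0 (f i) := map_sum mk0L f s

lemma mk0_surj (y : EE R A B 0) : ∃ f, mk0 f = y := by
  obtain ⟨f, rfl⟩ := (Ext.mk₀_bijective _ _).2 y
  exact ⟨f.hom, rfl⟩

lemma mk0_inj {f : A →ₗ[R] B} (h : mk0 f = 0) : f = 0 := by
  have := (Ext.mk₀_bijective _ _).1 (h.trans (mk0_zero (A := A) (B := B)).symm)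
  exact congrArg ModuleCat.Hom.hom this

lemma mk0_epi {f : A →ₗ[R] B} (hf : Function.Surjective f) (y : EE R B C 0)
    (h : (mk0 f).comp y (zero_add 0) = 0) : y = 0 := by
  obtain ⟨g, rfl⟩ := mk0_surj y
  rw [mk0_comp_mk0] at h
  have h1 := mk0_inj h
  have : g = 0 := by
    ext b
    obtain ⟨a, rfl⟩ := hf b
    exact LinearMap.congr_fun h1 a
  rw [this, mk0_zero]

lemma ses_ker {g : B →ₗ[R] C} (hg : Function.Surjective g) : SES (LinearMap.ker g).subtype g :=
  ⟨Submodule.injective_subtype _, hg, LinearMap.exact_subtype_ker_map g⟩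

lemma ses_coker {f : A →ₗ[R] B} (hf : Function.Injective f) : SES f (LinearMap.range f).mkQ :=
  ⟨hf, Submodule.mkQ_surjective _, LinearMap.exact_map_mkQ_range f⟩

lemma extend_of_ker_le {E : Type} [AddCommGroup E] [Module R E] (hE : Module.Injective R E)
    (q : A →ₗ[R] B) (φ : A →ₗ[R] E) (h : ∀ x, q x = 0 → φ x = 0) :
    ∃ ψ : B →ₗ[R] E, ∀ x, ψ (q x) = φ x := by
  obtain ⟨ψ, hψ⟩ := hE.out ((LinearMap.ker q).liftQ q le_rfl)
    (LinearMap.ker_eq_bot.mp (Submodule.ker_liftQ_eq_bot _ _ _ le_rfl))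
    ((LinearMap.ker q).liftQ φ h)
  exact ⟨ψ, fun x => hψ (Submodule.Quotient.mk x)⟩

end

end Pool.Agent.Lib.MP_8277d7_ag
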