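import Pool.Agent.Lib.MP_8277d7_ag.LC1

/-! The top local cohomology module of a regular maximal ideal is injective. -/

open CategoryTheory Abelian

namespace Pool.Agent.Lib.MP_8277d7_ag

variable {R : Type} [CommRing R]

/-- A maximal ideal generated by a regular sequence of length `k + 1`. -/
structure RegMax (m : Ideal R) (k : ℕ) : Prop where
  max : m.IsMaximal
  ex : ∃ zs : List R, RegSeq ⊥ zs ∧ addL ⊥ zs = m ∧ zs.length = k + 1

section
variable {A B C D : Type} [AddCommGroup A] [Module R A] [AddCommGroup B] [Module R B]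
  [AddCommGroup C] [Module R C] [AddCommGroup D] [Module R D] {m : Ideal R} {k : ℕ}

lemma RegMax.small (H : RegMax m k) {t : ℕ} (hA : ∀ a ∈ m ^ t, ∀ x : A, a • x = 0) {i : ℕ}
    (hi : i ≤ k) (e : EE R A R i) : e = 0 := by
  obtain ⟨zs, h1, h2, h3⟩ := H.ex
  refine grade_zero zs h1 (fun z hz => ⟨t, hA _ (Ideal.pow_mem_pow ?_ t)⟩) (by omega) e
  rw [← h2, addL_eq]
  exact Ideal.mem_sup_right (Ideal.subset_span hz)

lemma koszul_big (zs : List R) : ∀ (J : Ideal R) (p : ℕ), RegSeq J zs →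
    (∀ i, p < i → ∀ e : EE R (R ⧸ J) D i, e = 0) →
    ∀ i, p + zs.length < i → ∀ e : EE R (R ⧸ addL J zs) D i, e = 0 := by
  induction zs with
  | nil => intro J p _ h i hi; exact h i (by simpa using hi)
  | cons z zs ih =>
    intro J p hJ h i hi
    refine ih _ (p + 1) hJ.2 (fun i hi e => ?_) i (by simp at hi; omega)
    obtain ⟨g, hg⟩ := ses_cut_ideal J z hJ.1
    obtain ⟨i, rfl⟩ : ∃ i', i = i' + 1 := ⟨i - 1, by omega⟩
    obtain ⟨y, rfl⟩ := hg.exact3 e (h _ (by omega) _)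
    rw [h i (by omega) y, Ext.comp_zero]

lemma ext_zero_equiv (φ : A ≃ₗ[R] B) {i : ℕ} (h : ∀ e : EE R B D i, e = 0) (e : EE R A D i) :
    e = 0 := by
  have : φ.symm.toLinearMap ∘ₗ φ.toLinearMap = LinearMap.id := by ext; simp
  rw [← mk0_id_comp e, ← this, ← mk0_mk0_comp, h ((mk0 φ.symm.toLinearMap).comp e _), Ext.comp_zero]

lemma RegMax.big_quot (H : RegMax m k) {i : ℕ} (hi : k + 1 < i) (e : EE R (R ⧸ m) D i) : e = 0 := by
  obtain ⟨zs, h1, rfl, h3⟩ := H.ex
  refine koszul_big zs ⊥ 0 h1 (fun i hi e => ?_) i (by omega) e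
  refine ext_zero_equiv (Submodule.quotEquivOfEqBot _ rfl) (fun e => ?_) e
  obtain ⟨i, rfl⟩ : ∃ i', i = i' + 1 := ⟨i - 1, by omega⟩
  have := Ext.subsingleton_of_projective (ModuleCat.of R R) (ModuleCat.of R D) i
  exact Subsingleton.elim _ _

lemma RegMax.big [IsNoetherianRing R] (H : RegMax m k) {t : ℕ} (N : Type) [AddCommGroup N]
    [Module R N] [hN : Module.Finite R N] : (∀ a ∈ m ^ t, ∀ x : N, a • x = 0) → ∀ i, k + 1 < i →
    ∀ e : EE R N D i, e = 0 := by
  induction hN using IsNoetherianRing.induction_on_isQuotientEquivQuotientPrime R with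
  | subsingleton N =>
    intro _ i _ e
    rw [← one_smul R e]
    exact ext_kill (fun x => Subsingleton.elim _ _) e
  | quotient N p f =>
    intro h i hi
    have hle : m ≤ p.1 := by
      refine p.2.le_of_pow_le (n := t) fun r hr => ?_
      have := h r hr (f.symm 1)
      rw [← map_smul, f.symm.map_eq_zero_iff, Algebra.smul_def, mul_one] at this
      exact Ideal.Quotient.eq_zero_iff_mem.mp this
    have he := H.max.eq_of_le p.2.ne_top hle
    refine ext_zero_equiv f ?_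
    rw [← he]
    exact H.big_quot hi
  | exact N₁ N₂ N₃ f g hf hg hfg h₁ h₃ =>
    intro h i hi e
    obtain ⟨y, rfl⟩ := (SES.mk hf hg hfg).exact2 e
      (h₁ (fun r hr x => hf (by rw [map_smul, h r hr, map_zero])) i hi _)
    rw [h₃ (fun r hr x => ?_) i hi y, Ext.comp_zero]
    obtain ⟨x, rfl⟩ := hg x
    rw [← map_smul, h r hr, map_zero]

lemma RegMax.top [IsNoetherianRing R] (H : RegMax m k) :
    ∃ y : EE R (R ⧸ m ^ 1) R (k + 1), y ≠ 0 := by
  obtain ⟨zs, h1, h2, h3⟩ := H.ex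
  have := H.max.isPrime
  have h4 := (DT.ofV m zs h1 h2).top
  by_contra hc
  push Not at hc
  refine h4 ⟨1, (Ideal.ne_top_iff_one m).mp H.max.ne_top, fun e => ?_⟩
  rw [one_smul]
  revert e
  rw [h3]
  exact ext_zero_equiv (Submodule.quotEquivOfEq _ _ (pow_one m).symm) hc

lemma RegMax.T_inj (H : RegMax m k) {t : ℕ} (hB : ∀ a ∈ m ^ t, ∀ x : B, a • x = 0)
    {g : B →ₗ[R] C} (hg : Function.Surjective g) (y : EE R C R (k + 1))
    (hy : (mk0 g).comp y (zero_add (k + 1)) = 0) : y = 0 := by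
  obtain ⟨z, rfl⟩ := (ses_ker hg).exact3 y hy
  rw [H.small (t := t) (fun a ha x => Subtype.ext (hB a ha x)) le_rfl z, Ext.comp_zero]

lemma RegMax.T_surj [IsNoetherianRing R] (H : RegMax m k) [Module.Finite R B] {t : ℕ}
    (hB : ∀ a ∈ m ^ t, ∀ x : B, a • x = 0) {f : A →ₗ[R] B} (hf : Function.Injective f)
    (x : EE R A R (k + 1)) :
    ∃ y : EE R B R (k + 1), (mk0 f).comp y (zero_add (k + 1)) = x := by
  refine (ses_coker hf).exact1 x (H.big (t := t) _ (fun a ha x => ?_) _ (by omega) _)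
  obtain ⟨x, rfl⟩ := Submodule.Quotient.mk_surjective _ x
  rw [← Submodule.Quotient.mk_smul, hB a ha, Submodule.Quotient.mk_zero]

lemma fac_surj (m : Ideal R) {s t : ℕ} (h : s ≤ t) : Function.Surjective (fac m h) := by
  intro x
  obtain ⟨x, rfl⟩ := Submodule.Quotient.mk_surjective _ x
  exact ⟨Submodule.Quotient.mk x, rfl⟩

lemma RegMax.lof_inj (H : RegMax m k) {s : ℕ} {y : EE R (R ⧸ m ^ s) R (k + 1)}
    (h : lof s y = 0) : y = 0 := by
  obtain ⟨t, hst, ht⟩ := lof_zero h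
  exact H.T_inj (fun _ => quot_kill) (fac_surj m hst) y ht

/-- The map `R/m^s → A` sending `1` to a given element. -/
def mu {s : ℕ} (hA : ∀ a ∈ m ^ s, ∀ x : A, a • x = 0) : A →ₗ[R] ((R ⧸ m ^ s) →ₗ[R] A) where
  toFun x := (m ^ s).liftQ (LinearMap.toSpanSingleton R A x) fun a ha => hA a ha x
  map_add' x y := LinearMap.ext fun z => by
    obtain ⟨a, rfl⟩ := Submodule.Quotient.mk_surjective _ z
    exact smul_add a x y
  map_smul' c x := LinearMap.ext fun z => by
    obtain ⟨a, rfl⟩ := Submodule.Quotient.mk_surjective _ z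
    exact smul_comm a c x

lemma mu_mk {s : ℕ} (hA : ∀ a ∈ m ^ s, ∀ x : A, a • x = 0) (x : A) (a : R) :
    mu hA x (Submodule.Quotient.mk a) = a • x := rfl

/-- The comparison map `Ext(A, R) → Hom(A, H(R))`. -/
noncomputable def theta {s j : ℕ} (hA : ∀ a ∈ m ^ s, ∀ x : A, a • x = 0) (y : EE R A R j) :
    A →ₗ[R] LCoh m j R :=
  lof s ∘ₗ y.postcompOfLinear R _ (zero_add j) ∘ₗ mk0L ∘ₗ mu hA

lemma theta_apply {s j : ℕ} (hA : ∀ a ∈ m ^ s, ∀ x : A, a • x = 0) (y : EE R A R j) (x : A) :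
    theta hA y x = lof s ((mk0 (mu hA x)).comp y (zero_add j)) := rfl

lemma theta_nat {s j : ℕ} (hA : ∀ a ∈ m ^ s, ∀ x : A, a • x = 0)
    (hB : ∀ a ∈ m ^ s, ∀ x : B, a • x = 0) (g : A →ₗ[R] B) (y : EE R B R j) (x : A) :
    theta hA ((mk0 g).comp y (zero_add j)) x = theta hB y (g x) := by
  rw [theta_apply, theta_apply, mk0_mk0_comp]
  congr 3
  refine LinearMap.ext fun z => ?_
  obtain ⟨a, rfl⟩ := Submodule.Quotient.mk_surjective _ z
  exact map_smul g a x

lemma theta_quot {s j : ℕ} (y : EE R (R ⧸ m ^ s) R j) (a : R) :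
    theta (fun _ => quot_kill) y (Submodule.Quotient.mk a) = a • lof s y := by
  have : mu (m := m) (s := s) (fun _ => quot_kill) (Submodule.Quotient.mk a) = a • LinearMap.id := by
    refine LinearMap.ext fun z => ?_
    obtain ⟨b, rfl⟩ := Submodule.Quotient.mk_surjective _ z
    rw [mu_mk, LinearMap.smul_apply, LinearMap.id_apply, ← Submodule.Quotient.mk_smul,
      ← Submodule.Quotient.mk_smul, smul_eq_mul, smul_eq_mul, mul_comm]
  rw [theta_apply, this, mk0_smul_id_comp, map_smul]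

lemma exists_cover [Module.Finite R A] {s : ℕ} (hA : ∀ a ∈ m ^ s, ∀ x : A, a • x = 0) :
    ∃ (r : ℕ) (v : Fin r → A), Function.Surjective
      (∑ i, mu hA (v i) ∘ₗ LinearMap.proj i : (Fin r → R ⧸ m ^ s) →ₗ[R] A) := by
  obtain ⟨r, v, hv⟩ := Module.Finite.exists_fin (R := R) (M := A)
  refine ⟨r, v, fun x => ?_⟩
  have hx : x ∈ Submodule.span R (Set.range v) := hv ▸ Submodule.mem_top
  obtain ⟨c, rfl⟩ := (Submodule.mem_span_range_iff_exists_fun R).mp hx
  exact ⟨fun i => Submodule.Quotient.mk (c i), LinearMap.sum_apply _ _ _⟩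

lemma pi_kill {r s : ℕ} (a : R) (ha : a ∈ m ^ s) (x : Fin r → R ⧸ m ^ s) : a • x = 0 :=
  funext fun i => quot_kill ha (x i)

lemma sum_comp' {ι : Type} (s : Finset ι) {a b c : ℕ} (x : ι → EE R A B a) (y : EE R B C b)
    (h : a + b = c) : (∑ i ∈ s, x i).comp y h = ∑ i ∈ s, (x i).comp y h :=
  map_sum (y.postcompOfLinear R _ h) x s

lemma RegMax.theta_inj (H : RegMax m k) [Module.Finite R A] {s : ℕ}
    (hA : ∀ a ∈ m ^ s, ∀ x : A, a • x = 0) (y : EE R A R (k + 1)) (h : ∀ x, theta hA y x = 0) :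
    y = 0 := by
  obtain ⟨r, v, hv⟩ := exists_cover hA
  refine H.T_inj (t := s) (B := Fin r → R ⧸ m ^ s) pi_kill hv y ?_
  rw [mk0_sum, sum_comp']
  refine Finset.sum_eq_zero fun i _ => ?_
  have h0 := h (v i)
  rw [theta_apply] at h0
  have h1 := H.lof_inj h0
  have h2 := mk0_mk0_comp (LinearMap.proj i : (Fin r → R ⧸ m ^ s) →ₗ[R] R ⧸ m ^ s) (mu hA (v i)) y
  rw [h1, Ext.comp_zero] at h2
  exact h2.symm

lemma RegMax.socle [IsNoetherianRing R] (H : RegMax m k) {c : ℕ} (e : LCoh m (k + 1) R)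
    (he : ∀ a ∈ m ^ c, a • e = 0) : ∃ y, lof c y = e := by
  obtain ⟨s, hs, y, rfl⟩ := lof_surj e c
  have hK : ∀ a ∈ m ^ s, ∀ x : LinearMap.ker (fac m hs), a • x = 0 :=
    fun a ha x => Subtype.ext (quot_kill ha _)
  obtain ⟨y', rfl⟩ := (ses_ker (fac_surj m hs)).exact2 y (H.theta_inj hK _ fun x => by
    obtain ⟨x, hx⟩ := x
    obtain ⟨a, rfl⟩ := Submodule.Quotient.mk_surjective _ x
    rw [theta_nat hK (fun _ => quot_kill), Submodule.subtype_apply, theta_quot]
    exact he a ((Submodule.Quotient.mk_eq_zero _).mp hx))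
  exact ⟨y', (lof_f hs y').symm⟩

lemma RegMax.theta_surj [IsNoetherianRing R] (H : RegMax m k) [Module.Finite R A] {s : ℕ}
    (hA : ∀ a ∈ m ^ s, ∀ x : A, a • x = 0) (φ : A →ₗ[R] LCoh m (k + 1) R) :
    ∃ y : EE R A R (k + 1), ∀ x, theta hA y x = φ x := by
  obtain ⟨r, v, hv⟩ := exists_cover hA
  choose y hy using fun i => H.socle (c := s) (φ (v i)) fun a ha => by rw [← map_smul, hA a ha, map_zero]
  set π : (Fin r → R ⧸ m ^ s) →ₗ[R] A := ∑ i, mu hA (v i) ∘ₗ LinearMap.proj i with hπ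
  let Y : EE R (Fin r → R ⧸ m ^ s) R (k + 1) :=
    ∑ i, (mk0 (LinearMap.proj i)).comp (y i) (zero_add (k + 1))
  have h1 : ∀ p, theta pi_kill Y p = φ (π p) := by
    intro p
    rw [theta_apply]
    change lof s ((mk0 (mu pi_kill p)).precompOfLinear R _ (zero_add (k + 1)) Y) = _
    rw [map_sum, map_sum, hπ, LinearMap.sum_apply, map_sum]
    refine Finset.sum_congr rfl fun i _ => ?_
    change theta pi_kill ((mk0 (LinearMap.proj i)).comp (y i) (zero_add (k + 1))) p = _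
    rw [theta_nat pi_kill (fun _ => quot_kill), LinearMap.comp_apply]
    obtain ⟨a, ha⟩ := Submodule.Quotient.mk_surjective _ (LinearMap.proj (R := R) i p)
    rw [← ha, theta_quot, mu_mk, map_smul, hy]
  have hK : ∀ a ∈ m ^ s, ∀ x : LinearMap.ker π, a • x = 0 :=
    fun a ha x => Subtype.ext (pi_kill a ha _)
  obtain ⟨z, hz⟩ := (ses_ker hv).exact2 Y (H.theta_inj hK _ fun x => by
    rw [theta_nat hK pi_kill, h1, Submodule.subtype_apply, LinearMap.mem_ker.mp x.2, map_zero])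
  refine ⟨z, fun x => ?_⟩
  obtain ⟨p, rfl⟩ := hv x
  rw [← h1, ← hz, theta_nat pi_kill hA]

theorem RegMax.injective [IsNoetherianRing R] (H : RegMax m k) :
    Module.Injective R (LCoh m (k + 1) R) := by
  refine Module.Baer.injective fun J f => ?_
  obtain ⟨t, ht⟩ := tors_of_fg (m := m) f fun x => LCoh_tors _
  obtain ⟨c, hc⟩ := Ideal.exists_pow_inf_eq_pow_smul m (M := R) J
  have h1 : ∀ x : J, (x : R) ∈ m ^ (t + c) → f x = 0 := by
    intro x hx
    have h2 : (x : R) ∈ m ^ t • (m ^ c • ⊤ ⊓ J : Submodule R R) := by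
      have := hc (t + c) (by omega)
      rw [Nat.add_sub_cancel] at this
      rw [← this]
      exact ⟨by simpa using hx, x.2⟩
    have h3 : ∀ z ∈ m ^ t • (m ^ c • ⊤ ⊓ J : Submodule R R), ∃ hz : z ∈ J, f ⟨z, hz⟩ = 0 := by
      intro z hz
      refine Submodule.smul_induction_on hz (fun a ha n hn => ⟨J.smul_mem a hn.2, ?_⟩) ?_
      · rw [← ht a ha ⟨n, hn.2⟩, ← map_smul]
        rfl
      · rintro x y ⟨hx, hx'⟩ ⟨hy, hy'⟩
        refine ⟨J.add_mem hx hy, ?_⟩
        exact (map_add f ⟨x, hx⟩ ⟨y, hy⟩).trans (by rw [hx', hy', add_zero])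
    exact (h3 x h2).2
  have hN : ∀ a ∈ m ^ (t + c), ∀ x : SQ J (m ^ (t + c)), a • x = 0 :=
    fun a ha => sq_kill fun x _ => Ideal.mul_mem_right _ _ ha
  obtain ⟨x, hx⟩ := H.theta_surj hN ((Submodule.comap J.subtype (m ^ (t + c))).liftQ f h1)
  let ι : SQ J (m ^ (t + c)) →ₗ[R] R ⧸ m ^ (t + c) := Submodule.mapQ _ _ J.subtype le_rfl
  have hι : Function.Injective ι := by
    rw [injective_iff_map_eq_zero]
    intro z hz
    obtain ⟨z, rfl⟩ := Submodule.Quotient.mk_surjective _ z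
    exact (Submodule.Quotient.mk_eq_zero _).mpr
      ((Submodule.Quotient.mk_eq_zero (m ^ (t + c) : Ideal R)).mp hz)
  obtain ⟨y, rfl⟩ := H.T_surj (fun _ => quot_kill) hι x
  refine ⟨LinearMap.toSpanSingleton R _ (lof (t + c) y), fun a ha => ?_⟩
  have := hx (Submodule.Quotient.mk ⟨a, ha⟩)
  rw [theta_nat hN (fun _ => quot_kill)] at this
  exact (theta_quot y a).symm.trans this

end

end Pool.Agent.Lib.MP_8277d7_ag
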