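import Pool.Agent.Lib.MP_8277d7_ag.Tool3

/-! Regular elements via one-parameter families; points of affine space. -/

open Polynomial

namespace Pool.Agent.Lib.MP_8277d7_ag

variable {R : Type} [CommRing R]

/-- The family `ψ` maps `J` into `J[T]`. -/
def Stab (ψ : R →+* R[X]) (J : Ideal R) : Prop := J.map ψ ≤ J.map (C : R →+* R[X])

lemma Stab.bot (ψ : R →+* R[X]) : Stab ψ ⊥ := by simp [Stab]

lemma Stab.top (ψ : R →+* R[X]) : Stab ψ ⊤ := by simp [Stab, Ideal.map_top]

lemma Stab.sup {ψ : R →+* R[X]} {J K : Ideal R} (h : Stab ψ J) (h' : Stab ψ K) :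
    Stab ψ (J ⊔ K) := by
  unfold Stab at *
  rw [Ideal.map_sup, Ideal.map_sup]
  exact sup_le_sup h h'

lemma Stab.mul {ψ : R →+* R[X]} {J K : Ideal R} (h : Stab ψ J) (h' : Stab ψ K) :
    Stab ψ (J * K) := by
  unfold Stab at *
  rw [Ideal.map_mul, Ideal.map_mul]
  exact Ideal.mul_mono h h'

lemma Stab.pow {ψ : R →+* R[X]} {J : Ideal R} (h : Stab ψ J) (m : ℕ) : Stab ψ (J ^ m) := by
  unfold Stab at *
  rw [Ideal.map_pow, Ideal.map_pow]
  exact Ideal.pow_right_mono h m

lemma Stab.span {ψ : R →+* R[X]} {s : Set R}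
    (h : ∀ x ∈ s, ψ x ∈ (Ideal.span s).map (C : R →+* R[X])) : Stab ψ (Ideal.span s) := by
  unfold Stab
  rw [Ideal.map_le_iff_le_comap, Ideal.span_le]
  exact h

lemma Stab.sup_span {ψ : R →+* R[X]} {J : Ideal R} (h : Stab ψ J) {z : R}
    (hz : ψ z ∈ (J ⊔ Ideal.span {z}).map (C : R →+* R[X])) : Stab ψ (J ⊔ Ideal.span {z}) := by
  unfold Stab at *
  rw [Ideal.map_sup, sup_le_iff]
  refine ⟨h.trans (Ideal.map_mono le_sup_left), ?_⟩
  rw [Ideal.map_le_iff_le_comap, Ideal.span_le]
  rintro _ rfl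
  exact hz

lemma Stab.sup_fixed {ψ : R →+* R[X]} {J : Ideal R} (h : Stab ψ J) {z : R} (hz : ψ z = C z) :
    Stab ψ (J ⊔ Ideal.span {z}) :=
  h.sup_span (hz ▸ Ideal.mem_map_of_mem _ (Ideal.mem_sup_right (Ideal.mem_span_singleton_self z)))

lemma Stab.span_fixed {ψ : R →+* R[X]} {s : Set R} (h : ∀ x ∈ s, ψ x = C x) :
    Stab ψ (Ideal.span s) :=
  Stab.span fun x hx => h x hx ▸ Ideal.mem_map_of_mem _ (Ideal.subset_span hx)

lemma reg_of_family {ψ : R →+* R[X]} {a : R} (hψ : ∀ x, (ψ x).eval a = x) {J : Ideal R}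
    (hJ : Stab ψ J) {z : R} (m : ℕ) (hz : Reg J ((ψ z).coeff m)) : Reg J z := by
  intro x hx
  have h1 : ψ z * ψ x ∈ J.map (C : R →+* R[X]) := by
    rw [← map_mul]
    exact hJ (Ideal.mem_map_of_mem _ hx)
  have hk : ∀ p : R[X], p ∈ J.map (C : R →+* R[X]) ↔ p.map (Ideal.Quotient.mk J) = 0 := by
    intro p
    rw [Ideal.mem_map_C_iff, Polynomial.ext_iff]
    simp [Ideal.Quotient.eq_zero_iff_mem]
  rw [hk, Polynomial.map_mul] at h1
  have h2 : (ψ z).map (Ideal.Quotient.mk J) ∈ nonZeroDivisors _ := by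
    refine mem_nonzeroDivisors_of_coeff_mem m ?_
    rw [coeff_map, mem_nonZeroDivisors_iff_left]
    intro y hy
    obtain ⟨y, rfl⟩ := Ideal.Quotient.mk_surjective y
    rw [← map_mul, Ideal.Quotient.eq_zero_iff_mem] at hy
    exact Ideal.Quotient.eq_zero_iff_mem.mpr (hz y hy)
  have h3 := (hk _).mpr ((mem_nonZeroDivisors_iff_left.mp h2) _ h1)
  rw [Ideal.mem_map_C_iff] at h3
  rw [← hψ x, eval_eq_sum_range]
  exact J.sum_mem fun i _ => J.mul_mem_right _ (h3 i)

lemma Reg.of_unit_mod {J : Ideal R} {z u : R} (h : u * z - 1 ∈ J) : Reg J z := by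
  intro x hx
  have := J.sub_mem (J.mul_mem_left u hx) (J.mul_mem_right x h)
  convert this using 1
  ring

lemma Reg.of_isUnit (J : Ideal R) {z : R} (h : IsUnit z) : Reg J z := by
  obtain ⟨u, hu⟩ := h.exists_left_inv
  exact Reg.of_unit_mod (u := u) (by simp [hu])

lemma Reg.mul {J : Ideal R} {a b : R} (ha : Reg J a) (hb : Reg J b) : Reg J (a * b) :=
  fun x hx => hb x (ha _ (by rwa [← mul_assoc]))

lemma Reg.pow {J : Ideal R} {a : R} (ha : Reg J a) (m : ℕ) : Reg J (a ^ m) := by
  induction m with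
  | zero => exact Reg.of_isUnit J (by simp)
  | succ m ih => rw [pow_succ]; exact ih.mul ha

section
variable {σ : Type} [DecidableEq σ] {K : Type} [CommRing K]

/-- View the variable `s` as the parameter. -/
noncomputable def psiVar (s : σ) : MvPolynomial σ K →+* (MvPolynomial σ K)[X] :=
  MvPolynomial.eval₂Hom (C.comp MvPolynomial.C)
    fun s' => if s' = s then X else C (MvPolynomial.X s')

@[simp] lemma psiVar_self (s : σ) : psiVar (K := K) s (MvPolynomial.X s) = X := by simp [psiVar]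

lemma psiVar_ne {s s' : σ} (h : s' ≠ s) :
    psiVar (K := K) s (MvPolynomial.X s') = C (MvPolynomial.X s') := by simp [psiVar, h]

@[simp] lemma psiVar_C (s : σ) (c : K) : psiVar s (MvPolynomial.C c) = C (MvPolynomial.C c) := by
  simp [psiVar]

lemma psiVar_eval (s : σ) (x : MvPolynomial σ K) : (psiVar s x).eval (MvPolynomial.X s) = x := by
  have : (evalRingHom (MvPolynomial.X s)).comp (psiVar s) = RingHom.id (MvPolynomial σ K) := by
    apply MvPolynomial.ringHom_ext
    · intro r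
      simp
    · intro s'
      by_cases h : s' = s
      · subst h
        simp
      · simp [psiVar_ne h]
  exact RingHom.congr_fun this x

lemma regSeq_of_free (p : σ → MvPolynomial σ K) (l : List σ) (hnd : l.Nodup)
    (h1 : ∀ s ∈ l, ∃ m, IsUnit ((psiVar s (p s)).coeff m))
    (h2 : ∀ s ∈ l, ∀ s' ∈ l, s ≠ s' → psiVar s (p s') = C (p s')) :
    ∀ J : Ideal (MvPolynomial σ K), (∀ s ∈ l, Stab (psiVar s) J) → RegSeq J (l.map p) := by
  induction l with
  | nil => intro J _; trivial
  | cons s l ih =>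
    intro J hJ
    rw [List.nodup_cons] at hnd
    obtain ⟨m, hm⟩ := h1 s List.mem_cons_self
    refine ⟨reg_of_family (psiVar_eval s) (hJ s List.mem_cons_self) m (Reg.of_isUnit _ hm), ?_⟩
    refine ih hnd.2 (fun s' hs' => h1 s' (List.mem_cons_of_mem _ hs'))
      (fun a ha b hb => h2 a (List.mem_cons_of_mem _ ha) b (List.mem_cons_of_mem _ hb)) _
      fun s' hs' => (hJ s' (List.mem_cons_of_mem _ hs')).sup_fixed ?_
    refine h2 s' (List.mem_cons_of_mem _ hs') s List.mem_cons_self ?_
    rintro rfl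
    exact hnd.1 hs'

end

section
variable {σ : Type}

/-- The maximal ideal of a point. -/
noncomputable def pt (c : σ → ℂ) : Ideal (MvPolynomial σ ℂ) := RingHom.ker (MvPolynomial.eval c)

lemma mem_pt {c : σ → ℂ} {f : MvPolynomial σ ℂ} : f ∈ pt c ↔ MvPolynomial.eval c f = 0 := Iff.rfl

instance (c : σ → ℂ) : (pt c).IsPrime := RingHom.ker_isPrime _

lemma sub_eval_mem (c : σ → ℂ) (J : Ideal (MvPolynomial σ ℂ))
    (hJ : ∀ s, MvPolynomial.X s - MvPolynomial.C (c s) ∈ J) (f : MvPolynomial σ ℂ) :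
    f - MvPolynomial.C (MvPolynomial.eval c f) ∈ J := by
  induction f using MvPolynomial.induction_on with
  | C a => simp
  | add p q hp hq =>
    have := J.add_mem hp hq
    convert this using 1
    simp only [map_add]
    ring
  | mul_X p s hp =>
    have := J.add_mem (J.mul_mem_right (MvPolynomial.X s) hp)
      (J.mul_mem_left (MvPolynomial.C (MvPolynomial.eval c p)) (hJ s))
    convert this using 1
    simp only [map_mul, MvPolynomial.eval_X]
    ring

lemma pt_le (c : σ → ℂ) (J : Ideal (MvPolynomial σ ℂ))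
    (hJ : ∀ s, MvPolynomial.X s - MvPolynomial.C (c s) ∈ J) : pt c ≤ J := by
  intro f hf
  have := sub_eval_mem c J hJ f
  rwa [mem_pt.mp hf, map_zero, sub_zero] at this

variable [Fintype σ] [DecidableEq σ]

/-- The list of coordinate functions centred at a point. -/
noncomputable def ptList (c : σ → ℂ) : List (MvPolynomial σ ℂ) :=
  (Finset.univ : Finset σ).toList.map fun s => MvPolynomial.X s - MvPolynomial.C (c s)

lemma ptList_reg (c : σ → ℂ) : RegSeq ⊥ (ptList c) := by
  refine regSeq_of_free _ _ (Finset.nodup_toList _) (fun s _ => ⟨1, ?_⟩)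
    (fun s _ s' _ h => ?_) ⊥ fun s _ => Stab.bot _
  · simp
  · simp [psiVar_ne h.symm]

omit [DecidableEq σ] in
lemma ptList_span (c : σ → ℂ) : addL ⊥ (ptList c) = pt c := by
  rw [addL_eq, bot_sup_eq]
  apply le_antisymm
  · rw [Ideal.span_le]
    intro z hz
    obtain ⟨s, _, rfl⟩ := List.mem_map.mp hz
    simp [mem_pt]
  · exact pt_le c _ fun s => Ideal.subset_span (List.mem_map.mpr ⟨s, by simp, rfl⟩)

omit [DecidableEq σ] in
lemma ptList_length (c : σ → ℂ) : (ptList c).length = Fintype.card σ := by simp [ptList]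

/-- The depth theory at a point of affine space. -/
noncomputable def ptDT (c : σ → ℂ) {k : ℕ} (hk : Fintype.card σ = k) :
    DT (MvPolynomial σ ℂ) (pt c) k :=
  let D := DT.ofV (pt c) (ptList c) (ptList_reg c) (ptList_span c)
  have hk' : (ptList c).length = k := (ptList_length c).trans hk
  { W := fun i M => V (pt c) i M
    one := D.one
    mid := D.mid
    left := D.left
    right := D.right
    retract := D.retract
    kill := D.kill
    nak := D.nak
    big := fun M _ _ _ i hi => D.big M i (hk' ▸ hi)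
    small := fun M _ _ h i hi => D.small M h i (hk' ▸ hi)
    top := hk' ▸ D.top }

omit [DecidableEq σ] in
/-- A finitely generated module that vanishes at every point other than `c₀` is killed by a power
of every element of the maximal ideal of `c₀`. -/
lemma pow_kill_of_points {E : Type} [AddCommGroup E] [Module (MvPolynomial σ ℂ) E]
    (c₀ : σ → ℂ) (h : ∀ c, c ≠ c₀ → ∃ t, t ∉ pt c ∧ ∀ e : E, t • e = 0) :
    ∀ z ∈ pt c₀, ∃ N : ℕ, ∀ e : E, z ^ N • e = 0 := by
  intro z hz
  have h1 : z ∈ (Module.annihilator (MvPolynomial σ ℂ) E).radical := by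
    rw [← MvPolynomial.vanishingIdeal_zeroLocus_eq_radical (K := ℂ),
      MvPolynomial.mem_vanishingIdeal_iff]
    intro c hc
    by_cases hcc : c = c₀
    · subst hcc
      exact hz
    · obtain ⟨t, ht, ht'⟩ := h c hcc
      exact absurd (hc t (Module.mem_annihilator.mpr ht')) ht
  obtain ⟨N, hN⟩ := h1
  exact ⟨N, Module.mem_annihilator.mp hN⟩

end

end Pool.Agent.Lib.MP_8277d7_ag
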