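import Pool.Agent.Lib.MP_8277d7_ag.Defs
import Pool.Agent.Lib.MP_8277d7_ag.PolyReg

/-! Minors, the action of the general linear group, finite length lemmas. -/

open Polynomial Matrix

namespace Pool.Agent.Lib.MP_8277d7_ag

section
variable {R : Type} [CommRing R]

lemma length_ne_top_of_pow_kill [IsNoetherianRing R] {n : Ideal R} (hn : n.IsMaximal)
    (E : Type) [AddCommGroup E] [Module R E] [hE : Module.Finite R E] :
    (∀ z ∈ n, ∃ N : ℕ, ∀ e : E, z ^ N • e = 0) → Module.length R E ≠ ⊤ := by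
  induction hE using IsNoetherianRing.induction_on_isQuotientEquivQuotientPrime R with
  | subsingleton N => intro _; simp
  | quotient N p f =>
    intro h
    have hle : n ≤ p.1 := by
      intro z hz
      obtain ⟨m, hm⟩ := h z hz
      have := hm (f.symm 1)
      rw [← map_smul, f.symm.map_eq_zero_iff, Algebra.smul_def, mul_one] at this
      exact p.2.mem_of_pow_mem m (Ideal.Quotient.eq_zero_iff_mem.mp this)
    have he := hn.eq_of_le p.2.ne_top hle
    have : IsSimpleModule R (R ⧸ p.1) := by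
      rw [← he]
      exact isSimpleModule_iff_quot_maximal.mpr ⟨n, hn, ⟨LinearEquiv.refl _ _⟩⟩
    rw [f.length_eq, Module.length_eq_one]
    exact ENat.one_ne_top
  | exact N₁ N₂ N₃ f g hf hg hfg h₁ h₃ =>
    intro h
    rw [Module.length_eq_add_of_exact f g hf hg hfg]
    refine WithTop.add_ne_top.mpr ⟨h₁ fun z hz => ?_, h₃ fun z hz => ?_⟩
    · obtain ⟨m, hm⟩ := h z hz
      exact ⟨m, fun e => hf (by rw [map_smul, hm, map_zero])⟩
    · obtain ⟨m, hm⟩ := h z hz
      refine ⟨m, fun e => ?_⟩
      obtain ⟨e, rfl⟩ := hg e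
      rw [← map_smul, hm, map_zero]

lemma exists_kill_of_length_ne_top (E : Type) [AddCommGroup E] [Module R E] [Module.Finite R E]
    (h : Module.length R E ≠ ⊤) (z : ℕ → R) (n : ℕ → Ideal R) (hn : ∀ k, (n k).IsPrime)
    (h1 : ∀ k, z k ∈ n k) (h2 : ∀ j k, j < k → z j ∉ n k) :
    ∃ k, ∃ t, t ∉ n k ∧ ∀ e : E, t • e = 0 := by
  have hA : IsArtinian R E := (isFiniteLength_iff_isNoetherian_isArtinian.mp
    (Module.length_ne_top_iff.mp h)).2
  let p : ℕ → R := fun k => ∏ j ∈ Finset.range k, z j
  let N : ℕ →o (Submodule R E)ᵒᵈ :=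
    ⟨fun k => OrderDual.toDual (LinearMap.range (p k • (LinearMap.id : E →ₗ[R] E))),
      monotone_nat_of_le_succ fun k => by
        rintro _ ⟨x, rfl⟩
        exact ⟨z k • x, by simp [p, Finset.prod_range_succ, mul_smul, smul_comm (z k)]⟩⟩
  obtain ⟨k, hk⟩ := IsArtinian.monotone_stabilizes N
  have hk1 := hk (k + 1) (by omega)
  have := hn k
  refine ⟨k, nak_local (t := p k) (z := z k) ?_ (h1 k) fun e => ?_⟩
  · intro hp
    obtain ⟨j, hj, hj'⟩ := Ideal.IsPrime.prod_mem_iff.mp hp
    exact h2 j k (Finset.mem_range.mp hj) hj'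
  · have h3 : p k • e ∈ LinearMap.range (p k • (LinearMap.id : E →ₗ[R] E)) := ⟨e, rfl⟩
    have h4 : LinearMap.range (p k • (LinearMap.id : E →ₗ[R] E)) =
      LinearMap.range (p (k + 1) • (LinearMap.id : E →ₗ[R] E)) := hk1
    rw [h4] at h3
    obtain ⟨x, hx⟩ := h3
    refine ⟨p k • x, ?_⟩
    rw [← hx]
    simp [p, Finset.prod_range_succ, mul_smul, smul_comm (z k)]

variable {n p : ℕ}

lemma exists_orderEmb {f : Fin p → Fin n} (hf : Function.Injective f) :
    ∃ (r : Fin p ↪o Fin n) (π : Equiv.Perm (Fin p)), f = r ∘ π := by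
  refine ⟨OrderEmbedding.ofStrictMono (f ∘ Tuple.sort f)
    ((Tuple.monotone_sort f).strictMono_of_injective (hf.comp (Tuple.sort f).injective)),
    (Tuple.sort f).symm, ?_⟩
  ext i
  simp

lemma det_sub_mem (M : Matrix (Fin n) (Fin n) R) (r c : Fin p → Fin n) :
    (M.submatrix r c).det ∈ minorIdeal p M := by
  by_cases hr : Function.Injective r
  · by_cases hc : Function.Injective c
    · obtain ⟨r, π, rfl⟩ := exists_orderEmb hr
      obtain ⟨c, τ, rfl⟩ := exists_orderEmb hc
      have h1 : M.submatrix (r ∘ π) (c ∘ τ) =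
          ((M.submatrix r c).submatrix id τ).submatrix π id := rfl
      rw [h1, det_permute, det_permute']
      exact Ideal.mul_mem_left _ _ (Ideal.mul_mem_left _ _ (Ideal.subset_span ⟨r, c, rfl⟩))
    · obtain ⟨i, j, h1, h2⟩ := Function.not_injective_iff.mp hc
      rw [det_zero_of_column_eq h2 (fun k => by simp [h1])]
      exact Ideal.zero_mem _
  · obtain ⟨i, j, h1, h2⟩ := Function.not_injective_iff.mp hr
    rw [det_zero_of_row_eq h2 (by ext k; simp [h1])]
    exact Ideal.zero_mem _

lemma minorIdeal_le {M : Matrix (Fin n) (Fin n) R} {J : Ideal R}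
    (h : ∀ r c : Fin p → Fin n, (M.submatrix r c).det ∈ J) : minorIdeal p M ≤ J := by
  rw [minorIdeal, Ideal.span_le]
  rintro _ ⟨r, c, rfl⟩
  exact h r c

lemma minorIdeal_mul_left (A M : Matrix (Fin n) (Fin n) R) :
    minorIdeal p (A * M) ≤ minorIdeal p M := by
  refine minorIdeal_le fun r c => ?_
  have h1 : (A * M).submatrix r c = fun i => ∑ k, A (r i) k • fun j => M k (c j) := by
    ext i j
    simp [Matrix.mul_apply, Finset.sum_apply]
  have h2 := (detRowAlternating (n := Fin p) (R := R)).toMultilinearMap.map_sum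
    (fun i k => A (r i) k • fun j => M k (c j))
  have h3 : ((A * M).submatrix r c).det = (detRowAlternating (n := Fin p) (R := R)).toMultilinearMap
      (fun i => ∑ k, A (r i) k • fun j => M k (c j)) := by rw [h1]; rfl
  rw [h3, h2]
  refine Ideal.sum_mem _ fun h _ => ?_
  rw [MultilinearMap.map_smul_univ]
  exact Ideal.mul_mem_left _ _ (det_sub_mem M h c)

lemma minorIdeal_transpose_le (M : Matrix (Fin n) (Fin n) R) :
    minorIdeal p Mᵀ ≤ minorIdeal p M := by
  refine minorIdeal_le fun r c => ?_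
  rw [← transpose_submatrix, det_transpose]
  exact det_sub_mem M c r

lemma minorIdeal_conj (A M B : Matrix (Fin n) (Fin n) R) :
    minorIdeal p (A * M * B) ≤ minorIdeal p M := by
  have h1 : A * M * B = (Bᵀ * (A * M)ᵀ)ᵀ := by simp [Matrix.mul_assoc]
  rw [h1]
  exact (minorIdeal_transpose_le _).trans ((minorIdeal_mul_left _ _).trans
    ((minorIdeal_transpose_le _).trans (minorIdeal_mul_left _ _)))

lemma minorIdeal_map {R' : Type} [CommRing R'] (f : R →+* R') (M : Matrix (Fin n) (Fin n) R) :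
    (minorIdeal p M).map f = minorIdeal p (M.map f) := by
  rw [minorIdeal, minorIdeal, Ideal.map_span]
  congr 1
  ext d
  constructor
  · rintro ⟨_, ⟨r, c, rfl⟩, rfl⟩
    exact ⟨r, c, by rw [RingHom.map_det]; rfl⟩
  · rintro ⟨r, c, rfl⟩
    exact ⟨_, ⟨r, c, rfl⟩, by rw [RingHom.map_det]; rfl⟩

/-- The ideal generated by the entries of the adjugate. -/
def adjIdeal (M : Matrix (Fin n) (Fin n) R) : Ideal R :=
  Ideal.span (Set.range fun q : Fin n × Fin n => M.adjugate q.1 q.2)

lemma adj_mem (M : Matrix (Fin n) (Fin n) R) (i j : Fin n) : M.adjugate i j ∈ adjIdeal M :=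
  Ideal.subset_span ⟨(i, j), rfl⟩

lemma orderEmb_eq_succAbove (r : Fin n ↪o Fin (n + 1)) : ∃ i : Fin (n + 1), ⇑r = i.succAbove := by
  have h1 : ∃ i, i ∉ Set.range r := by
    by_contra h
    push Not at h
    have := Fintype.card_le_of_surjective r h
    simp at this
  obtain ⟨i, hi⟩ := h1
  refine ⟨i, (r.strictMono.range_inj (Fin.strictMono_succAbove i)).mp ?_⟩
  rw [Fin.range_succAbove]
  refine Set.eq_of_subset_of_ncard_le (fun x hx h => hi (h ▸ hx)) ?_
  rw [Set.ncard_range_of_injective r.injective, ← Fin.range_succAbove,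
    Set.ncard_range_of_injective Fin.succAbove_right_injective]

lemma minorIdeal_eq_adj (M : Matrix (Fin (n + 1)) (Fin (n + 1)) R) :
    minorIdeal n M = adjIdeal M := by
  apply le_antisymm
  · rw [minorIdeal, Ideal.span_le]
    rintro _ ⟨r, c, rfl⟩
    obtain ⟨i, hi⟩ := orderEmb_eq_succAbove r
    obtain ⟨j, hj⟩ := orderEmb_eq_succAbove c
    have h := adjugate_fin_succ_eq_det_submatrix M j i
    have h2 : (M.submatrix r c).det = (-1) ^ (i + j : ℕ) * M.adjugate j i := by
      rw [h, ← mul_assoc, ← mul_pow, hi, hj]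
      simp
    rw [h2]
    exact Ideal.mul_mem_left _ _ (adj_mem M j i)
  · rw [adjIdeal, Ideal.span_le]
    rintro _ ⟨⟨i, j⟩, rfl⟩
    simp only [adjugate_fin_succ_eq_det_submatrix]
    exact Ideal.mul_mem_left _ _ (det_sub_mem M _ _)

lemma sub_hom_mem {σ K : Type} [CommRing K] (θ : MvPolynomial σ K →+* MvPolynomial σ K)
    (hC : ∀ c, θ (MvPolynomial.C c) = MvPolynomial.C c) (J : Ideal (MvPolynomial σ K))
    (hJ : ∀ s, MvPolynomial.X s - θ (MvPolynomial.X s) ∈ J) (f : MvPolynomial σ K) :
    f - θ f ∈ J := by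
  induction f using MvPolynomial.induction_on with
  | C a => simp [hC]
  | add p q hp hq =>
    have := J.add_mem hp hq
    convert this using 1
    simp only [map_add]
    ring
  | mul_X p s hp =>
    have := J.add_mem (J.mul_mem_right (MvPolynomial.X s) hp) (J.mul_mem_left (θ p) (hJ s))
    convert this using 1
    simp only [map_mul]
    ring

end

variable {n : ℕ}

lemma genSym_symm (n : ℕ) : (genSym n).IsSymm := by
  ext i j : 2
  simp [genSym, min_comm, max_comm]

lemma genSym_comm (i j : Fin n) : genSym n i j = genSym n j i := by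
  simp [genSym, min_comm, max_comm]

lemma genSym_idx (s : Idx n) : genSym n s.1.1 s.1.2 = MvPolynomial.X s := by
  obtain ⟨⟨i, j⟩, h⟩ := s
  simp only [genSym, of_apply]
  congr 3
  · exact min_eq_left h
  · exact max_eq_right h

section
variable {A : Type} [CommRing A] [Algebra ℂ A]

/-- Substitution of a symmetric matrix. -/
noncomputable def sub (N : Matrix (Fin n) (Fin n) A) : SymRing n →+* A :=
  (MvPolynomial.aeval (R := ℂ) fun s : Idx n => N s.1.1 s.1.2).toRingHom

lemma sub_X (N : Matrix (Fin n) (Fin n) A) (s : Idx n) :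
    sub N (MvPolynomial.X s) = N s.1.1 s.1.2 := by simp [sub]

lemma sub_C (N : Matrix (Fin n) (Fin n) A) (c : ℂ) :
    sub N (MvPolynomial.C c) = algebraMap ℂ A c := by simp [sub]

lemma sub_gen {N : Matrix (Fin n) (Fin n) A} (hN : N.IsSymm) (i j : Fin n) :
    sub N (genSym n i j) = N i j := by
  simp only [genSym, of_apply, sub_X]
  rcases le_total i j with h | h
  · rw [min_eq_left h, max_eq_right h]
  · rw [min_eq_right h, max_eq_left h, hN.apply]

lemma gen_map_sub {N : Matrix (Fin n) (Fin n) A} (hN : N.IsSymm) : (genSym n).map (sub N) = N := by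
  ext i j : 2
  exact sub_gen hN i j

omit [Algebra ℂ A] in
lemma symRing_ext {f g : SymRing n →+* A} (hC : ∀ c, f (MvPolynomial.C c) = g (MvPolynomial.C c))
    (h : ∀ i j, f (genSym n i j) = g (genSym n i j)) : f = g :=
  MvPolynomial.ringHom_ext hC fun s => by rw [← genSym_idx, h]

end

lemma isSymm_conj {A : Type} [CommRing A] (G : Matrix (Fin n) (Fin n) A)
    {M : Matrix (Fin n) (Fin n) A} (hM : M.IsSymm) : (G * M * Gᵀ).IsSymm := by
  rw [IsSymm, transpose_mul, transpose_mul, transpose_transpose, hM.eq, Matrix.mul_assoc]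

/-- Coefficient extension of polynomials in the parameter. -/
noncomputable abbrev liftT (A : Type) [CommRing A] [Algebra ℂ A] : ℂ[X] →+* A[X] :=
  mapRingHom (algebraMap ℂ A)

/-- The family `X ↦ G X Gᵀ`. -/
noncomputable def fam (G : Matrix (Fin n) (Fin n) ℂ[X]) : SymRing n →+* (SymRing n)[X] :=
  sub (G.map (liftT (SymRing n)) * (genSym n).map C * (G.map (liftT (SymRing n)))ᵀ)

lemma fam_map (G : Matrix (Fin n) (Fin n) ℂ[X]) : (genSym n).map (fam G) =
    G.map (liftT (SymRing n)) * (genSym n).map C * (G.map (liftT (SymRing n)))ᵀ :=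
  gen_map_sub (isSymm_conj _ ((genSym_symm n).map _))

lemma fam_gen (G : Matrix (Fin n) (Fin n) ℂ[X]) (i j : Fin n) : fam G (genSym n i j) =
    ∑ l, (∑ k, liftT _ (G i k) * C (genSym n k l)) * liftT _ (G j l) := by
  have := congrFun (congrFun (fam_map G) i) j
  simpa [Matrix.mul_apply] using this

lemma fam_C (G : Matrix (Fin n) (Fin n) ℂ[X]) (c : ℂ) :
    fam G (MvPolynomial.C c) = C (MvPolynomial.C c) := by
  rw [fam, sub_C]
  rfl

lemma fam_eval {G : Matrix (Fin n) (Fin n) ℂ[X]} {a : ℂ} (h : G.map (eval a) = 1)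
    (x : SymRing n) : (fam G x).eval (MvPolynomial.C a) = x := by
  have : (evalRingHom (MvPolynomial.C a)).comp (fam G) = RingHom.id (SymRing n) := by
    apply symRing_ext
    · intro c
      simp [fam_C]
    · intro i j
      have h1 : ∀ k l, (liftT (SymRing n) (G k l)).eval (MvPolynomial.C a) =
          if k = l then 1 else 0 := by
        intro k l
        have h2 := congrFun (congrFun h k) l
        rw [map_apply, one_apply] at h2
        rw [coe_mapRingHom, ← MvPolynomial.algebraMap_eq, eval_map_algebraMap, aeval_algebraMap_apply,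
          coe_aeval_eq_eval, h2]
        split_ifs <;> simp
      simp only [RingHom.comp_apply, fam_gen, coe_evalRingHom, eval_finsetSum, eval_mul, h1, eval_C,
        RingHom.id_apply]
      simp
  exact RingHom.congr_fun this x

/-- Ideals stable under all families. -/
def GLStab (J : Ideal (SymRing n)) : Prop := ∀ G, Stab (fam G) J

lemma GLStab.sup {J K : Ideal (SymRing n)} (h : GLStab J) (h' : GLStab K) : GLStab (J ⊔ K) :=
  fun G => (h G).sup (h' G)

lemma GLStab.mul {J K : Ideal (SymRing n)} (h : GLStab J) (h' : GLStab K) : GLStab (J * K) :=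
  fun G => (h G).mul (h' G)

lemma GLStab.pow {J : Ideal (SymRing n)} (h : GLStab J) (m : ℕ) : GLStab (J ^ m) :=
  fun G => (h G).pow m

lemma glStab_minor (p : ℕ) : GLStab (minorIdeal p (genSym n)) := by
  intro G
  unfold Stab
  rw [minorIdeal_map, minorIdeal_map, fam_map]
  exact minorIdeal_conj _ _ _

lemma glStab_det : GLStab (Ideal.span {(genSym n).det}) := by
  intro G
  refine Stab.span ?_
  rintro _ rfl
  rw [RingHom.map_det, RingHom.mapMatrix_apply, fam_map, det_mul, det_mul]
  refine Ideal.mul_mem_right _ _ (Ideal.mul_mem_left _ _ ?_)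
  rw [← RingHom.mapMatrix_apply, ← RingHom.map_det]
  exact Ideal.mem_map_of_mem _ (Ideal.mem_span_singleton_self _)

end Pool.Agent.Lib.MP_8277d7_ag
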