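import Pool.Agent.Lib.MP_8277d7_ag.LC2
import Pool.Agent.Lib.MP_8277d7_ag.Minors

/-! Local duality at a regular maximal ideal. -/

open CategoryTheory Abelian

namespace Pool.Agent.Lib.MP_8277d7_ag

variable {R : Type} [CommRing R]

section
variable {A B C D : Type} [AddCommGroup A] [Module R A] [AddCommGroup B] [Module R B]
  [AddCommGroup C] [Module R C] [AddCommGroup D] [Module R D] {m : Ideal R} {k : ℕ}

/-- Precomposition as a linear map. -/
noncomputable def preL (C : Type) [AddCommGroup C] [Module R C] {a b c : ℕ} (x : EE R A B a)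
    (h : a + b = c) : EE R B C b →ₗ[R] EE R A C c := x.precompOfLinear R _ h

lemma preL_apply {a b c : ℕ} (x : EE R A B a) (h : a + b = c) (y : EE R B C b) :
    preL C x h y = x.comp y h := rfl

lemma sum_single_proj (r : ℕ) :
    (∑ i, LinearMap.single R (fun _ : Fin r => R) i ∘ₗ LinearMap.proj i :
      (Fin r → R) →ₗ[R] (Fin r → R)) = LinearMap.id := by
  refine LinearMap.ext fun x => ?_
  rw [LinearMap.sum_apply]
  exact Finset.univ_sum_single x

lemma free_decomp {r j : ℕ} (x : LCoh m j (Fin r → R)) :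
    x = ∑ i, lcomp (mk0 (LinearMap.single R (fun _ : Fin r => R) i)) (add_zero j)
      (lcomp (mk0 (LinearMap.proj i)) (add_zero j) x) := by
  conv_lhs => rw [← lcomp_id x, ← sum_single_proj, mk0_sum, ← lpair_apply, map_sum]
  refine Finset.sum_congr rfl fun i _ => ?_
  rw [lcomp_lcomp _ _ _ _ (zero_add 0), mk0_comp_mk0, lpair_apply]

lemma RegMax.free_small (H : RegMax m k) {r j : ℕ} (hj : j ≤ k) (x : LCoh m j (Fin r → R)) :
    x = 0 := by
  rw [free_decomp x]
  refine Finset.sum_eq_zero fun i _ => ?_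
  obtain ⟨t, -, y, hy⟩ := lof_surj (lcomp (mk0 (LinearMap.proj i)) (add_zero j) x) 0
  rw [← hy, H.small (fun _ => quot_kill) hj y, map_zero, map_zero]

lemma RegMax.LCoh_big [IsNoetherianRing R] (H : RegMax m k) {j : ℕ} (hj : k + 1 < j)
    (x : LCoh m j A) : x = 0 := by
  obtain ⟨t, -, y, rfl⟩ := lof_surj x 0
  rw [H.big _ (fun _ => quot_kill) j hj y, map_zero]

lemma free_inj {r j : ℕ} (x : LCoh m j (Fin r → R)) (h : lpair m _ R (add_zero j) x = 0) : x = 0 := by
  rw [free_decomp x]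
  refine Finset.sum_eq_zero fun i _ => ?_
  rw [← lpair_apply (add_zero j) x, h, LinearMap.zero_apply, map_zero]

lemma free_surj {r j : ℕ} (φ : EE R (Fin r → R) R 0 →ₗ[R] LCoh m j R) :
    ∃ x, lpair m _ R (add_zero j) x = φ := by
  refine ⟨∑ i, lcomp (mk0 (LinearMap.single R (fun _ : Fin r => R) i)) (add_zero j)
    (φ (mk0 (LinearMap.proj i))), LinearMap.ext fun y => ?_⟩
  obtain ⟨g, rfl⟩ := mk0_surj y
  have h1 : ∀ i, g ∘ₗ LinearMap.single R (fun _ : Fin r => R) i =
      g (Pi.single i 1) • LinearMap.id := fun i => by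
    ext
    simp
  have h2 : g = ∑ i, g (Pi.single i 1) • LinearMap.proj i := by
    refine LinearMap.ext fun x => ?_
    rw [LinearMap.sum_apply, LinearMap.pi_apply_eq_sum_univ g x]
    refine Finset.sum_congr rfl fun i _ => ?_
    rw [LinearMap.smul_apply, LinearMap.proj_apply, smul_eq_mul, smul_eq_mul, mul_comm]
    congr 2
    ext l
    rw [Pi.single_apply]
    exact if_congr eq_comm rfl rfl
  conv_rhs => rw [h2, mk0_sum, map_sum]
  rw [lpair_apply, map_sum]
  refine Finset.sum_congr rfl fun i _ => ?_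
  rw [lcomp_lcomp _ _ _ _ (zero_add 0), mk0_comp_mk0, h1, mk0_smul, mk0_smul, map_smul,
    ← lpair_apply, map_smul, lpair_apply, lcomp_id]

lemma RegMax.dual_zero_inj [IsNoetherianRing R] (H : RegMax m k) [Module.Finite R A]
    (x : LCoh m (k + 1) A) (hx : lpair m A R (add_zero (k + 1)) x = 0) : x = 0 := by
  obtain ⟨r, π, hπ⟩ := Module.Finite.exists_fin' R A
  obtain ⟨w, rfl⟩ := (ses_ker hπ).lexC x (H.LCoh_big (by omega) _)
  obtain ⟨r', π', hπ'⟩ := Module.Finite.exists_fin' R (LinearMap.ker π)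
  have hq : ∀ y : EE R (Fin r → R) R 0,
      preL R (mk0 ((LinearMap.ker π).subtype ∘ₗ π')) (zero_add 0) y = 0 →
      lpair m (Fin r → R) R (add_zero (k + 1)) w y = 0 := by
    intro y hy
    rw [preL_apply, ← mk0_mk0_comp] at hy
    obtain ⟨y', rfl⟩ := (ses_ker hπ).exact2 y (mk0_epi hπ' _ hy)
    rw [lpair_apply, ← lcomp_lcomp _ _ (add_zero (k + 1)) (add_zero (k + 1)), ← lpair_apply, hx,
      LinearMap.zero_apply]
  obtain ⟨ψ, hψ⟩ := extend_of_ker_le H.injective _ _ hq
  obtain ⟨v, rfl⟩ := free_surj ψ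
  have h1 : w - lcomp (mk0 ((LinearMap.ker π).subtype ∘ₗ π')) (add_zero (k + 1)) v = 0 := by
    refine free_inj _ (LinearMap.ext fun y => ?_)
    rw [map_sub, LinearMap.sub_apply, ← hψ, lpair_apply, lpair_apply,
      lcomp_lcomp _ _ _ _ (zero_add 0), preL_apply]
    exact sub_self _
  rw [sub_eq_zero] at h1
  have h2 : π ∘ₗ ((LinearMap.ker π).subtype ∘ₗ π') = 0 :=
    LinearMap.ext fun z => (π' z).2
  rw [h1, lcomp_lcomp _ _ _ _ (zero_add 0), mk0_comp_mk0, h2, mk0_zero, ← lpair_apply, map_zero]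

lemma RegMax.dual_zero_surj [IsNoetherianRing R] (H : RegMax m k) [Module.Finite R A]
    (φ : EE R A R 0 →ₗ[R] LCoh m (k + 1) R) : ∃ x, lpair m A R (add_zero (k + 1)) x = φ := by
  obtain ⟨r, π, hπ⟩ := Module.Finite.exists_fin' R A
  have hq : ∀ y : EE R A R 0, preL R (mk0 π) (zero_add 0) y = 0 → φ y = 0 := by
    intro y hy
    rw [preL_apply] at hy
    rw [mk0_epi hπ y hy, map_zero]
  obtain ⟨ψ, hψ⟩ := extend_of_ker_le H.injective _ _ hq
  obtain ⟨w, rfl⟩ := free_surj ψ
  refine ⟨lcomp (mk0 π) (add_zero (k + 1)) w, LinearMap.ext fun y => ?_⟩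
  rw [← hψ, lpair_apply, lpair_apply, lcomp_lcomp _ _ _ _ (zero_add 0), preL_apply]

/-- Local duality. -/
theorem RegMax.dual [IsNoetherianRing R] (H : RegMax m k) (i : ℕ) : ∀ (j : ℕ) (h : j + i = k + 1)
    (A : Type) [AddCommGroup A] [Module R A] [Module.Finite R A],
    Function.Bijective (lpair m A R h) := by
  induction i with
  | zero =>
    intro j h A _ _ _
    obtain rfl : j = k + 1 := h
    exact ⟨(injective_iff_map_eq_zero _).mpr H.dual_zero_inj, H.dual_zero_surj⟩
  | succ i ih =>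
    intro j h A _ _ _
    obtain ⟨r, π, hπ⟩ := Module.Finite.exists_fin' R A
    have S := ses_ker hπ
    have h' : j + 1 + i = k + 1 := by omega
    have hK := ih (j + 1) h' (LinearMap.ker π)
    have hF := ih (j + 1) h' (Fin r → R)
    have key : ∀ (x : LCoh m j A) (z : EE R (LinearMap.ker π) R i),
        lpair m _ R h' (lcomp S.cls rfl x) z = lpair m A R h x (S.cls.comp z (add_comm 1 i)) :=
      fun x z => lcomp_lcomp _ _ _ _ _ x
    constructor
    · rw [injective_iff_map_eq_zero]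
      intro x hx
      obtain ⟨w, rfl⟩ := S.lexC x ((injective_iff_map_eq_zero _).mp hK.1 _
        (LinearMap.ext fun z => by rw [key, hx]; rfl))
      rw [H.free_small (by omega) w, map_zero]
    · intro φ
      obtain ⟨w, hw⟩ := hK.2 (φ ∘ₗ preL R S.cls (add_comm 1 i))
      obtain ⟨x, rfl⟩ := S.lexA w ((injective_iff_map_eq_zero _).mp hF.1 _
        (LinearMap.ext fun z => by
          rw [lpair_apply, lcomp_lcomp _ _ _ _ (zero_add i), ← lpair_apply, hw,
            LinearMap.comp_apply, preL_apply,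
            ← Ext.comp_assoc _ _ _ (add_zero 1) (zero_add i) (by omega), S.cls_comp_f,
            Ext.zero_comp, map_zero, LinearMap.zero_apply]))
      refine ⟨x, LinearMap.ext fun y => ?_⟩
      have := Ext.subsingleton_of_projective (ModuleCat.of R (Fin r → R)) (ModuleCat.of R R) i
      obtain ⟨z, rfl⟩ := S.exact3 y (Subsingleton.elim _ _)
      rw [← key, hw, LinearMap.comp_apply, preL_apply]

lemma RegMax.cogen [IsNoetherianRing R] (H : RegMax m k) {s : ℕ} (x : A)
    (h : ∀ φ : A →ₗ[R] LCoh m (k + 1) R, φ x = 0) : x ∈ (m ^ s • ⊤ : Submodule R A) := by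
  by_contra hx
  obtain ⟨y, hy⟩ := H.top
  let q := LinearMap.toSpanSingleton R _ ((m ^ s • ⊤ : Submodule R A).mkQ x)
  have h1 : LinearMap.ker q ≤ m := by
    have h2 : LinearMap.ker q ≠ ⊤ := fun h2 => hx (by
      have h3 : (1 : R) ∈ LinearMap.ker q := h2 ▸ Submodule.mem_top
      rw [LinearMap.mem_ker, LinearMap.toSpanSingleton_apply, one_smul] at h3
      exact (Submodule.Quotient.mk_eq_zero _).mp h3)
    obtain ⟨n, hn, hle⟩ := Ideal.exists_le_maximal _ h2
    have h3 : m ≤ n := hn.isPrime.le_of_pow_le (n := s) fun a ha => hle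
      ((Submodule.Quotient.mk_eq_zero _).mpr (Submodule.smul_mem_smul ha Submodule.mem_top))
    exact H.max.eq_of_le hn.ne_top h3 ▸ hle
  obtain ⟨ψ, hψ⟩ := extend_of_ker_le H.injective q (LinearMap.toSpanSingleton R _ (lof 1 y))
    fun a ha => by
      rw [LinearMap.toSpanSingleton_apply, ← map_smul,
        ext_kill (quot_kill ((pow_one m).symm ▸ h1 ha)), map_zero]
  have h4 := hψ 1
  rw [LinearMap.toSpanSingleton_apply, LinearMap.toSpanSingleton_apply, one_smul, one_smul] at h4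
  exact hy (H.lof_inj (h4.symm.trans (h (ψ ∘ₗ Submodule.mkQ _))))

theorem RegMax.length_ne_top [IsNoetherianRing R] (H : RegMax m k) {i j : ℕ} (h : j + i = k + 1)
    [Module.Finite R A] (hA : ∀ z ∈ m, ∃ N : ℕ, ∀ e : EE R A R i, z ^ N • e = 0) :
    Module.length R (LCoh m j A) ≠ ⊤ := by
  have hd := (H.dual i j h A).1
  obtain ⟨t, ht⟩ : ∃ t, m ^ t ≤ Module.annihilator R (EE R A R i) :=
    Ideal.exists_pow_le_of_le_radical_of_fg (fun z hz => by
      obtain ⟨N, hN⟩ := hA z hz
      exact ⟨N, Module.mem_annihilator.mpr hN⟩) (IsNoetherian.noetherian m)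
  obtain ⟨r, v, hv⟩ := Module.Finite.exists_fin (R := R) (M := EE R A R i)
  let G := LinearMap.range (lof (m := m) (A := R) (j := k + 1) t)
  let Ψ : LCoh m j A →ₗ[R] (Fin r → G) := LinearMap.pi fun l =>
    ((lpair m A R h).flip (v l)).codRestrict G fun x => H.socle _ fun a ha => by
      rw [LinearMap.flip_apply, ← map_smul, Module.mem_annihilator.mp (ht ha), map_zero]
  have : Module.Finite R (LCoh m j A) := Module.Finite.of_injective Ψ (by
    rw [injective_iff_map_eq_zero]
    intro x hx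
    refine (injective_iff_map_eq_zero _).mp hd x (LinearMap.ext_on_range hv fun l => ?_)
    exact congrArg Subtype.val (congrFun hx l))
  refine length_ne_top_of_pow_kill H.max _ fun z hz => ?_
  obtain ⟨N, hN⟩ := hA z hz
  refine ⟨N, fun x => (injective_iff_map_eq_zero _).mp hd _ (LinearMap.ext fun y => ?_)⟩
  rw [map_smul, LinearMap.smul_apply, ← map_smul, hN, map_zero, LinearMap.zero_apply]

theorem RegMax.kill_of_kill [IsNoetherianRing R] (H : RegMax m k) {i j t : ℕ} (h : j + i = k + 1)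
    [Module.Finite R A] (hA : ∀ a ∈ m ^ t, ∀ x : LCoh m j A, a • x = 0) :
    ∃ u, u - 1 ∈ m ∧ ∀ a ∈ m ^ t, ∀ e : EE R A R i, (u * a) • e = 0 := by
  obtain ⟨u, hu, hu'⟩ := Submodule.exists_sub_one_mem_and_smul_eq_zero_of_fg_of_le_smul m
    (m ^ t • ⊤ : Submodule R (EE R A R i)) (IsNoetherian.noetherian _) (by
      rw [← Submodule.mul_smul, ← pow_succ']
      refine Submodule.smul_le.mpr fun a ha y _ => H.cogen _ fun φ => ?_
      obtain ⟨x, rfl⟩ := (H.dual i j h A).2 φ
      rw [map_smul, ← LinearMap.smul_apply, ← map_smul, hA a ha, map_zero, LinearMap.zero_apply])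
  exact ⟨u, hu, fun a ha e => by
    rw [mul_smul]
    exact hu' _ (Submodule.smul_mem_smul ha Submodule.mem_top)⟩

theorem RegMax.kill_of_length [IsNoetherianRing R] (H : RegMax m k) {i j : ℕ} (h : j + i = k + 1)
    [Module.Finite R A] (hA : Module.length R (LCoh m j A) ≠ ⊤) :
    ∃ t u, u - 1 ∈ m ∧ ∀ a ∈ m ^ t, ∀ e : EE R A R i, (u * a) • e = 0 := by
  have hN : IsNoetherian R (LCoh m j A) := (isFiniteLength_iff_isNoetherian_isArtinian.mp
    (Module.length_ne_top_iff.mp hA)).1
  obtain ⟨t, ht⟩ := tors_of_fg (m := m) (LinearMap.id : LCoh m j A →ₗ[R] LCoh m j A) fun x => LCoh_tors x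
  exact ⟨t, H.kill_of_kill h ht⟩

end

end Pool.Agent.Lib.MP_8277d7_ag
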