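import Pool.Agent.Lib.MP_8277d7_ag.LC1

/-! Comparison of the direct limit with Mathlib's local cohomology functor. -/

open CategoryTheory Abelian Opposite Limits

namespace Pool.Agent.Lib.MP_8277d7_ag

variable {R : Type} [CommRing R]

lemma equiv_of_surj {Z A B : Type} [AddCommGroup Z] [Module R Z] [AddCommGroup A] [Module R A]
    [AddCommGroup B] [Module R B] (f : Z →ₗ[R] A) (g : Z →ₗ[R] B) (hf : Function.Surjective f)
    (hg : Function.Surjective g) (h : ∀ z, f z = 0 ↔ g z = 0) :
    ∃ e : A ≃ₗ[R] B, ∀ z, e (f z) = g z :=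
  ⟨(f.quotKerEquivOfSurjective hf).symm ≪≫ₗ (Submodule.quotEquivOfEq _ (LinearMap.ker g) (Submodule.ext h)) ≪≫ₗ
    g.quotKerEquivOfSurjective hg, fun z => by
      rw [LinearEquiv.trans_apply, LinearEquiv.trans_apply, LinearMap.quotKerEquivOfSurjective_symm_apply]
      rfl⟩

section
variable (L : ChainComplex (ModuleCat.{0} R)ᵒᵖ ℕ) (p : ℕ)

lemma op_surj : Function.Surjective (L.homologyι (p + 1)).unop :=
  (ModuleCat.epi_iff_surjective _).mp inferInstance

lemma op_inj : Function.Injective (L.pOpcycles (p + 1)).unop :=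
  (ModuleCat.mono_iff_injective _).mp inferInstance

lemma op_cyc (z : (L.opcycles (p + 1)).unop) :
    (L.d (p + 2) (p + 1)).unop ((L.pOpcycles (p + 1)).unop z) = 0 := by
  rw [← ModuleCat.comp_apply, ← unop_comp, L.d_pOpcycles]
  rfl

lemma op_lift (f : (L.X (p + 1)).unop) (hf : (L.d (p + 2) (p + 1)).unop f = 0) :
    ∃ z, (L.pOpcycles (p + 1)).unop z = f :=
  (ShortComplex.moduleCat_exact_iff _).mp (ShortComplex.exact_of_g_is_cokernel
    (ShortComplex.mk _ _ (L.d_pOpcycles (p + 2) (p + 1)))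
    (L.opcyclesIsCokernel (p + 2) (p + 1) (by simp))).unop f hf

lemma op_ker (z : (L.opcycles (p + 1)).unop) : (L.homologyι (p + 1)).unop z = 0 ↔
    ∃ g, (L.d (p + 1) p).unop g = (L.pOpcycles (p + 1)).unop z := by
  have h1 : ∀ g, (L.pOpcycles (p + 1)).unop ((L.fromOpcycles (p + 1) p).unop g) =
      (L.d (p + 1) p).unop g := fun g => by
    rw [← ModuleCat.comp_apply, ← unop_comp, L.p_fromOpcycles]
  constructor
  · intro h
    obtain ⟨g, hg⟩ := (ShortComplex.moduleCat_exact_iff _).mp (ShortComplex.exact_of_f_is_kernel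
      (ShortComplex.mk _ _ (L.homologyι_comp_fromOpcycles (p + 1) p))
      (L.homologyIsKernel (p + 1) p (by simp))).unop z h
    exact ⟨g, (h1 g).symm.trans (congrArg _ hg)⟩
  · rintro ⟨g, hg⟩
    rw [← op_inj L p ((h1 g).trans hg), ← ModuleCat.comp_apply, ← unop_comp,
      L.homologyι_comp_fromOpcycles]
    rfl

end

/-- The functor `Hom(-, Y)` into the opposite category. -/
noncomputable abbrev homF (Y : ModuleCat.{0} R) : ModuleCat.{0} R ⥤ (ModuleCat.{0} R)ᵒᵖ :=
  ((linearYoneda R (ModuleCat.{0} R)).obj Y).rightOp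

/-- The complex computing `Ext`. -/
noncomputable abbrev homC (Y : ModuleCat.{0} R) {X : ModuleCat.{0} R} (P : ProjectiveResolution X) :
    ChainComplex (ModuleCat.{0} R)ᵒᵖ ℕ := ((homF Y).mapHomologicalComplex _).obj P.complex

lemma old_new_obj (Y : ModuleCat.{0} R) (p : ℕ) {X : ModuleCat.{0} R} (P : ProjectiveResolution X) :
    ∃ ε : (((homF Y).leftDerived (p + 1)).obj X).unop ≃ₗ[R] Ext X Y (p + 1),
      ∀ z, ε ((P.isoLeftDerivedObj (homF Y) (p + 1)).hom.unop
        (((homC Y P).homologyι (p + 1)).unop z)) =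
        P.extMk (((homC Y P).pOpcycles (p + 1)).unop z) (p + 2) rfl (op_cyc (homC Y P) p z) := by
  let e : ((homC Y P).opcycles (p + 1)).unop →ₗ[R] Ext X Y (p + 1) :=
    { toFun := fun z =>
        P.extMk (((homC Y P).pOpcycles (p + 1)).unop z) (p + 2) rfl (op_cyc (homC Y P) p z)
      map_add' := fun z w => by
        rw [P.add_extMk]
        congr 1
        exact map_add _ _ _
      map_smul' := fun c z => by
        rw [RingHom.id_apply, Ext.smul_eq_comp_mk₀, P.extMk_comp_mk₀]
        congr 1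
        rw [Linear.comp_smul, Category.comp_id]
        exact map_smul _ _ _ }
  let φ := (P.isoLeftDerivedObj (homF Y) (p + 1)).unop.toLinearEquiv
  refine equiv_of_surj (φ.toLinearMap ∘ₗ ((homC Y P).homologyι (p + 1)).unop.hom) e
    (φ.surjective.comp (op_surj _ p)) (fun x => ?_) fun z => ?_
  · obtain ⟨f, hf, rfl⟩ := P.extMk_surjective x (p + 2) rfl
    obtain ⟨z, rfl⟩ := op_lift (homC Y P) p f hf
    exact ⟨z, rfl⟩
  · exact φ.map_eq_zero_iff.trans ((op_ker _ p z).trans 
      (P.extMk_eq_zero_iff _ _ rfl (op_cyc (homC Y P) p z) p rfl).symm)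

lemma old_new (Y : ModuleCat.{0} R) (p : ℕ) :
    ∃ ε : ∀ X : ModuleCat.{0} R,
      (((_root_.Ext R (ModuleCat.{0} R) (p + 1)).obj (op X)).obj Y) ≃ₗ[R] Ext X Y (p + 1),
      ∀ {X' X : ModuleCat.{0} R} (g : X' ⟶ X) e,
        ε X' (((_root_.Ext R (ModuleCat.{0} R) (p + 1)).map g.op).app Y e) =
          (Ext.mk₀ g).comp (ε X e) (zero_add (p + 1)) := by
  choose ε hε using fun X => old_new_obj Y p (projectiveResolution X)
  refine ⟨ε, fun {X' X} g e => ?_⟩
  let P := projectiveResolution X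
  let P' := projectiveResolution X'
  have h0 := ProjectiveResolution.lift_commutes_zero g P' P
  let φ : ProjectiveResolution.Hom P' P g :=
    ⟨ProjectiveResolution.lift g P' P, by rw [ChainComplex.single₀_map_f_zero]; exact h0⟩
  obtain ⟨w, rfl⟩ := (P.isoLeftDerivedObj (homF Y) (p + 1)).unop.toLinearEquiv.surjective e
  obtain ⟨z, rfl⟩ := op_surj _ p w
  let ψ := ((homF Y).mapHomologicalComplex _).map φ.hom
  have h1 : ((homF Y).leftDerived (p + 1)).map g ≫ (P.isoLeftDerivedObj (homF Y) (p + 1)).hom ≫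
      (homC Y P).homologyι (p + 1) = (P'.isoLeftDerivedObj (homF Y) (p + 1)).hom ≫
      (homC Y P').homologyι (p + 1) ≫ HomologicalComplex.opcyclesMap ψ (p + 1) := by
    rw [ProjectiveResolution.isoLeftDerivedObj_hom_naturality_assoc g P' P φ.hom h0]
    exact congrArg _ (HomologicalComplex.homologyι_naturality ψ (p + 1))
  have h2 := congrArg (fun f => f.unop z) h1
  have h3 := hε X' ((HomologicalComplex.opcyclesMap ψ (p + 1)).unop z)
  have h4 := congrArg (fun f => f.unop z) (HomologicalComplex.p_opcyclesMap ψ (p + 1))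
  refine (congrArg (ε X') h2).trans (h3.trans ?_)
  refine Eq.trans ?_ (congrArg (fun y => (Ext.mk₀ g).comp y (zero_add (p + 1))) (hε X z)).symm
  refine Eq.trans ?_ (ProjectiveResolution.mk₀_comp_extMk _ _ _ _ φ).symm
  congr 1

lemma lc_equiv (m : Ideal R) (p : ℕ) (A : Type) [AddCommGroup A] [Module R A] :
    Nonempty (((localCohomology m (p + 1)).obj (ModuleCat.of R A)) ≃ₗ[R] LCoh m (p + 1) A) := by
  obtain ⟨ε, hε⟩ := old_new (ModuleCat.of R A) p
  let D := localCohomology.diagram (localCohomology.idealPowersDiagram m) (p + 1)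
  have : HasColimit D := localCohomology.hasColimitDiagram.{0, 0} _ _
  let c := ((evaluation _ _).obj (ModuleCat.of R A)).mapCocone (colimit.cocone D)
  have hc : IsColimit c := isColimitOfPreserves _ (colimit.isColimit D)
  let c' : Cocone (D ⋙ (evaluation _ _).obj (ModuleCat.of R A)) :=
    { pt := ModuleCat.of R (LCoh m (p + 1) A)
      ι := { app := fun t => ModuleCat.ofHom
              (lof t.unop.unop ∘ₗ (ε (ModuleCat.of R (R ⧸ m ^ t.unop.unop))).toLinearMap)
             naturality := fun s t w => ModuleCat.hom_ext (LinearMap.ext fun x =>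
              (congrArg (lof t.unop.unop)
                (hε (ModuleCat.ofHom (fac m w.unop.unop.le)) x)).trans (lof_f _ _)) } }
  let β : LCoh m (p + 1) A →ₗ[R] c.pt :=
    Module.DirectLimit.lift R ℕ (fun t => EE R (R ⧸ m ^ t) A (p + 1)) (lcMap m A (p + 1))
      (fun t => (c.ι.app (op (op t))).hom ∘ₗ (ε (ModuleCat.of R (R ⧸ m ^ t))).symm.toLinearMap)
      fun s t hst x => by
        obtain ⟨x, rfl⟩ := (ε (ModuleCat.of R (R ⧸ m ^ s))).surjective x
        have h1 := hε (ModuleCat.ofHom (fac m hst)) x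
        have h2 := congrArg (fun f => f x) (c.w (homOfLE hst).op.op)
        refine Eq.trans (congrArg (c.ι.app (op (op t))).hom
          ((LinearEquiv.symm_apply_eq _).mpr h1.symm)) (h2.trans ?_)
        exact congrArg (c.ι.app (op (op s))).hom (LinearEquiv.symm_apply_apply _ _).symm
  have hβ : ∀ t x, β (lof t x) =
      (c.ι.app (op (op t))).hom ((ε (ModuleCat.of R (R ⧸ m ^ t))).symm x) := fun t x =>
    Module.DirectLimit.lift_of (G := fun t => EE R (R ⧸ m ^ t) A (p + 1))
      (f := lcMap m A (p + 1)) (i := t) _ _ x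
  refine ⟨LinearEquiv.ofLinearMap (hc.desc c').hom β (LinearMap.ext fun x => ?_) ?_⟩
  · obtain ⟨t, -, x, rfl⟩ := lof_surj x 0
    have h1 := congrArg (fun f => f ((ε (ModuleCat.of R (R ⧸ m ^ t))).symm x))
      (hc.fac c' (op (op t)))
    exact (congrArg _ (hβ t x)).trans (h1.trans
      (congrArg (lof t) ((ε (ModuleCat.of R (R ⧸ m ^ t))).apply_symm_apply x)))
  · have : hc.desc c' ≫ ModuleCat.ofHom β = 𝟙 _ := hc.hom_ext fun t => by
      rw [hc.fac_assoc, Category.comp_id]
      exact ModuleCat.hom_ext (LinearMap.ext fun x =>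
        (hβ _ _).trans (congrArg _ (LinearEquiv.symm_apply_apply _ _)))
    exact congrArg ModuleCat.Hom.hom this

end Pool.Agent.Lib.MP_8277d7_ag
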