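import Pool.Agent.Lib.MP_8277d7_ag.Filt
import Pool.Agent.Lib.MP_8277d7_ag.Act

/-! Finite length of `Ext^5(S/I^D, S)`. -/

open MvPolynomial

namespace Pool.Agent.Lib.MP_8277d7_ag

lemma exists_hom_of_mem {b : ℕ} {y : SymRing 3} (hy : y ∈ I3 ^ b) :
    ∃ g : TT, g.IsHomogeneous b ∧ eval adjF g = y :=
  (Ideal.mem_span_pow_iff_exists_isHomogeneous adjF y).mp hy

lemma piT_C (y : SymRing 3) : piT (C y) = C (pi0 y) := by simp [piT]

lemma step_reg1 {a b : ℕ} {x : SymRing 3} (hx : x ∈ Kge (2 * a + b) a)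
    (h : genSym 3 0 0 * x ∈ Kge (2 * a + b) (a + 1)) : x ∈ Kge (2 * a + b) (a + 1) := by
  obtain ⟨y, hy, hxy⟩ := Kge_step hx
  obtain ⟨g, hg, rfl⟩ := exists_hom_of_mem hy
  have h1 : d3 ^ a * eval adjF (C (genSym 3 0 0) * g) ∈ Kge (2 * a + b) (a + 1) := by
    have := Ideal.sub_mem _ h (Ideal.mul_mem_left _ (genSym 3 0 0) hxy)
    convert this using 1
    rw [map_mul, eval_C]
    ring
  have h2 := semantic (hg.C_mul _) h1
  rw [map_mul, piT_C, pi0_gen, map_mul] at h2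
  obtain ⟨k, hk⟩ := Ideal.mem_span_singleton.mp (reg_v0.mul reg_v0 _ h2)
  obtain ⟨g', hg'⟩ := LL_flag.sft (g := g) (h := k) (k := 0) (y := 0) (by simpa using hk)
  have h3 : g ∈ LL := by simpa using hg'
  have h4 := h3 a b
  rw [Theta_hom hg] at h4
  simpa using Ideal.add_mem _ hxy h4

lemma step_reg2 {a b : ℕ} {x y : SymRing 3} (hx : x ∈ Kge (2 * a + b) a)
    (hy : y ∈ Kge (2 * a + b) a)
    (h : genSym 3 1 1 * x - genSym 3 0 0 * y ∈ Kge (2 * a + b) (a + 1)) :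
    ∃ y' ∈ Kge (2 * a + b) a, x - genSym 3 0 0 * y' ∈ Kge (2 * a + b) (a + 1) := by
  obtain ⟨x', hx', hxx⟩ := Kge_step hx
  obtain ⟨g, hg, rfl⟩ := exists_hom_of_mem hx'
  obtain ⟨y', hy', hyy⟩ := Kge_step hy
  obtain ⟨g', hg', rfl⟩ := exists_hom_of_mem hy'
  have h1 : d3 ^ a * eval adjF (C (genSym 3 1 1) * g - C (genSym 3 0 0) * g') ∈
      Kge (2 * a + b) (a + 1) := by
    have := Ideal.add_mem _ (Ideal.sub_mem _ h (Ideal.mul_mem_left _ (genSym 3 1 1) hxx))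
      (Ideal.mul_mem_left _ (genSym 3 0 0) hyy)
    convert this using 1
    rw [map_sub, map_mul, map_mul, eval_C, eval_C]
    ring
  have h2 := semantic ((hg.C_mul _).sub (hg'.C_mul _)) h1
  rw [map_sub, map_mul, map_mul, piT_C, piT_C, pi0_gen, pi0_gen] at h2
  have h3 : C (X 1 * X 1) * piT g ∈ Ideal.span {(C (X 0 * X 0) : QQ)} ⊔ Ideal.span {qq} := by
    have := Ideal.add_mem _ (Ideal.mem_sup_right (S := Ideal.span {(C (X 0 * X 0) : QQ)}) h2)
      (Ideal.mem_sup_left (Ideal.mul_mem_right (piT g') _ (Ideal.mem_span_singleton_self _)))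
    simpa using this
  obtain ⟨u, hu, v, hv, huv⟩ := Submodule.mem_sup.mp (reg_v1 _ h3)
  obtain ⟨k, rfl⟩ := Ideal.mem_span_singleton.mp hu
  obtain ⟨h', rfl⟩ := Ideal.mem_span_singleton.mp hv
  obtain ⟨g'', hg''⟩ := LL_flag.sft (g := g) (h := h') (k := k) (y := genSym 3 0 0)
    (by rw [pi0_gen, ← huv, add_comm])
  have h4 := hg'' a b
  rw [map_sub, map_mul, Theta_C, Polynomial.coeff_sub, Polynomial.coeff_C_mul, Theta_hom hg] at h4
  refine ⟨d3 ^ a * (Theta g'').coeff b, mem_Kge (by omega) (Theta_coeff g'' b), ?_⟩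
  convert Ideal.add_mem _ hxx h4 using 1
  ring

lemma gen_mem_pt {n : ℕ} (i j : Fin n) : genSym n i j ∈ pt (0 : Idx n → ℂ) := by
  simp [mem_pt, genSym]

section
variable {k : ℕ} (D : DT (SymRing 3) (pt 0) k)

lemma step_depth (e a i : ℕ) (hi : k < i + 2) : D.W i (SQ (Kge e a) (Kge e (a + 1))) := by
  by_cases h : e < 2 * a
  · refine D.kill D.one (sq_kill fun x hx => ?_) i
    rw [one_smul, Kge_succ (by omega)]
    rwa [Kge_succ h] at hx
  · obtain ⟨b, rfl⟩ : ∃ b, e = 2 * a + b := ⟨e - 2 * a, by omega⟩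
    exact D.depth_two (gen_mem_pt 0 0) (gen_mem_pt 1 1) (fun x hx h => step_reg1 hx h)
      (fun x hx y hy h => step_reg2 hx hy h) i hi

lemma gr_depth (e i : ℕ) (hi : k < i + 2) (a : ℕ) : D.W i (SQ (Kge e 0) (Kge e a)) := by
  induction a with
  | zero => exact D.kill D.one (sq_kill fun x hx => by rwa [one_smul]) i
  | succ a ih =>
    obtain ⟨f, g, h⟩ := sq_ses3 (K₁ := Kge e 0) (K₂ := Kge e a) (K₃ := Kge e (a + 1))
      (Kge_mono (by omega)) (Kge_mono (by omega))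
    exact D.mid h ih (step_depth D e a i hi)

lemma J_depth (i : ℕ) (hi : k < i + 2) (e : ℕ) : D.W i (SymRing 3 ⧸ Kge e 0) := by
  induction e with
  | zero =>
    refine D.kill D.one (fun x => ?_) i
    obtain ⟨x, rfl⟩ := Ideal.Quotient.mk_surjective x
    rw [one_smul, Ideal.Quotient.eq_zero_iff_mem]
    simpa using mem_Kge (e := 0) (a := 0) (a' := 0) (b' := 0) (x := x) (by omega) (by simp)
  | succ e ih =>
    obtain ⟨f, g, h⟩ := sq_ses_top (K₂ := Kge e 0) (K₃ := Kge (e + 1) 0) (Kge_mono (by omega))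
    refine D.mid h ih ?_
    rw [← Kge_succ (a := e + 1) (by omega)]
    exact gr_depth D e i hi _

end

lemma minor_two_le {R : Type} [CommRing R] {n : ℕ} (M : Matrix (Fin n) (Fin n) R) {J : Ideal R}
    (h : ∀ i j, M i j ∈ J) : minorIdeal 2 M ≤ J ^ 2 := by
  refine minorIdeal_le fun r c => ?_
  rw [Matrix.det_fin_two, pow_two]
  exact Ideal.sub_mem _ (Ideal.mul_mem_mul (h _ _) (h _ _)) (Ideal.mul_mem_mul (h _ _) (h _ _))

lemma pt_mul_d3 {z : SymRing 3} (hz : z ∈ pt (0 : Idx 3 → ℂ)) : z * d3 ∈ I3 ^ 2 := by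
  have : pt (0 : Idx 3 → ℂ) ≤ (I3 ^ 2).colon {d3} := by
    refine pt_le _ _ fun s => ?_
    rw [Submodule.mem_colon_singleton, smul_eq_mul, Pi.zero_apply, map_zero, sub_zero, ← genSym_idx,
      mul_comm, ← adjadj]
    refine minor_two_le _ (adj_mem (genSym 3)) ?_
    rw [minorIdeal_eq_adj]
    exact adj_mem _ _ _
  have h2 := this hz
  rwa [Submodule.mem_colon_singleton, smul_eq_mul] at h2

lemma pt_pow_mul_J {z : SymRing 3} (hz : z ∈ pt (0 : Idx 3 → ℂ)) (e : ℕ) {x : SymRing 3}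
    (hx : x ∈ Kge e 0) : z ^ e * x ∈ I3 ^ e := by
  have : Kge e 0 ≤ (I3 ^ e).colon {z ^ e} := by
    refine Kge_le fun a b h y hy => ?_
    rw [Submodule.mem_colon_singleton, smul_eq_mul]
    have h1 : ∀ m, (z * d3) ^ m ∈ I3 ^ (2 * m) := fun m => by
      rw [pow_mul]
      exact Ideal.pow_mem_pow (pt_mul_d3 hz) m
    rcases le_total a e with h2 | h2
    · obtain ⟨c, rfl⟩ := Nat.exists_eq_add_of_le h2
      have h3 : (z * d3) ^ a * y ∈ I3 ^ (2 * a + b) := pow_add I3 _ _ ▸ Ideal.mul_mem_mul (h1 a) hy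
      have h4 := Ideal.mul_mem_left _ (z ^ c) (Ideal.pow_le_pow_right (m := a + c) (by omega) h3)
      convert h4 using 1
      ring
    · obtain ⟨c, rfl⟩ := Nat.exists_eq_add_of_le h2
      have h4 := Ideal.mul_mem_left _ (d3 ^ c * y)
        (Ideal.pow_le_pow_right (m := e) (by omega) (h1 e))
      convert h4 using 1
      ring
  have h2 := this hx
  rwa [Submodule.mem_colon_singleton, smul_eq_mul, mul_comm] at h2

lemma pow_le_J (e : ℕ) : I3 ^ e ≤ Kge e 0 := fun x hx => by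
  simpa using mem_Kge (e := e) (a := 0) (a' := 0) (b' := e) (by omega) hx

lemma vero_power {k : ℕ} (D : DT (SymRing 3) (pt 0) k) {i : ℕ} (h1 : i < k) (h2 : k < i + 2)
    (e : ℕ) : D.W i (SymRing 3 ⧸ I3 ^ e) := by
  obtain ⟨f, g, h⟩ := sq_ses_top (pow_le_J e)
  refine D.mid h (J_depth D i h2 e) (D.small _ (fun z hz => ⟨e, sq_kill fun x hx => ?_⟩) i h1)
  exact pt_pow_mul_J hz e hx

/-- The ideal of `3 × 3` minors of the generic symmetric `4 × 4` matrix. -/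
noncomputable abbrev I4 : Ideal (SymRing 4) := minorIdeal 3 (genSym 4)

/-- The depth theory at the standard rank one point. -/
noncomputable def D1 : DT (SymRing 4) ((pt (0 : Idx 3 → ℂ)).comap rho1) 10 :=
  pt_blk_zero ▸ ptDT (ptOf (blk 0)) card_idx4

lemma D1_W (i : ℕ) (M : Type) [AddCommGroup M] [Module (SymRing 4) M] :
    D1.W i M ↔ V (pt (ptOf (blk 0))) i M := by
  have key : ∀ (n : Ideal (SymRing 4)) (h : pt (ptOf (blk 0)) = n),
      (h ▸ ptDT (ptOf (blk 0)) card_idx4 : DT (SymRing 4) n 10).W i M ↔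
        V (pt (ptOf (blk 0))) i M := by
    intro n h
    subst h
    rfl
  exact key _ pt_blk_zero

/-- The induced depth theory on the slice. -/
noncomputable def D1' : DT (SymRing 3) (pt 0) 10 := D1.res rho1 rho1_surj

lemma D1'_quot (J : Ideal (SymRing 4)) (i : ℕ) (h : D1'.W i (SymRing 3 ⧸ J.map rho1)) :
    V (pt (ptOf (blk 0))) i (SymRing 4 ⧸ addL J zs4) := by
  rw [← rho1_comap_map, ← D1_W]
  exact D1.equiv (Res.quotEquiv rho1 rho1_surj _) h

lemma V5_rank_one (e : ℕ) : V (pt (ptOf (blk 0))) 5 (SymRing 4 ⧸ I4 ^ e) := by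
  refine V_uncut zs4 _ 5 (regSeq4 ((glStab_minor 3).pow e)) zs4_mem_blk (D1'_quot _ _ ?_)
  rw [Ideal.map_pow, rho1_minor]
  exact vero_power D1' (by decide) (by decide) e

lemma V5_rank_two {J : Ideal (SymRing 4)} (hJ : GLStab J) (a b : ℂ) :
    V (pt (ptOf (Matrix.diagonal ![1, 1, a, b]))) 5 (SymRing 4 ⧸ J) :=
  V_uncut zs6 _ 5 (regSeq6 hJ) (zs6_mem_diag a b)
    ((ptDT _ card_idx4).big _ _ (by decide))

lemma V5_point (e : ℕ) (c : Idx 4 → ℂ) (hc : c ≠ 0) : V (pt c) 5 (SymRing 4 ⧸ I4 ^ e) := by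
  rw [← ptOf_matOf c]
  rcases point_cases c hc with h | ⟨a, b, h⟩
  · exact V_cong_quot (matOf_symm c) h ((glStab_minor 3).pow e) (V5_rank_one e)
  · exact V_cong_quot (matOf_symm c) h ((glStab_minor 3).pow e)
      (V5_rank_two ((glStab_minor 3).pow e) a b)

lemma pt_isMaximal {σ : Type} (c : σ → ℂ) : (pt c).IsMaximal :=
  RingHom.ker_isMaximal_of_surjective _ fun x => ⟨C x, by simp⟩

theorem partA (e : ℕ) :
    Module.length (SymRing 4) (EE (SymRing 4) (SymRing 4 ⧸ I4 ^ e) (SymRing 4) 5) ≠ ⊤ :=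
  length_ne_top_of_pow_kill (pt_isMaximal 0) _ (pow_kill_of_points 0 (V5_point e))

end Pool.Agent.Lib.MP_8277d7_ag
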