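import Pool.Agent.Lib.MP_8277d7_ag.PartB3

/-! Non-vanishing of `Ext^5(S/I^2, S)`. -/

open MvPolynomial Matrix CategoryTheory Abelian

namespace Pool.Agent.Lib.MP_8277d7_ag

lemma pb1 (h : V m4 5 (SymRing 4 ⧸ I4 ^ 2)) : V m4 5 (SQ I4 (I4 ^ 2)) := by
  obtain ⟨f, g, hs⟩ := sq_ses_top (K₂ := I4) (K₃ := I4 ^ 2) (Ideal.pow_le_self (by decide))
  exact V_left hs h V6_quot

lemma pb2 (h : V m4 5 (SQ I4 (I4 ^ 2))) :
    V m4 5 (Matrix (Fin 4) (Fin 4) (SymRing 4) ⧸ Submodule.comap pi2 (I4 ^ 2)) := by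
  obtain ⟨e1⟩ := comap_equiv pi2 I4 (I4 ^ 2) pi2_mem (fun _ ha => pi2_surj ha)
  exact V_equiv e1 h

lemma pb3 (h : V m4 5 (Matrix (Fin 4) (Fin 4) (SymRing 4) ⧸ Submodule.comap pi2 (I4 ^ 2))) :
    V m4 5 (Matrix (Fin 4) (Fin 4) (SymRing 4) ⧸ Submodule.comap pi1 (LinearMap.range Phi)) := by
  refine V5_compare (fun s hs => ?_) (fun s hs => ⟨1, fun c hc => ?_⟩) h
  · obtain ⟨N, hN⟩ := del_K1 hs
    refine ⟨N, fun c hc => ?_⟩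
    rw [Submodule.mem_comap] at hc ⊢
    exact hN c hc
  · rw [Submodule.mem_comap] at hc ⊢
    rw [pow_one]
    exact del_K2 hs hc

lemma pb4
    (h : V m4 5 (Matrix (Fin 4) (Fin 4) (SymRing 4) ⧸ Submodule.comap pi1 (LinearMap.range Phi))) :
    V m4 5 (SQ SymA (LinearMap.range Phi)) := by
  obtain ⟨e2⟩ := comap_equiv pi1 SymA (LinearMap.range Phi) pi1_mem (fun _ ha => pi1_surj ha)
  exact V_equiv e2.symm h

theorem partB : ¬ V m4 5 (SymRing 4 ⧸ I4 ^ 2) := fun h => not_V5_G (pb4 (pb3 (pb2 (pb1 h))))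

end Pool.Agent.Lib.MP_8277d7_ag
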