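import Pool.Agent.Lib.MP_8277d7_ag.PartA

/-! Infinite length of `Ext^5(I^2/I^3, S)`. -/

open MvPolynomial

namespace Pool.Agent.Lib.MP_8277d7_ag

/-- Principal `2 × 2` minors. -/
noncomputable def Del (s : Idx 4) : SymRing 4 :=
  genSym 4 s.1.1 s.1.1 * genSym 4 s.1.2 s.1.2 - X s ^ 2

/-- The off-diagonal indices. -/
def offL : List (Idx 4) :=
  [⟨(0, 1), by decide⟩, ⟨(0, 2), by decide⟩, ⟨(0, 3), by decide⟩, ⟨(1, 2), by decide⟩,
    ⟨(1, 3), by decide⟩, ⟨(2, 3), by decide⟩]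

lemma offL_ne {s : Idx 4} (hs : s ∈ offL) : s.1.1 ≠ s.1.2 := by
  revert s
  decide

lemma psiVar_diag {s : Idx 4} (hs : s ∈ offL) (i : Fin 4) :
    psiVar s (genSym 4 i i) = Polynomial.C (genSym 4 i i) := by
  refine psiVar_ne ?_
  rintro rfl
  exact offL_ne hs (by simp)

lemma del_reg : RegSeq ⊥ (offL.map Del) := by
  refine regSeq_of_free _ _ (by decide) (fun s hs => ⟨2, ?_⟩) (fun s hs s' _ h => ?_) ⊥
    fun _ _ => Stab.bot _
  · simp only [Del, map_sub, map_mul, map_pow, psiVar_diag hs, psiVar_self]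
    simp [← Polynomial.C_mul, -map_mul]
  · simp only [Del, map_sub, map_mul, map_pow, psiVar_diag hs, psiVar_ne h.symm]

lemma V_del {n : Ideal (SymRing 4)} [n.IsPrime] {M : Type} [AddCommGroup M] [Module (SymRing 4) M]
    (hM : ∀ s ∈ offL, ∃ N : ℕ, ∀ x : M, Del s ^ N • x = 0) {i : ℕ} (hi : i < 6) : V n i M := by
  refine V_grade _ del_reg (fun z hz => ?_) (by simpa [offL] using hi)
  obtain ⟨s, hs, rfl⟩ := List.mem_map.mp hz
  exact hM s hs

lemma jacobi {R : Type} [CommRing R] (M : Matrix (Fin 4) (Fin 4) R) (p q r s : Fin 4)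
    (h : (p, q, r, s) ∈ [((0 : Fin 4), (1 : Fin 4), (2 : Fin 4), (3 : Fin 4)),
      (0, 2, 1, 3), (0, 3, 1, 2), (1, 2, 0, 3), (1, 3, 0, 2), (2, 3, 0, 1)]) :
    (M p p * M q q - M p q * M q p) * M.det ∈ adjIdeal M ^ 2 := by
  have e : (M p p * M q q - M p q * M q p) * M.det =
      M.adjugate r r * M.adjugate s s - M.adjugate r s * M.adjugate s r := by
    simp only [List.mem_cons, Prod.mk.injEq, List.not_mem_nil, or_false] at h
    rcases h with ⟨rfl, rfl, rfl, rfl⟩ | ⟨rfl, rfl, rfl, rfl⟩ | ⟨rfl, rfl, rfl, rfl⟩ |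
      ⟨rfl, rfl, rfl, rfl⟩ | ⟨rfl, rfl, rfl, rfl⟩ | ⟨rfl, rfl, rfl, rfl⟩ <;>
    simp [Matrix.adjugate_fin_succ_eq_det_submatrix, Matrix.det_succ_row_zero, Fin.sum_univ_succ,
      Fin.succAbove] <;> ring
  rw [e, pow_two]
  exact Ideal.sub_mem _ (Ideal.mul_mem_mul (adj_mem _ _ _) (adj_mem _ _ _))
    (Ideal.mul_mem_mul (adj_mem _ _ _) (adj_mem _ _ _))

lemma offL_compl {s : Idx 4} (hs : s ∈ offL) : ∃ r t : Fin 4,
    (s.1.1, s.1.2, r, t) ∈ [((0 : Fin 4), (1 : Fin 4), (2 : Fin 4), (3 : Fin 4)),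
      (0, 2, 1, 3), (0, 3, 1, 2), (1, 2, 0, 3), (1, 3, 0, 2), (2, 3, 0, 1)] := by
  revert s
  decide

/-- The determinant of the generic symmetric `4 × 4` matrix. -/
noncomputable abbrev d4 : SymRing 4 := (genSym 4).det

lemma Del_mul_d4 {s : Idx 4} (hs : s ∈ offL) : Del s * d4 ∈ I4 ^ 2 := by
  obtain ⟨r, t, h⟩ := offL_compl hs
  have := jacobi (genSym 4) _ _ r t h
  rw [← minorIdeal_eq_adj, genSym_comm s.1.2 s.1.1, genSym_idx, ← pow_two] at this
  exact this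

lemma d3_not_mem {r : SymRing 3} (h : r * d3 ∈ I3 ^ 2 ⊔ Ideal.span {d3} * I3) :
    r ∈ pt (0 : Idx 3 → ℂ) := by
  let s : Polynomial ℂ := Polynomial.X
  let M : Matrix (Fin 3) (Fin 3) (Polynomial ℂ) := Matrix.diagonal fun _ => s
  let Ψ : SymRing 3 →+* Polynomial ℂ := sub M
  have hM : (genSym 3).map Ψ = M := gen_map_sub (Matrix.isSymm_diagonal _)
  have hd : Ψ d3 = s ^ 3 := by
    rw [RingHom.map_det, RingHom.mapMatrix_apply, hM]
    simp [M]
  have hI : I3.map Ψ ≤ Ideal.span {s ^ 2} := by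
    rw [I3, ← minorIdeal_eq_adj, minorIdeal_map, hM, ← Ideal.span_singleton_pow]
    refine minor_two_le _ fun i j => ?_
    simp only [M, Matrix.diagonal_apply]
    split_ifs
    · exact Ideal.mem_span_singleton_self _
    · exact Ideal.zero_mem _
  have hJ : (I3 ^ 2 ⊔ Ideal.span {d3} * I3).map Ψ ≤ Ideal.span {s ^ 4} := by
    rw [Ideal.map_sup, Ideal.map_pow, Ideal.map_mul, Ideal.map_span, Set.image_singleton, hd]
    refine sup_le ((Ideal.pow_right_mono hI 2).trans ?_) ((Ideal.mul_mono_right hI).trans ?_)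
    · rw [Ideal.span_singleton_pow, ← pow_mul]
    · rw [Ideal.span_singleton_mul_span_singleton, ← pow_add,
        Ideal.span_singleton_le_span_singleton]
      exact pow_dvd_pow _ (by norm_num)
  have h1 := hJ (Ideal.mem_map_of_mem _ h)
  rw [map_mul, hd, Ideal.mem_span_singleton] at h1
  have h2 : s ∣ Ψ r := by
    have hs : s ^ 3 ≠ 0 := pow_ne_zero _ Polynomial.X_ne_zero
    rwa [← mul_dvd_mul_iff_right hs, ← pow_succ']
  rw [Polynomial.X_dvd_iff, Polynomial.coeff_zero_eq_eval_zero] at h2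
  have h3 : (Polynomial.evalRingHom 0).comp Ψ = eval (0 : Idx 3 → ℂ) := by
    apply symRing_ext
    · intro c
      simp [Ψ, sub_C]
    · intro i j
      rw [RingHom.comp_apply, sub_gen (Matrix.isSymm_diagonal _), mem_pt.mp (gen_mem_pt i j)]
      simp only [Matrix.diagonal_apply]
      split_ifs <;> simp [s]
  rw [mem_pt, ← h3]
  exact h2

lemma J3_eq : I3 ^ 3 ⊔ Ideal.span {d3} * I3 = Kge 3 0 := by
  apply le_antisymm
  · refine sup_le (pow_le_J 3) ?_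
    simpa using le_Kge (e := 3) (a := 0) (a' := 1) (b' := 1) (by omega)
  · refine Kge_le fun a b h x hx => ?_
    have hd : d3 ∈ I3 := det_mem_adjIdeal _
    match a with
    | 0 => exact Ideal.mem_sup_left (by simpa using Ideal.pow_le_pow_right (by omega) hx)
    | 1 =>
      refine Ideal.mem_sup_right (Ideal.mul_mem_mul (by simp) ?_)
      simpa using Ideal.pow_le_pow_right (m := 1) (by omega) hx
    | a + 2 =>
      have : d3 ^ (a + 2) * x = d3 * (d3 * (d3 ^ a * x)) := by ring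
      rw [this]
      exact Ideal.mem_sup_right (Ideal.mul_mem_mul (Ideal.mem_span_singleton_self _)
        (Ideal.mul_mem_right _ _ hd))

lemma slice_sub {k : ℕ} (D : DT (SymRing 3) (pt 0) k) {K : Ideal (SymRing 3)} (hK : Kge 3 0 ≤ K)
    {i : ℕ} (hi : k ≤ i) : D.W i (SQ K (Kge 3 0)) := by
  obtain ⟨f, g, h⟩ := sq_ses_top hK
  exact D.left h (J_depth D i (by omega) 3) (D.big _ _ (by omega))

lemma slice_not {k : ℕ} (D : DT (SymRing 3) (pt 0) (k + 1)) :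
    ¬ D.W k (SQ (I3 ^ 2 ⊔ Ideal.span {d3} * I3) (Kge 3 0)) := by
  intro h
  have hle : Kge 3 0 ≤ I3 ^ 2 ⊔ Ideal.span {d3} * I3 := by
    rw [← J3_eq]
    exact sup_le_sup_right (Ideal.pow_le_pow_right (by omega)) _
  obtain ⟨f, g, hs⟩ := sq_ses3 (K₁ := (I3 ^ 2 ⊔ Ideal.span {d3} * I3) ⊔ Ideal.span {d3})
    le_sup_left hle
  have h1 := D.right hs h (slice_sub D (hle.trans le_sup_left) le_rfl)
  refine D.top (D.equiv (quotEquiv _ _ ((LinearMap.toSpanSingleton _ _ d3).codRestrict _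
    fun r => Ideal.mem_sup_right (Ideal.mul_mem_left _ _ (Ideal.mem_span_singleton_self _)))
    (fun r => ⟨fun hr => Ideal.mem_sup_left (pt_mul_d3 hr), fun hr => d3_not_mem hr⟩)
    fun z => ?_) h1)
  obtain ⟨y, hy⟩ := mem_sup_span_singleton.mp z.2
  exact ⟨y, by rw [mul_comm d3 y] at hy; exact hy⟩

lemma D1'_sq (J₁ J₂ : Ideal (SymRing 4)) (i : ℕ) :
    D1'.W i (SQ (J₁.map rho1) (J₂.map rho1)) ↔
      V (pt (ptOf (blk 0))) i (SQ (addL J₁ zs4) (addL J₂ zs4)) := by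
  rw [← rho1_comap_map, ← rho1_comap_map, ← D1_W]
  exact ⟨D1.equiv (Res.sqEquiv rho1 rho1_surj _ _), D1.equiv (Res.sqEquiv rho1 rho1_surj _ _).symm⟩

lemma not_V5_C : ¬ V (pt (ptOf (blk 0))) 5 (SQ (I4 ^ 2) (I4 ^ 3)) := by
  intro h
  let J₁ := I4 ^ 2 ⊔ Ideal.span {d4} * I4
  let J₂ := I4 ^ 3 ⊔ Ideal.span {d4} * I4
  have hle : J₂ ≤ J₁ := sup_le_sup_right (Ideal.pow_le_pow_right (by omega)) _
  have g₁ : GLStab J₁ := ((glStab_minor 3).pow 2).sup (glStab_det.mul (glStab_minor 3))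
  have g₂ : GLStab J₂ := ((glStab_minor 3).pow 3).sup (glStab_det.mul (glStab_minor 3))
  have m₁ : J₁.map rho1 = I3 ^ 2 ⊔ Ideal.span {d3} * I3 := by
    rw [Ideal.map_sup, Ideal.map_pow, Ideal.map_mul, Ideal.map_span, Set.image_singleton,
      rho1_minor, rho1_det]
  have m₂ : J₂.map rho1 = Kge 3 0 := by
    rw [Ideal.map_sup, Ideal.map_pow, Ideal.map_mul, Ideal.map_span, Set.image_singleton,
      rho1_minor, rho1_det, J3_eq]
  obtain ⟨f, g, hs⟩ := sq_ses3 (K₁ := I4 ^ 2) (K₂ := I4 ^ 2 ⊓ J₂) (K₃ := I4 ^ 3) inf_le_left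
    (le_inf (Ideal.pow_le_pow_right (by omega)) le_sup_left)
  have h1 : V (pt (ptOf (blk 0))) 4 (SQ (I4 ^ 2 ⊓ J₂) (I4 ^ 3)) := by
    refine V_del (fun s hs => ⟨1, sq_kill fun x hx => ?_⟩) (by decide)
    obtain ⟨a, ha, b, hb, rfl⟩ := Submodule.mem_sup.mp hx.2
    obtain ⟨c, hc, rfl⟩ := Ideal.mem_span_singleton_mul.mp hb
    rw [pow_one, smul_eq_mul, mul_add, ← mul_assoc, pow_succ I4 2]
    exact Ideal.add_mem _ (Ideal.mul_mem_left _ _ (pow_succ I4 2 ▸ ha))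
      (Ideal.mul_mem_mul (Del_mul_d4 hs) hc)
  have h2 := V_right hs h1 h
  have h3 : V (pt (ptOf (blk 0))) 5 (SQ J₁ J₂) := by
    refine V_equiv (quotEquiv (Submodule.comap (I4 ^ 2).subtype (I4 ^ 2 ⊓ J₂))
      (Submodule.comap J₁.subtype J₂) (Submodule.inclusion le_sup_left)
      (fun x => ⟨fun hx => hx.2, fun hx => ⟨x.2, hx⟩⟩) fun z => ?_).symm h2
    obtain ⟨a, ha, b, hb, hab⟩ := Submodule.mem_sup.mp z.2
    refine ⟨⟨a, ha⟩, ?_⟩
    have : (z : SymRing 4) - a = b := by rw [← hab]; ring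
    rw [← this] at hb
    exact Ideal.mem_sup_right hb
  let D := ptDT (ptOf (blk 0)) card_idx4
  have h4 : ∀ i, 5 ≤ i → D.W i (SQ J₁ J₂) := by
    intro i hi
    rcases hi.eq_or_lt with rfl | hi
    · exact h3
    · refine D.uncut_pair zs4 _ _ i hle (regSeq4 g₁) (regSeq4 g₂) zs4_mem_blk
        ((D1'_sq _ _ _).mp ?_)
      rw [m₂]
      refine slice_sub D1' (m₂ ▸ Ideal.map_mono hle) ?_
      simp [zs4]
      omega
  have h5 := (D1'_sq _ _ _).mpr
    (D.cutfwd_pair zs4 _ _ 5 hle (regSeq4 g₁) (regSeq4 g₂) h4 9 (by simp [zs4]))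
  rw [m₁, m₂] at h5
  exact slice_not (k := 9) D1' h5

theorem partC :
    Module.length (SymRing 4) (EE (SymRing 4) (SQ (I4 ^ 2) (I4 ^ 3)) (SymRing 4) 5) = ⊤ := by
  by_contra h
  let s : ℕ → Fin 4 → ℂ := fun k => ![(k : ℂ) + 1, 1, 1, 1]
  let N : ℕ → Matrix (Fin 4) (Fin 4) ℂ := fun k =>
    Matrix.diagonal fun i => s k i * ![1, 0, 0, 0] i * s k i
  have hz : ∀ j k : ℕ, genSym 4 0 0 - C (((j : ℂ) + 1) ^ 2) ∈ pt (ptOf (N k)) ↔ j = k := by
    intro j k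
    rw [mem_pt, eval_ptOf, map_sub, sub_gen (Matrix.isSymm_diagonal _), sub_C, sub_eq_zero]
    simp only [Matrix.diagonal_apply_eq, s, Matrix.cons_val_zero, mul_one, Algebra.algebraMap_self,
      RingHom.id_apply]
    constructor
    · intro h
      have h1 : ((k + 1) * (k + 1) : ℕ) = (j + 1) ^ 2 := by exact_mod_cast h
      nlinarith
    · rintro rfl
      ring
  obtain ⟨k, hk⟩ := exists_kill_of_length_ne_top _ h
    (fun j => genSym 4 0 0 - C (((j : ℂ) + 1) ^ 2)) (fun k => pt (ptOf (N k)))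
    (fun _ => inferInstance) (fun k => (hz k k).mpr rfl) (fun j k hjk h => hjk.ne ((hz j k).mp h))
  refine not_V5_C (V_cong (blk_symm Matrix.isSymm_zero) (N := N k) ?_ ((glStab_minor 3).pow 2)
    ((glStab_minor 3).pow 3) hk)
  rw [blk_zero_eq]
  refine cong_scale _ _ fun i => ?_
  fin_cases i
  · exact Nat.cast_add_one_ne_zero k
  · simp [s]
  · simp [s]
  · simp [s]

end Pool.Agent.Lib.MP_8277d7_ag
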