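import Pool.Agent.Lib.MP_8277d7_ag.LC3
import Pool.Agent.Lib.MP_8277d7_ag.LC4
import Pool.Agent.Lib.MP_8277d7_ag.PartA
import Pool.Agent.Lib.MP_8277d7_ag.PartB4
import Pool.Agent.Lib.MP_8277d7_ag.PartC

/-! The three facts about `H^5_𝔪`, for Mathlib's local cohomology functor. -/

open MvPolynomial Matrix CategoryTheory Abelian

namespace Pool.Agent.Lib.MP_8277d7_ag

lemma regMax4 : RegMax m4 9 :=
  ⟨pt_isMaximal 0, ptList 0, ptList_reg 0, ptList_span 0, (ptList_length 0).trans card_idx4⟩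

lemma span_X_eq : Ideal.span (Set.range (X : Idx 4 → SymRing 4)) = m4 := by
  apply le_antisymm
  · rw [Ideal.span_le]
    rintro _ ⟨s, rfl⟩
    exact mem_pt.mpr (eval_X s)
  · exact pt_le 0 _ fun s => by simpa using Ideal.subset_span (Set.mem_range_self s)

lemma lc_length (A : Type) [AddCommGroup A] [Module (SymRing 4) A] :
    Module.length (SymRing 4) ((localCohomology m4 5).obj (ModuleCat.of (SymRing 4) A)) =
      Module.length (SymRing 4) (LCoh m4 5 A) := by
  obtain ⟨e⟩ := lc_equiv m4 4 A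
  exact e.length_eq

lemma partA' (e : ℕ) : Module.length (SymRing 4) (LCoh m4 5 (SymRing 4 ⧸ I4 ^ e)) ≠ ⊤ :=
  regMax4.length_ne_top (i := 5) rfl (pow_kill_of_points 0 (V5_point e))

lemma partB' : Module.length (SymRing 4) (LCoh m4 5 (SymRing 4 ⧸ I4 ^ 2)) ≠ 0 := by
  intro h
  have h0 := Module.length_eq_zero_iff.mp h
  obtain ⟨u, hu, hu'⟩ := regMax4.kill_of_kill (i := 5) (j := 5) (t := 0) (A := SymRing 4 ⧸ I4 ^ 2)
    rfl fun _ _ _ => Subsingleton.elim _ _
  refine partB ⟨u * 1, fun h1 => regMax4.max.ne_top ((Ideal.eq_top_iff_one _).mpr ?_),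
    hu' 1 (by simp)⟩
  simpa using Ideal.sub_mem _ h1 hu

lemma partC' : Module.length (SymRing 4) (LCoh m4 5 (SQ (I4 ^ 2) (I4 ^ 3))) = ⊤ := by
  by_contra h
  obtain ⟨t, u, hu, hu'⟩ := regMax4.kill_of_length (i := 5) (j := 5) rfl h
  let c : Idx 4 → ℂ := ptOf (diagonal ![1, 0, 0, 0])
  let φ : SymRing 4 →+* Polynomial ℂ :=
    eval₂Hom Polynomial.C fun i => Polynomial.C (c i) * Polynomial.X ^ 2
  have hφ : ∀ s : ℂ, (φ u).eval s = eval (fun i => c i * s ^ 2) u := by
    intro s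
    have : (Polynomial.evalRingHom s).comp φ = eval (fun i => c i * s ^ 2) :=
      MvPolynomial.ringHom_ext (fun a => by simp [φ]) fun i => by simp [φ]
    exact RingHom.congr_fun this u
  have h1 : (φ u).eval 0 = 1 := by
    have := mem_pt.mp hu
    rw [map_sub, map_one, sub_eq_zero] at this
    rw [hφ, ← this]
    congr 2
    ext i
    simp
  obtain ⟨s, hs⟩ : ∃ s : ℂ, (Polynomial.X * φ u).eval s ≠ 0 := by
    by_contra hc
    push Not at hc
    rcases mul_eq_zero.mp (Polynomial.zero_of_eval_zero _ hc) with h2 | h2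
    · exact Polynomial.X_ne_zero h2
    · simp [h2] at h1
  rw [Polynomial.eval_mul, Polynomial.eval_X, mul_ne_zero_iff, hφ] at hs
  let sv : Fin 4 → ℂ := ![s, 1, 1, 1]
  let N : Matrix (Fin 4) (Fin 4) ℂ := diagonal fun i => sv i * ![1, 0, 0, 0] i * sv i
  have hN : ptOf N = fun i => c i * s ^ 2 := by
    funext ⟨⟨i, j⟩, hij⟩
    simp only [ptOf, N, c, diagonal_apply]
    split_ifs
    · fin_cases i <;> simp [sv, sq]
    · simp
  let i0 : Idx 4 := ⟨(0, 0), le_rfl⟩
  refine not_V5_C (V_cong (blk_symm Matrix.isSymm_zero) (N := N) ?_ ((glStab_minor 3).pow 2)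
    ((glStab_minor 3).pow 3) ⟨u * X i0 ^ t, ?_,
      hu' _ (Ideal.pow_mem_pow (mem_pt.mpr (eval_X i0)) t)⟩)
  · rw [blk_zero_eq]
    refine cong_scale _ _ fun i => ?_
    fin_cases i
    · exact hs.1
    · simp [sv]
    · simp [sv]
    · simp [sv]
  · rw [mem_pt, hN, map_mul, map_pow, eval_X]
    refine mul_ne_zero hs.2 (pow_ne_zero _ ?_)
    simpa [c, ptOf, i0] using hs.1

end Pool.Agent.Lib.MP_8277d7_ag
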