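import Pool.Agent.Lib.MP_8277d7_ag.Depth
import Pool.Agent.Lib.MP_8277d7_ag.PartC

/-! The prime of rank two matrices and the first order deformation identities. -/

open MvPolynomial Matrix

namespace Pool.Agent.Lib.MP_8277d7_ag

section
variable {A : Type} [CommRing A]

/-- The Hodge dual of `u ∧ w`. -/
def hatM (u w : Fin 4 → A) : Matrix (Fin 4) (Fin 4) A :=
  !![0, u 2 * w 3 - u 3 * w 2, -(u 1 * w 3 - u 3 * w 1), u 1 * w 2 - u 2 * w 1;
    -(u 2 * w 3 - u 3 * w 2), 0, u 0 * w 3 - u 3 * w 0, -(u 0 * w 2 - u 2 * w 0);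
    u 1 * w 3 - u 3 * w 1, -(u 0 * w 3 - u 3 * w 0), 0, u 0 * w 1 - u 1 * w 0;
    -(u 1 * w 2 - u 2 * w 1), u 0 * w 2 - u 2 * w 0, -(u 0 * w 1 - u 1 * w 0), 0]

lemma hatM_transpose (u w : Fin 4 → A) : (hatM u w)ᵀ = -hatM u w := by
  ext i j
  fin_cases i <;> fin_cases j <;> simp [hatM]

lemma hatM_map {B : Type} [CommRing B] (f : A →+* B) (u w : Fin 4 → A) :
    (hatM u w).map f = hatM (f ∘ u) (f ∘ w) := by
  ext i j
  fin_cases i <;> fin_cases j <;> simp [hatM]

lemma adj_rank_three (u w r : Fin 4 → A) (ε : A) (i j : Fin 4) :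
    (of fun i j => u i * w j + u j * w i + ε * (r i * r j)).adjugate i j =
      -ε * ((hatM u w *ᵥ r) i * (hatM u w *ᵥ r) j) := by
  fin_cases i <;> fin_cases j <;>
    simp [adjugate_fin_succ_eq_det_submatrix, det_fin_three, hatM, mulVec, dotProduct,
      Fin.sum_univ_four, Fin.succAbove] <;> ring

lemma proj_identity (u w : Fin 4 → A) (p q r t : Fin 4)
    (h : (p, q, r, t) ∈ [((0 : Fin 4), (1 : Fin 4), (2 : Fin 4), (3 : Fin 4)),
      (0, 2, 1, 3), (0, 3, 1, 2), (1, 2, 0, 3), (1, 3, 0, 2), (2, 3, 0, 1)]) :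
    ∃ β : Matrix (Fin 4) (Fin 4) A, (u p * w q - u q * w p) • (1 : Matrix (Fin 4) (Fin 4) A) -
      (vecMulVec u (Pi.single p (w q) - Pi.single q (w p)) +
        vecMulVec w (Pi.single q (u p) - Pi.single p (u q))) = β * hatM u w := by
  simp only [List.mem_cons, Prod.mk.injEq, List.not_mem_nil, or_false] at h
  rcases h with ⟨rfl, rfl, rfl, rfl⟩ | ⟨rfl, rfl, rfl, rfl⟩ | ⟨rfl, rfl, rfl, rfl⟩ |
    ⟨rfl, rfl, rfl, rfl⟩ | ⟨rfl, rfl, rfl, rfl⟩ | ⟨rfl, rfl, rfl, rfl⟩
  · refine ⟨!![0, 0, 0, 0; 0, 0, 0, 0; 0, 0, 0, -1; 0, 0, 1, 0], ?_⟩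
    ext i j
    fin_cases i <;> fin_cases j <;> simp [hatM, mul_apply, Fin.sum_univ_four, vecMulVec_apply] <;>
      ring
  · refine ⟨!![0, 0, 0, 0; 0, 0, 0, 1; 0, 0, 0, 0; 0, -1, 0, 0], ?_⟩
    ext i j
    fin_cases i <;> fin_cases j <;> simp [hatM, mul_apply, Fin.sum_univ_four, vecMulVec_apply] <;>
      ring
  · refine ⟨!![0, 0, 0, 0; 0, 0, -1, 0; 0, 1, 0, 0; 0, 0, 0, 0], ?_⟩
    ext i j
    fin_cases i <;> fin_cases j <;> simp [hatM, mul_apply, Fin.sum_univ_four, vecMulVec_apply] <;>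
      ring
  · refine ⟨!![0, 0, 0, -1; 0, 0, 0, 0; 0, 0, 0, 0; 1, 0, 0, 0], ?_⟩
    ext i j
    fin_cases i <;> fin_cases j <;> simp [hatM, mul_apply, Fin.sum_univ_four, vecMulVec_apply] <;>
      ring
  · refine ⟨!![0, 0, 1, 0; 0, 0, 0, 0; -1, 0, 0, 0; 0, 0, 0, 0], ?_⟩
    ext i j
    fin_cases i <;> fin_cases j <;> simp [hatM, mul_apply, Fin.sum_univ_four, vecMulVec_apply] <;>
      ring
  · refine ⟨!![0, -1, 0, 0; 1, 0, 0, 0; 0, 0, 0, 0; 0, 0, 0, 0], ?_⟩
    ext i j
    fin_cases i <;> fin_cases j <;> simp [hatM, mul_apply, Fin.sum_univ_four, vecMulVec_apply] <;>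
      ring

lemma polarize {n : ℕ} (M : Matrix (Fin n) (Fin n) A) (h : ∀ r : Fin n → A, r ⬝ᵥ M *ᵥ r = 0) :
    M + Mᵀ = 0 := by
  ext k l
  have h1 := h (Pi.single k 1)
  have h2 := h (Pi.single l 1)
  have h3 := h (Pi.single k 1 + Pi.single l 1)
  simp only [mulVec_add, add_dotProduct, dotProduct_add, h1, h2] at h3
  simp only [mulVec_single_one, single_one_dotProduct, col_apply] at h3
  simp only [Matrix.add_apply, transpose_apply, Matrix.zero_apply]
  linear_combination h3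

lemma two_sq_identity {n : ℕ} (a₀ Pm N : Matrix (Fin n) (Fin n) A) (a : A) (ha : a₀ᵀ = a₀)
    (hN : a • (1 : Matrix (Fin n) (Fin n) A) - Pm = N) (h0 : N * a₀ * Nᵀ = 0) :
    (2 * a ^ 2) • a₀ = Pm * (a₀ * ((2 * a) • 1 - Pmᵀ)) + (Pm * (a₀ * ((2 * a) • 1 - Pmᵀ)))ᵀ := by
  rw [← hN] at h0
  simp only [transpose_sub, transpose_smul, transpose_one, transpose_mul, transpose_transpose, ha,
    Matrix.sub_mul, Matrix.mul_sub, Matrix.smul_mul, Matrix.mul_smul, Matrix.one_mul,
    Matrix.mul_one, Matrix.mul_assoc] at h0 ⊢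
  ext i j
  have := congrFun (congrFun h0 i) j
  simp only [Matrix.sub_apply, Matrix.add_apply, Matrix.smul_apply, smul_eq_mul,
    Matrix.zero_apply] at this ⊢
  linear_combination 2 * this

end

/-- The prime ideal of matrices of rank at most two. -/
noncomputable def PP : Ideal (SymRing 4) := RingHom.ker rho

/-- The pairing with the adjugate. -/
noncomputable def pi2 : Matrix (Fin 4) (Fin 4) (SymRing 4) →ₗ[SymRing 4] SymRing 4 where
  toFun c := ∑ i, ∑ j, c i j * (genSym 4).adjugate i j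
  map_add' c d := by simp [add_mul, Finset.sum_add_distrib]
  map_smul' s c := by simp [Finset.mul_sum, mul_assoc]

lemma pi2_apply (c : Matrix (Fin 4) (Fin 4) (SymRing 4)) :
    pi2 c = ∑ i, ∑ j, c i j * (genSym 4).adjugate i j := rfl

lemma adj_mem_I4 (i j : Fin 4) : (genSym 4).adjugate i j ∈ I4 := by
  rw [I4, minorIdeal_eq_adj]
  exact adj_mem _ _ _

lemma pi2_mem (c : Matrix (Fin 4) (Fin 4) (SymRing 4)) : pi2 c ∈ I4 := by
  rw [pi2_apply]
  exact Ideal.sum_mem _ fun i _ => Ideal.sum_mem _ fun j _ => Ideal.mul_mem_left _ _ (adj_mem_I4 i j)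

lemma pi2_surj {x : SymRing 4} (hx : x ∈ I4) : ∃ c, pi2 c = x := by
  have : I4 ≤ LinearMap.range pi2 := by
    rw [I4, minorIdeal_eq_adj, adjIdeal, Ideal.span_le]
    rintro _ ⟨⟨i, j⟩, rfl⟩
    refine ⟨single i j 1, ?_⟩
    simp [pi2_apply, single_apply, ite_and]
  exact this hx

lemma first_order {c : Matrix (Fin 4) (Fin 4) (SymRing 4)} (hc : pi2 c ∈ I4 ^ 2) :
    hatM uu ww * (c + cᵀ).map rho * (hatM uu ww)ᵀ = 0 := by
  have key : ∀ r : Fin 4 → RR, r ⬝ᵥ ((hatM uu ww)ᵀ * c.map rho * hatM uu ww) *ᵥ r = 0 := by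
    intro r
    let cc : RR →+* Polynomial RR := Polynomial.C
    let s : Polynomial RR := Polynomial.X
    let M : Matrix (Fin 4) (Fin 4) (Polynomial RR) := of fun i j =>
      (cc ∘ uu) i * (cc ∘ ww) j + (cc ∘ uu) j * (cc ∘ ww) i + s * ((cc ∘ r) i * (cc ∘ r) j)
    have hMs : M.IsSymm := by
      refine Matrix.ext fun i j => ?_
      simp only [M, transpose_apply, of_apply]
      ring
    let Ψ := sub M
    have hM : (genSym 4).map Ψ = M := gen_map_sub hMs
    let τ := hatM uu ww *ᵥ r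
    have hadj : ∀ i j, Ψ ((genSym 4).adjugate i j) = s * -cc (τ i * τ j) := by
      intro i j
      have h1 := congrFun (congrFun (RingHom.map_adjugate Ψ (genSym 4)) i) j
      rw [RingHom.mapMatrix_apply, RingHom.mapMatrix_apply, hM, map_apply, adj_rank_three,
        ← hatM_map, ← RingHom.map_mulVec, ← RingHom.map_mulVec] at h1
      rw [h1, map_mul]
      ring
    have h1 : I4.map Ψ ≤ Ideal.span {s} := by
      rw [Ideal.map_le_iff_le_comap, I4, minorIdeal_eq_adj, adjIdeal, Ideal.span_le]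
      rintro _ ⟨q, rfl⟩
      exact Ideal.mem_span_singleton.mpr ⟨_, hadj _ _⟩
    have h2 := Ideal.mem_map_of_mem Ψ hc
    rw [Ideal.map_pow] at h2
    have h3 := Ideal.pow_right_mono h1 2 h2
    rw [Ideal.span_singleton_pow, Ideal.mem_span_singleton, pi2_apply] at h3
    simp only [map_sum, map_mul, hadj] at h3
    have h4 : s ∣ ∑ i, ∑ j, Ψ (c i j) * -(cc (τ i) * cc (τ j)) := by
      rw [← mul_dvd_mul_iff_left (a := s) Polynomial.X_ne_zero, ← pow_two]
      convert h3 using 1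
      simp only [Finset.mul_sum]
      exact Finset.sum_congr rfl fun i _ => Finset.sum_congr rfl fun j _ => by ring
    have h5 : (Polynomial.evalRingHom 0).comp Ψ = rho := by
      apply symRing_ext
      · intro x
        simp only [RingHom.comp_apply, Ψ, sub_C, rho_C]
        simp
      · intro i j
        rw [RingHom.comp_apply, sub_gen hMs, rho_gen]
        simp [M, s, cc]
    have h6 : ∀ x, Polynomial.eval 0 (Ψ x) = rho x := fun x => RingHom.congr_fun h5 x
    rw [Polynomial.X_dvd_iff, Polynomial.coeff_zero_eq_eval_zero] at h4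
    simp only [Polynomial.eval_finsetSum, Polynomial.eval_mul, Polynomial.eval_neg, h6, cc,
      Polynomial.eval_C] at h4
    rw [← mulVec_mulVec, ← mulVec_mulVec, dotProduct_mulVec, vecMul_transpose]
    rw [← neg_eq_zero, ← h4]
    change -(τ ⬝ᵥ (c.map rho) *ᵥ τ) = _
    generalize τ = τ'
    simp only [dotProduct, mulVec, map_apply, Finset.mul_sum, ← Finset.sum_neg_distrib]
    exact Finset.sum_congr rfl fun i _ => Finset.sum_congr rfl fun j _ => by ring
  have h := polarize _ key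
  rw [hatM_transpose] at h ⊢
  simp only [transpose_mul, transpose_neg, hatM_transpose, Matrix.neg_mul, Matrix.mul_neg,
    neg_neg] at h
  rw [Matrix.map_add _ (map_add rho), Matrix.mul_add, Matrix.add_mul, Matrix.mul_neg,
    Matrix.mul_neg, ← h, transpose_map]
  simp only [Matrix.mul_assoc]

lemma I4_le_PP : I4 ≤ PP := by
  rw [I4, minorIdeal_eq_adj, adjIdeal, Ideal.span_le]
  rintro _ ⟨⟨i, j⟩, rfl⟩
  have h1 := congrFun (congrFun (RingHom.map_adjugate rho (genSym 4)) i) j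
  have h2 := adj_rank_three uu ww 0 0 i j
  simp only [zero_mul, add_zero, neg_zero] at h2
  rw [RingHom.mapMatrix_apply, RingHom.mapMatrix_apply, rho, gen_map_sub X0_symm, map_apply] at h1
  exact h1.trans h2

lemma glStab_PP : GLStab PP := by
  intro G
  unfold Stab
  rw [Ideal.map_le_iff_le_comap]
  intro f hf
  rw [Ideal.mem_comap, PP, ← Polynomial.ker_mapRingHom, RingHom.mem_ker]
  let θ : RR →+* Polynomial RR := eval₂Hom (Polynomial.C.comp C) (Sum.elim
    (fun i => ∑ k, liftT RR (G i k) * Polynomial.C (uu k))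
    fun i => ∑ k, liftT RR (G i k) * Polynomial.C (ww k))
  have : (Polynomial.mapRingHom rho).comp (fam G) = θ.comp rho := by
    apply symRing_ext
    · intro c
      simp [fam_C, rho_C, θ]
    · intro i j
      have h1 : ∀ x, Polynomial.mapRingHom rho (liftT (SymRing 4) x) = liftT RR x := by
        intro x
        rw [Polynomial.coe_mapRingHom, Polynomial.coe_mapRingHom, Polynomial.coe_mapRingHom,
          Polynomial.map_map]
        congr 1
        ext1 c
        exact rho_C c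
      have h2 : ∀ x, Polynomial.mapRingHom rho (Polynomial.C x) = Polynomial.C (rho x) :=
        fun x => Polynomial.map_C _
      have h3 : ∀ i, θ (uu i) = ∑ k, liftT RR (G i k) * Polynomial.C (uu k) := fun i => by simp [θ]
      have h4 : ∀ i, θ (ww i) = ∑ k, liftT RR (G i k) * Polynomial.C (ww k) := fun i => by simp [θ]
      rw [RingHom.comp_apply, RingHom.comp_apply, fam_gen, rho_gen]
      simp only [map_mul, map_add, h1, h2, h3, h4, rho_gen, Fin.sum_univ_four]
      ring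
  have h := RingHom.congr_fun this f
  rw [RingHom.comp_apply, RingHom.comp_apply, RingHom.mem_ker.mp hf, map_zero] at h
  exact h

lemma PP_slice : addL PP zs4 ≤ addL I4 zs4 := by
  rw [← rho1_comap_map, ← rho1_comap_map, rho1_minor]
  refine Ideal.comap_mono (Ideal.map_le_iff_le_comap.mpr fun f hf => ker_pi0 ?_)
  obtain ⟨h, e1⟩ : ∃ h : A0, h * 2 = 1 := ⟨C (1 / 2 : ℂ), by
    rw [← map_ofNat (C : ℂ →+* A0) 2, ← map_mul]
    norm_num⟩
  obtain ⟨ii, e3⟩ : ∃ ii : A0, ii * ii = -1 := ⟨C Complex.I, by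
    rw [← map_mul, Complex.I_mul_I, map_neg, map_one]⟩
  let θ : RR →+* A0 := eval₂Hom C (Sum.elim
    ![1, ii * X 0, ii * X 1, ii * X 2] ![h, -(ii * h * X 0), -(ii * h * X 1), -(ii * h * X 2)])
  have : pi0.comp rho1 = θ.comp rho := by
    apply symRing_ext
    · intro c
      simp [rho1_C, pi0_C, rho_C, θ]
    · intro i j
      rw [RingHom.comp_apply, RingHom.comp_apply, rho1_gen, rho_gen]
      fin_cases i <;> fin_cases j <;> simp [blk, pi0_gen, θ] <;>
        first
          | linear_combination -e1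
          | ring1
          | linear_combination (-(X 0 * X 0)) * e1 + (2 * h * X 0 * X 0) * e3
          | linear_combination (-(X 0 * X 1)) * e1 + (2 * h * X 0 * X 1) * e3
          | linear_combination (-(X 0 * X 2)) * e1 + (2 * h * X 0 * X 2) * e3
          | linear_combination (-(X 1 * X 1)) * e1 + (2 * h * X 1 * X 1) * e3
          | linear_combination (-(X 1 * X 2)) * e1 + (2 * h * X 1 * X 2) * e3
          | linear_combination (-(X 2 * X 2)) * e1 + (2 * h * X 2 * X 2) * e3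
  have h' := RingHom.congr_fun this f
  rw [RingHom.comp_apply, RingHom.comp_apply, RingHom.mem_ker.mp hf, map_zero] at h'
  exact h'

lemma PP_pow_kill {z : SymRing 4} (hz : z ∈ pt (0 : Idx 4 → ℂ)) :
    ∃ N : ℕ, ∀ x ∈ PP, z ^ N * x ∈ I4 := by
  have key : ∀ c : Idx 4 → ℂ, c ≠ 0 → ∃ t, t ∉ pt c ∧ ∀ x ∈ PP, t * x ∈ I4 := by
    intro c hc
    rw [← ptOf_matOf c]
    rcases point_cases c hc with h | ⟨a, b, h⟩
    · exact kill_cong (matOf_symm c) h glStab_PP (glStab_minor 3)
        (kill_uncut_pair zs4 _ _ I4_le_PP (regSeq4 glStab_PP) zs4_mem_blk PP_slice)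
    · exact kill_cong (matOf_symm c) h glStab_PP (glStab_minor 3)
        (kill_uncut_pair zs4 _ _ I4_le_PP (regSeq4 glStab_PP) (zs4_mem_diag a b) PP_slice)
  obtain ⟨N, hN⟩ := pow_kill_of_points (E := SQ PP I4) 0 (fun c hc => by
    obtain ⟨t, ht, H⟩ := key c hc
    exact ⟨t, ht, sq_kill H⟩) z hz
  refine ⟨N, fun x hx => ?_⟩
  have := hN (Submodule.Quotient.mk ⟨x, hx⟩)
  rw [← Submodule.Quotient.mk_smul, Submodule.Quotient.mk_eq_zero] at this
  exact this

end Pool.Agent.Lib.MP_8277d7_ag
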