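import Pool.Agent.Lib.MP_8277d7_ag.Xi
import Pool.Agent.Lib.MP_8277d7_ag.PartB1

/-! The Koszul type complex `0 → B⁻ → M₁⁴ → Sym(A)`. -/

open MvPolynomial Matrix CategoryTheory Abelian

namespace Pool.Agent.Lib.MP_8277d7_ag

/-- The homogeneous maximal ideal. -/
noncomputable abbrev m4 : Ideal (SymRing 4) := pt (0 : Idx 4 → ℂ)

lemma mem_MI_univ {x : RR} : x ∈ MI (bPQ Finset.univ Finset.univ) ↔ x = 0 := by
  simp only [mem_MI, mem_bPQ, Finset.mem_univ, not_true, false_and, exists_false, or_self]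
  constructor
  · intro h
    ext α
    by_contra h'
    exact h α h'
  · rintro rfl
    simp

/-- The full weight module is the weight space. -/
noncomputable def nnEquiv (k : ℤ) : NN (bPQ Finset.univ Finset.univ) k ≃ₗ[SymRing 4] TW k :=
  Submodule.quotEquivOfEqBot _ (by
    rw [eq_bot_iff]
    intro x hx
    exact Subtype.ext (mem_MI_univ.mp hx))

lemma nnEquiv_mk (k : ℤ) (x : TW k) : nnEquiv k (Submodule.Quotient.mk x) = x := rfl

/-- The anti-invariant part. -/
noncomputable def Bm : Submodule (SymRing 4) (TW 0) := LinearMap.ker (swT + LinearMap.id)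

lemma mem_Bm {x : TW 0} : x ∈ Bm ↔ sw (x : RR) = -(x : RR) := by
  rw [Bm, LinearMap.mem_ker, Subtype.ext_iff, ← add_eq_zero_iff_eq_neg]
  rfl

/-- One half. -/
noncomputable abbrev hf : SymRing 4 := C (1 / 2)

lemma rho_hf : rho hf * 2 = 1 := by rw [rho_C]; exact half_RR

lemma hf_mul_two : hf * 2 = 1 := by
  rw [← map_ofNat (C : ℂ →+* SymRing 4) 2, ← map_mul]
  norm_num

/-- The projection to the anti-invariant part. -/
noncomputable def projM : TW 0 →ₗ[SymRing 4] Bm :=
  (hf • (LinearMap.id - swT)).codRestrict Bm fun x => by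
    rw [mem_Bm]
    change sw (rho hf * ((x : RR) - sw (x : RR))) = -(rho hf * ((x : RR) - sw (x : RR)))
    rw [map_mul, sw_rho, map_sub, sw_sw]
    ring

/-- The first map of the complex. -/
noncomputable def iotaM : Bm →ₗ[SymRing 4] (Fin 4 → TW 1) :=
  LinearMap.pi fun i => mT (eu i) (wt_eu_add i (by ring)) ∘ₗ Bm.subtype

lemma iotaM_coe (b : Bm) (i : Fin 4) : (iotaM b i : RR) = uu i * ((b : TW 0) : RR) := rfl

/-- The second map of the complex. -/
noncomputable def Phi : (Fin 4 → TW 1) →ₗ[SymRing 4] Matrix (Fin 4) (Fin 4) RR where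
  toFun g := of fun i j => (g i : RR) * ww j + sw (g i) * uu j + ((g j : RR) * ww i + sw (g j) * uu i)
  map_add' g h := by
    refine Matrix.ext fun i j => ?_
    simp only [of_apply, Pi.add_apply, Submodule.coe_add, map_add, Matrix.add_apply]
    ring
  map_smul' s g := by
    refine Matrix.ext fun i j => ?_
    simp only [of_apply, Pi.smul_apply, SetLike.val_smul, smul_RR, map_mul, sw_rho, RingHom.id_apply,
      Matrix.smul_apply]
    ring

lemma Phi_apply (g : Fin 4 → TW 1) (i j : Fin 4) : Phi g i j =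
    (g i : RR) * ww j + sw (g i) * uu j + ((g j : RR) * ww i + sw (g j) * uu i) := rfl

lemma pl_ne {i j : Fin 4} (h : i ≠ j) : pl i j ≠ 0 := by
  intro h0
  have := congrArg (eval (Sum.elim (Pi.single i (1 : ℂ)) (Pi.single j 1))) h0
  simp [pl, h.symm] at this

lemma ses_iota : SES (R := SymRing 4) (A := Bm) iotaM Phi.rangeRestrict := by
  refine ⟨?_, Phi.surjective_rangeRestrict, fun g => ?_⟩
  · rw [injective_iff_map_eq_zero]
    intro b hb
    have h1 : uu 0 * ((b : TW 0) : RR) = 0 := by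
      rw [← iotaM_coe, hb]
      rfl
    exact Subtype.ext (Subtype.ext ((mul_eq_zero.mp h1).resolve_left (X_ne_zero _)))
  · rw [Subtype.ext_iff]
    change Phi g = 0 ↔ _
    constructor
    · intro h
      have hd : ∀ i, (g i : RR) * ww i + sw (g i) * uu i = 0 := by
        intro i
        have := congrFun (congrFun h i) i
        rw [Phi_apply, ← two_mul] at this
        exact (mul_eq_zero.mp this).resolve_left two_ne_zero
      have hb : ∀ i, ∃ b : RR, (g i : RR) = uu i * b := by
        intro i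
        have h1 : uu i ∣ (g i : RR) * ww i := ⟨-sw (g i), by linear_combination hd i⟩
        refine (X_prime.dvd_or_dvd h1).resolve_right ?_
        rw [X_dvd_X]
        simp
      choose b hb using hb
      have hs : ∀ i, sw (b i) = -b i := by
        intro i
        have h1 := hd i
        rw [hb, map_mul, sw_uu] at h1
        have h2 : uu i * ww i * (sw (b i) + b i) = 0 := by linear_combination h1
        have h3 := (mul_eq_zero.mp h2).resolve_left (mul_ne_zero (X_ne_zero _) (X_ne_zero _))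
        exact eq_neg_of_add_eq_zero_left h3
      have he : ∀ i, b i = b 0 := by
        intro i
        by_cases hi : i = 0
        · rw [hi]
        · have h1 := congrFun (congrFun h i) 0
          rw [Phi_apply, hb, hb, map_mul, map_mul, hs, hs, sw_uu, sw_uu, Matrix.zero_apply] at h1
          have h2 : pl i 0 * (b i - b 0) = 0 := by
            rw [pl]
            linear_combination h1
          exact sub_eq_zero.mp ((mul_eq_zero.mp h2).resolve_left (pl_ne hi))
      have hT : b 0 ∈ TW 0 := by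
        intro α hα
        have h1 : coeff (eu 0 + α) (g 0 : RR) ≠ 0 := by rwa [hb, coeff_X_mul]
        have h2 := (g 0).2 h1
        rw [map_add, ← wt, wt_u] at h2
        omega
      refine ⟨⟨⟨b 0, hT⟩, mem_Bm.mpr (hs 0)⟩, funext fun i => Subtype.ext ?_⟩
      rw [iotaM_coe, hb, he i]
    · rintro ⟨b, rfl⟩
      refine Matrix.ext fun i j => ?_
      have := mem_Bm.mp b.2
      rw [Phi_apply, iotaM_coe, iotaM_coe, map_mul, map_mul, this, sw_uu, sw_uu]
      simp only [Matrix.zero_apply]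
      ring

lemma not_V4 : ¬ V m4 4 (LinearMap.range Phi) := by
  rintro ⟨t₁, ht₁, H₁⟩
  obtain ⟨Ξ, ⟨t₂, ht₂, H₂⟩, hsw, hu⟩ := exists_xi
  let p := projM ∘ₗ (nnEquiv 0).toLinearMap
  let j := (nnEquiv 0).symm.toLinearMap ∘ₗ Bm.subtype
  have e1 : j ∘ₗ p = hf • (LinearMap.id + -smP _ _) := by
    refine Submodule.linearMap_qext _ (LinearMap.ext fun x => ?_)
    apply (nnEquiv 0).injective
    change (nnEquiv 0) ((nnEquiv 0).symm (hf • (x - swT x))) =
      (nnEquiv 0) (hf • (Submodule.Quotient.mk x + -Submodule.Quotient.mk (swT x)))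
    rw [LinearEquiv.apply_symm_apply, map_smul, map_add, map_neg, nnEquiv_mk, nnEquiv_mk,
      sub_eq_add_neg]
  have e2 : (Ξ.comp (mk0 (R := SymRing 4) (B := Bm) p) (add_zero 7)).comp (mk0 (R := SymRing 4) (A := Bm) j) (add_zero 7) = Ξ := by
    rw [comp_mk0_mk0, e1, mk0_smul, mk0_add, mk0_neg, Ext.comp_smul, Ext.comp_add, Ext.comp_neg, hsw,
      comp_mk0_id, neg_smul, neg_neg, one_smul, ← two_smul (SymRing 4), smul_smul, hf_mul_two,
      one_smul]
  let a := fun i : Fin 4 => (LinearMap.single (SymRing 4) (fun _ : Fin 4 => TW 1) i ∘ₗ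
    (nnEquiv 1).toLinearMap)
  have e3 : iotaM = (a 0 ∘ₗ uB _ 0) ∘ₗ j + (a 1 ∘ₗ uB _ 1) ∘ₗ j + (a 2 ∘ₗ uB _ 2) ∘ₗ j +
      (a 3 ∘ₗ uB _ 3) ∘ₗ j := by
    refine LinearMap.ext fun b => funext fun i => ?_
    have h : ∀ k, ((a k ∘ₗ uB _ k) ∘ₗ j) b = Pi.single k (iotaM b k) := fun k => rfl
    simp only [LinearMap.add_apply, h, Pi.add_apply]
    fin_cases i <;> simp
  have e4 : ∀ k, (Ξ.comp (mk0 (R := SymRing 4) (B := Bm) p) (add_zero 7)).comp 
      (mk0 (R := SymRing 4) (A := Bm) ((a k ∘ₗ uB _ k) ∘ₗ j)) (add_zero 7)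
      = 0 := by
    intro k
    rw [← comp_mk0_mk0, e2, ← comp_mk0_mk0, hu, Ext.zero_comp]
  have e5 : (Ξ.comp (mk0 (R := SymRing 4) (B := Bm) p) (add_zero 7)).comp (mk0 (R := SymRing 4) (A := Bm) iotaM) (add_zero 7) = 0 := by
    rw [e3]
    simp only [mk0_add, Ext.comp_add, e4, add_zero]
  refine not_W_k0 (ptDT (0 : Idx 4 → ℂ) card_idx4) ⟨t₁ * t₂, mul_notMem ht₁ ht₂, fun y => ?_⟩
  obtain ⟨x, hx⟩ := H₂ y
  obtain ⟨z, hz⟩ := ses_iota.exact1 (t₁ • (mk0 (R := SymRing 4) (A := Bm) j).comp x (zero_add 3)) (by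
    rw [Ext.comp_smul, H₁])
  have e6 : (Ξ.comp (mk0 (R := SymRing 4) (B := Bm) p) (add_zero 7)).comp (t₁ • (mk0 (R := SymRing 4) (A := Bm) j).comp x (zero_add 3)) rfl =
      (t₁ * t₂) • y := by
    rw [Ext.comp_smul, ← Ext.comp_assoc _ _ _ (add_zero 7) (zero_add 3) (by omega), e2, hx,
      mul_smul]
  rw [← e6, ← hz, ← Ext.comp_assoc _ _ _ (add_zero 7) (zero_add 3) (by omega), e5, Ext.zero_comp]

lemma V_TW0 {i : ℕ} (hi : 3 < i) : V m4 i (TW 0) :=
  V_equiv (nnEquiv 0).symm (depth_NN (ptDT (0 : Idx 4 → ℂ) card_idx4) _ _ _ 0 rfl (by simp)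
    (by simp) i (by simp; omega))

/-- Symmetric matrices with invariant entries of weight zero. -/
noncomputable def SymA : Submodule (SymRing 4) (Matrix (Fin 4) (Fin 4) RR) where
  carrier := {a | ∀ i j, a i j ∈ TW 0 ∧ sw (a i j) = a i j ∧ a j i = a i j}
  zero_mem' := fun _ _ => ⟨Submodule.zero_mem _, map_zero _, rfl⟩
  add_mem' := fun {a b} ha hb i j => ⟨Submodule.add_mem _ (ha i j).1 (hb i j).1, by
    rw [Matrix.add_apply, map_add, (ha i j).2.1, (hb i j).2.1], by
    rw [Matrix.add_apply, Matrix.add_apply, (ha i j).2.2, (hb i j).2.2]⟩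
  smul_mem' := fun s a ha i j => ⟨Submodule.smul_mem _ s (ha i j).1, by
    rw [Matrix.smul_apply, smul_RR, map_mul, sw_rho, (ha i j).2.1], by
    rw [Matrix.smul_apply, Matrix.smul_apply, (ha i j).2.2]⟩

lemma Phi_le : LinearMap.range Phi ≤ SymA := by
  rintro _ ⟨g, rfl⟩ i j
  have h1 : ∀ i j, (g i : RR) * ww j + sw (g i) * uu j ∈ TW 0 := fun i j =>
    Submodule.add_mem _ (by simpa [mem_TW] using (g i).2.mul (hom_ww j))
      (by simpa [mem_TW] using (sw_mem (g i).2).mul (hom_uu j))
  refine ⟨Submodule.add_mem _ (h1 i j) (h1 j i), ?_, ?_⟩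
  · simp only [Phi_apply, map_add, map_mul, sw_sw, sw_uu, sw_ww]
    ring
  · simp only [Phi_apply]
    ring

lemma V_SymA : V m4 4 SymA := by
  let D := ptDT (0 : Idx 4 → ℂ) card_idx4
  have h : D.W 4 (Fin 4 → Fin 4 → TW 0) := D.pi (D.pi (V_TW0 (by decide)) 4) 4
  let f : SymA →ₗ[SymRing 4] (Fin 4 → Fin 4 → TW 0) :=
    { toFun := fun a i j => ⟨a.1 i j, (a.2 i j).1⟩
      map_add' := fun _ _ => rfl
      map_smul' := fun _ _ => rfl }
  let g : (Fin 4 → Fin 4 → TW 0) →ₗ[SymRing 4] SymA :=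
    { toFun := fun a => ⟨of fun i j => ((hf * hf) • (a i j + a j i + swT (a i j + a j i)) : TW 0),
        fun i j => ⟨((hf * hf) • (a i j + a j i + swT (a i j + a j i)) : TW 0).2, by
          simp only [of_apply, SetLike.val_smul, smul_RR, Submodule.coe_add, swT_coe, map_mul,
            map_add, sw_rho, sw_sw]
          ring, by simp only [of_apply, add_comm (a i j)]⟩⟩
      map_add' := fun a b => by
        refine Subtype.ext (Matrix.ext fun i j => ?_)
        simp only [of_apply, SetLike.val_smul, smul_RR, Submodule.coe_add, swT_coe, map_add,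
          Pi.add_apply, Matrix.add_apply]
        ring
      map_smul' := fun s a => by
        refine Subtype.ext (Matrix.ext fun i j => ?_)
        simp only [of_apply, SetLike.val_smul, smul_RR, Submodule.coe_add, swT_coe, map_add,
          Pi.smul_apply, Matrix.smul_apply, RingHom.id_apply, map_mul, sw_rho]
        ring }
  refine D.retract f g (fun a => ?_) h
  refine Subtype.ext (Matrix.ext fun i j => ?_)
  change rho (hf * hf) * (a.1 i j + a.1 j i + sw (a.1 i j + a.1 j i)) = a.1 i j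
  rw [map_add, (a.2 i j).2.1, (a.2 j i).2.1, (a.2 i j).2.2, map_mul]
  linear_combination (a.1 i j * (2 * rho hf + 1)) * rho_hf

lemma not_V5_G : ¬ V m4 5 (SQ SymA (LinearMap.range Phi)) := by
  intro h
  refine not_V4 (V_left (f := Submodule.inclusion Phi_le) (g := Submodule.mkQ _)
    ⟨Submodule.inclusion_injective _, Submodule.mkQ_surjective _, fun y => ?_⟩ V_SymA h)
  rw [Submodule.mkQ_apply, Submodule.Quotient.mk_eq_zero]
  exact ⟨fun hy => ⟨⟨y, hy⟩, rfl⟩, fun ⟨x, hx⟩ => hx ▸ x.2⟩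

lemma exists_rho {f : RR} (hf' : f ∈ TW 0) : ∃ s, rho s = rho hf * (f + sw f) := by
  have h := TW0_le hf'
  clear hf'
  induction h using Submodule.span_induction with
  | mem x hx =>
    rcases hx with rfl | ⟨q, rfl⟩
    · exact ⟨1, by rw [map_one, map_one]; linear_combination -rho_hf⟩
    · exact ⟨0, by simp [pl, mul_comm]⟩
  | zero => exact ⟨0, by simp⟩
  | add x y _ _ hx hy =>
    obtain ⟨s, hs⟩ := hx
    obtain ⟨t, ht⟩ := hy
    exact ⟨s + t, by rw [map_add, hs, ht, map_add]; ring⟩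
  | smul r x _ hx =>
    obtain ⟨s, hs⟩ := hx
    exact ⟨r * s, by rw [map_mul, hs, smul_RR, map_mul, sw_rho]; ring⟩

lemma exists_coeff_u {f : RR} (hf' : f ∈ TW 1) : ∃ e : Fin 4 → SymRing 4,
    ∑ j, rho (e j) * uu j = f := by
  have key : ∀ i, ∀ x ∈ Bsp, uu i * x ∈ Submodule.span (SymRing 4) (Set.range uu) := by
    intro i x hx
    have hu : ∀ j, uu j ∈ Submodule.span (SymRing 4) (Set.range uu) := fun j =>
      Submodule.subset_span ⟨j, rfl⟩
    induction hx using Submodule.span_induction with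
    | mem x hx =>
      rcases hx with rfl | ⟨⟨k, l⟩, rfl⟩
      · rw [mul_one]
        exact hu i
      · have := Submodule.sub_mem _ (Submodule.smul_mem _ (genSym 4 i l) (hu k))
          (Submodule.smul_mem _ (genSym 4 i k) (hu l))
        convert this using 1
        simp only [smul_RR, rho_gen, pl]
        ring
    | zero => simp
    | add x y _ _ hx hy => rw [mul_add]; exact Submodule.add_mem _ hx hy
    | smul s x _ hx => rw [mul_smul_comm]; exact Submodule.smul_mem _ s hx
  have h : TW 1 ≤ Submodule.span (SymRing 4) (Set.range uu) := by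
    refine TW_le fun α hα => ?_
    obtain ⟨i, hi⟩ := exists_u (α := α) (by omega)
    obtain ⟨β, rfl⟩ := split_exp hi
    rw [wt, map_add, ← wt, wt_u] at hα
    rw [← X_mul_monomial']
    have hβ : wt β = 0 := by rw [wt]; omega
    exact key i _ (TW0_le (hβ ▸ hom_monomial β))
  exact (Submodule.mem_span_range_iff_exists_fun _).mp (h hf')

lemma V6_quot : V m4 6 (SymRing 4 ⧸ I4) := by
  let D := ptDT (0 : Idx 4 → ℂ) card_idx4
  obtain ⟨f, g, h⟩ := sq_ses_top (K₂ := PP) (K₃ := I4) I4_le_PP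
  refine V_mid h ?_ (D.small _ (fun z hz => ?_) 6 (by decide))
  · let L := Algebra.linearMap (SymRing 4) RR
    refine V_equiv L.quotKerEquivRange ?_
    let f' : LinearMap.range L →ₗ[SymRing 4] TW 0 := Submodule.inclusion (by
      rintro _ ⟨s, rfl⟩
      exact hom_rho s)
    let g' : TW 0 →ₗ[SymRing 4] LinearMap.range L :=
      ((TW 0).subtype ∘ₗ (hf • (LinearMap.id + swT))).codRestrict _ fun x => by
        obtain ⟨s, hs⟩ := exists_rho x.2
        exact ⟨s, hs⟩
    refine D.retract f' g' ?_ (V_TW0 (by decide))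
    rintro ⟨_, s, rfl⟩
    apply Subtype.ext
    change rho hf * (rho s + sw (rho s)) = rho s
    rw [sw_rho]
    linear_combination rho s * rho_hf
  · obtain ⟨N, hN⟩ := PP_pow_kill hz
    exact ⟨N, sq_kill hN⟩

end Pool.Agent.Lib.MP_8277d7_ag
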