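import Pool.Agent.Lib.MP_8277d7_ag.PartB2

/-! Non-vanishing of `Ext^5(S/I^2, S)`. -/

open MvPolynomial Matrix CategoryTheory Abelian

namespace Pool.Agent.Lib.MP_8277d7_ag

/-- Symmetrisation followed by the parametrisation. -/
noncomputable def pi1 : Matrix (Fin 4) (Fin 4) (SymRing 4) →ₗ[SymRing 4] Matrix (Fin 4) (Fin 4) RR where
  toFun c := (c + cᵀ).map rho
  map_add' c d := Matrix.ext fun i j => by
    simp only [map_apply, Matrix.add_apply, transpose_apply, map_add]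
    ring
  map_smul' s c := Matrix.ext fun i j => by
    simp only [map_apply, Matrix.add_apply, transpose_apply, map_add, Matrix.smul_apply, smul_eq_mul,
      map_mul, RingHom.id_apply, smul_RR]
    ring

lemma pi1_apply (c : Matrix (Fin 4) (Fin 4) (SymRing 4)) (i j : Fin 4) :
    pi1 c i j = rho (c i j + c j i) := rfl

lemma pi1_mem (c : Matrix (Fin 4) (Fin 4) (SymRing 4)) : pi1 c ∈ SymA := fun i j =>
  ⟨hom_rho _, sw_rho _, by rw [pi1_apply, pi1_apply, add_comm]⟩

lemma pi1_surj {a : Matrix (Fin 4) (Fin 4) RR} (ha : a ∈ SymA) : ∃ c, pi1 c = a := by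
  choose s hs using fun i j => exists_rho (ha i j).1
  refine ⟨of fun i j => hf * s i j, Matrix.ext fun i j => ?_⟩
  rw [pi1_apply, of_apply, of_apply, map_add, map_mul, map_mul, hs, hs, (ha i j).2.1, (ha j i).2.1,
    (ha i j).2.2]
  linear_combination (a i j * (2 * rho hf + 1)) * rho_hf

lemma TW_mul {a b c : ℤ} {f g : RR} (hf : f ∈ TW a) (hg : g ∈ TW b) (h : a + b = c) :
    f * g ∈ TW c := h ▸ IsWeightedHomogeneous.mul hf hg

lemma del_K2 {s : Idx 4} (hs : s ∈ offL) {c : Matrix (Fin 4) (Fin 4) (SymRing 4)}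
    (hc : pi2 c ∈ I4 ^ 2) : pi1 (Del s • c) ∈ LinearMap.range Phi := by
  obtain ⟨r, t, h⟩ := offL_compl hs
  obtain ⟨β, hβ⟩ := proj_identity uu ww _ _ r t h
  set p := s.1.1
  set q := s.1.2
  set φ : Fin 4 → RR := Pi.single p (ww q) - Pi.single q (ww p) with hφ
  set ψ : Fin 4 → RR := Pi.single q (uu p) - Pi.single p (uu q) with hψ
  set Pm := vecMulVec uu φ + vecMulVec ww ψ with hPm
  have ha0 : (pi1 c)ᵀ = pi1 c := Matrix.ext fun i j => (pi1_mem c i j).2.2
  have h0 : β * hatM uu ww * pi1 c * (β * hatM uu ww)ᵀ = 0 := by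
    have := first_order hc
    calc _ = β * (hatM uu ww * (c + cᵀ).map rho * (hatM uu ww)ᵀ) * βᵀ := by
          simp only [transpose_mul, Matrix.mul_assoc]
          rfl
      _ = 0 := by rw [this]; simp
  have h1 := two_sq_identity (pi1 c) Pm _ _ ha0 hβ h0
  set a := uu p * ww q - uu q * ww p with ha
  set Y := pi1 c * ((2 * a) • 1 - Pmᵀ) with hY
  have s1 : ∀ k, sw (ψ k) = -φ k := by
    intro k
    simp only [hφ, hψ, Pi.sub_apply, Pi.single_apply, map_sub, apply_ite sw, map_zero, sw_uu]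
    ring
  have s2 : ∀ k, sw (φ k) = -ψ k := by
    intro k
    simp only [hφ, hψ, Pi.sub_apply, Pi.single_apply, map_sub, apply_ite sw, map_zero, sw_ww]
    ring
  have t1 : ∀ k, ψ k ∈ TW 1 := by
    intro k
    simp only [hψ, Pi.sub_apply, Pi.single_apply]
    refine Submodule.sub_mem _ ?_ ?_ <;> split_ifs <;>
      first | exact hom_uu _ | exact Submodule.zero_mem _
  have t2 : ∀ k, φ k ∈ TW (-1) := by
    intro k
    simp only [hφ, Pi.sub_apply, Pi.single_apply]
    refine Submodule.sub_mem _ ?_ ?_ <;> split_ifs <;>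
      first | exact hom_ww _ | exact Submodule.zero_mem _
  have hYe : ∀ i j, Y i j = ∑ k, pi1 c i k *
      ((if k = j then 2 * a else 0) - (uu j * φ k + ww j * ψ k)) := by
    intro i j
    simp only [hY, hPm, mul_apply, Matrix.sub_apply, Matrix.smul_apply, one_apply, transpose_apply,
      Matrix.add_apply, vecMulVec_apply, smul_eq_mul, mul_ite, mul_one, mul_zero]
  have s3 : ∀ i j, sw (Y i j) = -Y i j := by
    intro i j
    rw [hYe, map_sum, ← Finset.sum_neg_distrib]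
    refine Finset.sum_congr rfl fun k _ => ?_
    simp only [map_mul, (pi1_mem c i k).2.1, map_sub, map_add, s1, s2, sw_uu, sw_ww, apply_ite sw,
      map_zero, ha, map_ofNat]
    split_ifs <;> ring
  have t3 : ∀ i j, Y i j ∈ TW 0 := by
    intro i j
    rw [hYe]
    refine Submodule.sum_mem _ fun k _ => TW_mul (pi1_mem c i k).1 (Submodule.sub_mem _ ?_
      (Submodule.add_mem _ (TW_mul (hom_uu j) (t2 k) rfl) (TW_mul (hom_ww j) (t1 k) rfl))) rfl
    split_ifs
    · rw [two_mul]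
      have : a ∈ TW 0 := Submodule.sub_mem _ (hom_uw _ _) (hom_uw _ _)
      exact Submodule.add_mem _ this this
    · exact Submodule.zero_mem _
  let g : Fin 4 → TW 1 := fun j => ⟨∑ i, ψ i * Y i j,
    Submodule.sum_mem _ fun i _ => TW_mul (t1 i) (t3 i j) rfl⟩
  have hg : ∀ j, (g j : RR) = ∑ i, ψ i * Y i j := fun _ => rfl
  have hsg : ∀ j, sw (g j) = ∑ i, φ i * Y i j := by
    intro j
    rw [hg, map_sum]
    exact Finset.sum_congr rfl fun i _ => by rw [map_mul, s1, s3]; ring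
  have hPY : ∀ i j, (Pm * Y) i j = uu i * sw (g j) + ww i * g j := by
    intro i j
    rw [hsg, hg, hPm, Matrix.add_mul, vecMulVec_mul, vecMulVec_mul]
    rfl
  have hD : rho (Del s) = -a ^ 2 := by
    have := pl_mul p q p q
    rw [Del, ← genSym_idx s, pow_two a]
    rw [genSym_comm q p] at this
    simp only [map_sub, map_mul, map_pow] at this ⊢
    change a * a = _ at this
    rw [this]
    ring
  refine ⟨(-hf) • g, ?_⟩
  rw [map_smul, map_smul]
  refine Matrix.ext fun i j => ?_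
  have h2 := congrFun (congrFun h1 i) j
  rw [Matrix.smul_apply, Matrix.add_apply, transpose_apply, hPY, hPY, smul_eq_mul] at h2
  rw [Matrix.smul_apply, Matrix.smul_apply, smul_RR, smul_RR, Phi_apply, hD, map_neg]
  linear_combination rho hf * h2 - (a ^ 2 * pi1 c i j) * rho_hf

lemma pi2_transpose (c : Matrix (Fin 4) (Fin 4) (SymRing 4)) : pi2 cᵀ = pi2 c := by
  rw [pi2_apply, pi2_apply, Finset.sum_comm]
  exact Finset.sum_congr rfl fun i _ => Finset.sum_congr rfl fun j _ => by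
    rw [transpose_apply, (adj_symm (genSym_symm 4)).apply i j]

lemma pi2_mul_gen (e : Matrix (Fin 4) (Fin 4) (SymRing 4)) :
    pi2 (e * genSym 4) = e.trace * d4 := by
  have h : pi2 (e * genSym 4) = (e * (genSym 4 * (genSym 4).adjugate)).trace := by
    rw [← Matrix.mul_assoc, pi2_apply, trace]
    refine Finset.sum_congr rfl fun i _ => ?_
    rw [diag_apply, mul_apply (M := e * genSym 4)]
    exact Finset.sum_congr rfl fun j _ => by rw [(adj_symm (genSym_symm 4)).apply i j]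
  rw [h, mul_adjugate, Matrix.mul_smul, Matrix.mul_one, trace_smul, smul_eq_mul, mul_comm]

lemma del_K1 {s : Idx 4} (hs : s ∈ offL) : ∃ N : ℕ, ∀ c, pi1 c ∈ LinearMap.range Phi →
    pi2 (Del s ^ N • c) ∈ I4 ^ 2 := by
  have hm : Del s ∈ pt (0 : Idx 4 → ℂ) := by
    rw [Del, ← genSym_idx s, pow_two]
    exact Ideal.sub_mem _ (Ideal.mul_mem_left _ _ (gen_mem_pt _ _))
      (Ideal.mul_mem_left _ _ (gen_mem_pt _ _))
  obtain ⟨N, hN⟩ := PP_pow_kill hm
  refine ⟨N + 1, ?_⟩
  rintro c ⟨g, hg⟩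
  choose e he using fun i => exists_coeff_u (g i).2
  let E : Matrix (Fin 4) (Fin 4) (SymRing 4) := of e
  have h1 : ∀ i k, rho ((E * genSym 4) i k) = (g i : RR) * ww k + sw (g i) * uu k := by
    intro i k
    rw [← he i, mul_apply]
    simp only [map_sum, map_mul, rho_gen, sw_rho, sw_uu, Finset.sum_mul, ← Finset.sum_add_distrib,
      E, of_apply]
    exact Finset.sum_congr rfl fun j _ => by ring
  let r := c + cᵀ - (E * genSym 4 + (E * genSym 4)ᵀ)
  have h2 : ∀ i k, r i k ∈ PP := by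
    intro i k
    have := congrFun (congrFun hg i) k
    rw [Phi_apply, pi1_apply] at this
    rw [PP, RingHom.mem_ker]
    simp only [r, Matrix.sub_apply, Matrix.add_apply, transpose_apply, map_sub, ← this]
    rw [map_add, h1, h1, sub_self]
  have h3 : Del s ^ N * pi2 r ∈ I4 ^ 2 := by
    rw [pi2_apply, Finset.mul_sum, pow_two]
    refine Ideal.sum_mem _ fun i _ => ?_
    rw [Finset.mul_sum]
    refine Ideal.sum_mem _ fun k _ => ?_
    rw [← mul_assoc]
    exact Ideal.mul_mem_mul (hN _ (h2 i k)) (adj_mem_I4 i k)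
  have h4 : pi2 r = 2 * pi2 c - 2 * (E.trace * d4) := by
    simp only [r, map_sub, map_add, pi2_transpose, pi2_mul_gen]
    ring
  have h5 := Ideal.add_mem _ (Ideal.mul_mem_left _ (hf * Del s) h3)
    (Ideal.mul_mem_left _ (Del s ^ N * E.trace) (Del_mul_d4 hs))
  convert h5 using 1
  rw [map_smul, smul_eq_mul, h4]
  linear_combination (-(Del s ^ (N + 1) * (pi2 c - E.trace * d4))) * hf_mul_two

lemma V5_compare {F : Type} [AddCommGroup F] [Module (SymRing 4) F] {K₁ K₂ : Submodule (SymRing 4) F}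
    (h₁ : ∀ s ∈ offL, ∃ N : ℕ, ∀ x ∈ K₁, Del s ^ N • x ∈ K₂)
    (h₂ : ∀ s ∈ offL, ∃ N : ℕ, ∀ x ∈ K₂, Del s ^ N • x ∈ K₁) (h : V m4 5 (F ⧸ K₂)) :
    V m4 5 (F ⧸ K₁) := by
  obtain ⟨f, g, hs⟩ := sq_ses_top (K₂ := K₁ ⊔ K₂) (K₃ := K₂) le_sup_right
  obtain ⟨f', g', hs'⟩ := sq_ses_top (K₂ := K₁ ⊔ K₂) (K₃ := K₁) le_sup_left
  refine V_mid hs' (V_right hs (V_del (fun s hs => ?_) (by decide)) h)
    (V_del (fun s hs => ?_) (by decide))
  · obtain ⟨N, hN⟩ := h₁ s hs
    refine ⟨N, sq_kill fun x hx => ?_⟩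
    obtain ⟨a, ha, b, hb, rfl⟩ := Submodule.mem_sup.mp hx
    rw [smul_add]
    exact Submodule.add_mem _ (hN a ha) (Submodule.smul_mem _ _ hb)
  · obtain ⟨N, hN⟩ := h₂ s hs
    refine ⟨N, sq_kill fun x hx => ?_⟩
    obtain ⟨a, ha, b, hb, rfl⟩ := Submodule.mem_sup.mp hx
    rw [smul_add]
    exact Submodule.add_mem _ (Submodule.smul_mem _ _ ha) (hN b hb)

lemma comap_equiv {R F G : Type} [CommRing R] [AddCommGroup F] [Module R F] [AddCommGroup G]
    [Module R G] (f : F →ₗ[R] G) (A K : Submodule R G) (hA : ∀ c, f c ∈ A)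
    (hs : ∀ a ∈ A, ∃ c, f c = a) : Nonempty ((F ⧸ K.comap f) ≃ₗ[R] SQ A K) :=
  ⟨quotEquiv (K.comap f) (K.comap A.subtype) (f.codRestrict A hA) (fun _ => Iff.rfl) fun z => by
    obtain ⟨c, hc⟩ := hs z.1 z.2
    refine ⟨c, ?_⟩
    change (z : G) - f c ∈ K
    rw [hc, sub_self]
    exact Submodule.zero_mem _⟩

end Pool.Agent.Lib.MP_8277d7_ag
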