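import Pool.Agent.Lib.MP_8277d7_ag.PartA

/-! Weight modules of the polynomial ring in `u, w` over the ring of symmetric matrices. -/

open MvPolynomial

namespace Pool.Agent.Lib.MP_8277d7_ag

/-- Variables `u_i`, `w_i`. -/
abbrev II : Type := Fin 4 ⊕ Fin 4

/-- The polynomial ring in `u, w`. -/
abbrev RR : Type := MvPolynomial II ℂ

/-- The variables `u_i`. -/
noncomputable abbrev uu (i : Fin 4) : RR := X (Sum.inl i)

/-- The variables `w_i`. -/
noncomputable abbrev ww (i : Fin 4) : RR := X (Sum.inr i)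

/-- The rank two matrix `u wᵀ + w uᵀ`. -/
noncomputable def X0 : Matrix (Fin 4) (Fin 4) RR := Matrix.of fun i j => uu i * ww j + uu j * ww i

lemma X0_symm : X0.IsSymm := by
  ext i j : 2
  simp [X0, add_comm]

/-- The parametrisation of rank two matrices. -/
noncomputable def rho : SymRing 4 →+* RR := sub X0

lemma rho_gen (i j : Fin 4) : rho (genSym 4 i j) = uu i * ww j + uu j * ww i := sub_gen X0_symm i j

lemma rho_C (c : ℂ) : rho (C c) = C c := sub_C _ c

noncomputable scoped instance algRR : Algebra (SymRing 4) RR := rho.toAlgebra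

lemma smul_RR (s : SymRing 4) (f : RR) : s • f = rho s * f := rfl

/-- The weights. -/
def wv : II → ℤ := Sum.elim (fun _ => 1) (fun _ => -1)

/-- The weight of an exponent vector. -/
noncomputable abbrev wt (α : II →₀ ℕ) : ℤ := Finsupp.weight wv α

lemma hom_uu (i : Fin 4) : IsWeightedHomogeneous wv (uu i) 1 := isWeightedHomogeneous_X ℂ wv _

lemma hom_ww (i : Fin 4) : IsWeightedHomogeneous wv (ww i) (-1) := isWeightedHomogeneous_X ℂ wv _

lemma hom_uw (i j : Fin 4) : IsWeightedHomogeneous wv (uu i * ww j) 0 := by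
  simpa using (hom_uu i).mul (hom_ww j)

lemma hom_rho (s : SymRing 4) : IsWeightedHomogeneous wv (rho s) 0 := by
  induction s using symRing_induction with
  | hC c => rw [rho_C]; exact isWeightedHomogeneous_C _ _
  | hadd p q hp hq => rw [map_add]; exact hp.add hq
  | hX p i j hp =>
    rw [map_mul, rho_gen]
    simpa using hp.mul ((hom_uw i j).add (hom_uw j i))

/-- The weight `k` part. -/
noncomputable def TW (k : ℤ) : Submodule (SymRing 4) RR where
  carrier := {f | IsWeightedHomogeneous wv f k}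
  zero_mem' := isWeightedHomogeneous_zero ℂ _ _
  add_mem' := fun hx hy => hx.add hy
  smul_mem' := fun s x hx => by simpa [smul_RR] using (hom_rho s).mul hx

lemma mem_TW {k : ℤ} {f : RR} : f ∈ TW k ↔ IsWeightedHomogeneous wv f k := Iff.rfl

lemma MI_mul {B₁ B₂ : UpperSet (II →₀ ℕ)} {r f : RR} (hf : ∀ α, coeff α f ≠ 0 → α ∈ B₁)
    (h : ∀ α β, coeff β r ≠ 0 → coeff α f ≠ 0 → α ∈ B₁ → β + α ∈ B₂) :
    ∀ α, coeff α (r * f) ≠ 0 → α ∈ B₂ := by
  intro α hα
  rw [coeff_mul] at hα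
  obtain ⟨p, hp, hp'⟩ := Finset.exists_ne_zero_of_sum_ne_zero hα
  rw [← Finset.HasAntidiagonal.mem_antidiagonal.mp hp]
  exact h _ _ (left_ne_zero_of_mul hp') (right_ne_zero_of_mul hp') (hf _ (right_ne_zero_of_mul hp'))

/-- The monomial ideal of an upper set. -/
noncomputable def MI (B : UpperSet (II →₀ ℕ)) : Submodule (SymRing 4) RR where
  carrier := {f | ∀ α, coeff α f ≠ 0 → α ∈ B}
  zero_mem' := by simp
  add_mem' := fun {x y} hx hy α hα => by
    by_cases h : coeff α x = 0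
    · exact hy α (by simpa [h] using hα)
    · exact hx α h
  smul_mem' := fun s x hx => MI_mul hx fun α β _ _ h => B.upper le_add_self h

lemma mem_MI {B : UpperSet (II →₀ ℕ)} {f : RR} : f ∈ MI B ↔ ∀ α, coeff α f ≠ 0 → α ∈ B := Iff.rfl

/-- The weight `k` part of the quotient by a monomial ideal. -/
abbrev NN (B : UpperSet (II →₀ ℕ)) (k : ℤ) : Type := SQ (TW k) (MI B)

lemma hom_monomial (m : II →₀ ℕ) : IsWeightedHomogeneous wv (monomial m (1 : ℂ)) (wt m) :=
  isWeightedHomogeneous_monomial _ _ _ rfl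

/-- Multiplication by a monomial on weight spaces. -/
noncomputable def mT (m : II →₀ ℕ) {k₁ k₂ : ℤ} (hk : wt m + k₁ = k₂) : TW k₁ →ₗ[SymRing 4] TW k₂ :=
  (LinearMap.mulLeft (SymRing 4) (monomial m (1 : ℂ))).restrict
    fun _ hx => hk ▸ (hom_monomial m).mul hx

lemma mT_coe (m : II →₀ ℕ) {k₁ k₂ : ℤ} (hk : wt m + k₁ = k₂) (x : TW k₁) :
    (mT m hk x : RR) = monomial m (1 : ℂ) * (x : RR) := rfl

lemma mT_le (m : II →₀ ℕ) {k₁ k₂ : ℤ} (hk : wt m + k₁ = k₂) {B₁ B₂ : UpperSet (II →₀ ℕ)}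
    (h : ∀ α, wt α = k₁ → α ∈ B₁ → m + α ∈ B₂) :
    (MI B₁).comap (TW k₁).subtype ≤ ((MI B₂).comap (TW k₂).subtype).comap (mT m hk) := by
  intro x hx
  refine MI_mul hx fun α β hβ hα hB => ?_
  rw [coeff_monomial] at hβ
  split_ifs at hβ with h'
  · rw [← h']
    exact h α (x.2 hα) hB
  · exact absurd rfl hβ

/-- Multiplication by a monomial. -/
noncomputable def mm (m : II →₀ ℕ) {k₁ k₂ : ℤ} (hk : wt m + k₁ = k₂) {B₁ B₂ : UpperSet (II →₀ ℕ)}
    (h : ∀ α, wt α = k₁ → α ∈ B₁ → m + α ∈ B₂) : NN B₁ k₁ →ₗ[SymRing 4] NN B₂ k₂ :=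
  Submodule.mapQ _ _ (mT m hk) (mT_le m hk h)

lemma rs_le {k : ℤ} {B₁ B₂ : UpperSet (II →₀ ℕ)} (h : ∀ α, wt α = k → α ∈ B₁ → α ∈ B₂) :
    (MI B₁).comap (TW k).subtype ≤ ((MI B₂).comap (TW k).subtype).comap LinearMap.id :=
  fun x hx α hα => h α (x.2 hα) (hx α hα)

/-- Restriction maps. -/
noncomputable def rs {k : ℤ} {B₁ B₂ : UpperSet (II →₀ ℕ)}
    (h : ∀ α, wt α = k → α ∈ B₁ → α ∈ B₂) : NN B₁ k →ₗ[SymRing 4] NN B₂ k :=
  Submodule.mapQ _ _ LinearMap.id (rs_le h)

lemma mm_mk (m : II →₀ ℕ) {k₁ k₂ : ℤ} (hk : wt m + k₁ = k₂) {B₁ B₂ : UpperSet (II →₀ ℕ)}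
    (h : ∀ α, wt α = k₁ → α ∈ B₁ → m + α ∈ B₂) (x : TW k₁) :
    mm m hk h (Submodule.Quotient.mk x) = Submodule.Quotient.mk (mT m hk x) := rfl

lemma rs_mk {k : ℤ} {B₁ B₂ : UpperSet (II →₀ ℕ)} (h : ∀ α, wt α = k → α ∈ B₁ → α ∈ B₂)
    (x : TW k) : rs h (Submodule.Quotient.mk x) = Submodule.Quotient.mk x := rfl

lemma ses_mm (m : II →₀ ℕ) {k₁ k₂ : ℤ} (hk : wt m + k₁ = k₂) {B₁ B₂ B₃ : UpperSet (II →₀ ℕ)}
    (h₁ : ∀ α, wt α = k₁ → (α ∈ B₁ ↔ m + α ∈ B₂))
    (h₂ : ∀ α, wt α = k₂ → (α ∈ B₃ ↔ α ∈ B₂ ∨ m ≤ α)) :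
    SES (mm m hk fun α hα => (h₁ α hα).mp) (rs fun α hα h => (h₂ α hα).mpr (Or.inl h)) := by
  refine ses_quot _ _ _ _ _ _ _ (fun x hx α hα => ?_) (fun z => ⟨z, by simp⟩) fun y => ?_
  · refine (h₁ α (x.2 hα)).mpr (hx _ ?_)
    rwa [Submodule.subtype_apply, mT_coe, coeff_monomial_mul, one_mul]
  · constructor
    · intro hy
      have hx : divMonomial (y : RR) m ∈ TW k₁ := by
        intro α hα
        rw [coeff_divMonomial] at hα
        have := y.2 hα
        rw [map_add, ← hk] at this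
        exact add_left_cancel this
      refine ⟨⟨_, hx⟩, fun α hα => ?_⟩
      have h3 : (TW k₂).subtype (y - mT m hk ⟨_, hx⟩) = modMonomial (y : RR) m := by
        rw [map_sub, Submodule.subtype_apply, Submodule.subtype_apply, mT_coe, sub_eq_iff_eq_add']
        exact (divMonomial_add_modMonomial _ _).symm
      rw [h3] at hα
      have h4 : ¬ m ≤ α := fun h => hα (coeff_modMonomial_of_le _ h)
      rw [coeff_modMonomial_of_not_le _ h4] at hα
      exact ((h₂ α (y.2 hα)).mp (hy α hα)).resolve_right h4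
    · rintro ⟨x, hx⟩ α hα
      refine (h₂ α (y.2 hα)).mpr ?_
      by_cases h4 : m ≤ α
      · exact Or.inr h4
      · refine Or.inl (hx α ?_)
        rw [map_sub, Submodule.subtype_apply, Submodule.subtype_apply, mT_coe, coeff_sub,
          coeff_monomial_mul', if_neg h4, sub_zero]
        exact hα

lemma ses_mv {k : ℤ} {B₀ B₁ B₂ B₃ : UpperSet (II →₀ ℕ)}
    (h₀ : ∀ α, wt α = k → (α ∈ B₀ ↔ α ∈ B₁ ∧ α ∈ B₂))
    (h₃ : ∀ α, wt α = k → (α ∈ B₃ ↔ α ∈ B₁ ∨ α ∈ B₂)) :
    SES ((rs fun α hα h => ((h₀ α hα).mp h).1).prod (rs fun α hα h => ((h₀ α hα).mp h).2))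
      ((rs fun α hα h => (h₃ α hα).mpr (Or.inl h)).coprod
        (-(rs fun α hα h => (h₃ α hα).mpr (Or.inr h)))) := by
  classical
  refine ⟨?_, ?_, ?_⟩
  · rw [injective_iff_map_eq_zero]
    intro x hx
    obtain ⟨x, rfl⟩ := Submodule.Quotient.mk_surjective _ x
    have h1 := congrArg Prod.fst hx
    have h2 := congrArg Prod.snd hx
    rw [Submodule.Quotient.mk_eq_zero]
    exact fun α hα => (h₀ α (x.2 hα)).mpr ⟨(Submodule.Quotient.mk_eq_zero _).mp h1 α hα,
      (Submodule.Quotient.mk_eq_zero _).mp h2 α hα⟩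
  · intro z
    obtain ⟨z, rfl⟩ := Submodule.Quotient.mk_surjective _ z
    exact ⟨(Submodule.Quotient.mk z, 0), by simp [rs_mk]⟩
  · rintro ⟨x, y⟩
    obtain ⟨x, rfl⟩ := Submodule.Quotient.mk_surjective _ x
    obtain ⟨y, rfl⟩ := Submodule.Quotient.mk_surjective _ y
    rw [LinearMap.coprod_apply, LinearMap.neg_apply, rs_mk, rs_mk, ← sub_eq_add_neg,
      ← Submodule.Quotient.mk_sub, Submodule.Quotient.mk_eq_zero]
    constructor
    · intro h
      let d : RR := ∑ α ∈ ((x : RR) - (y : RR)).support with α ∈ B₁, monomial α (coeff α ((x : RR) - (y : RR)))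
      have hd : ∀ α, coeff α d = if α ∈ B₁ then coeff α ((x : RR) - (y : RR)) else 0 := by
        intro α
        simp only [d, coeff_sum, coeff_monomial, Finset.sum_ite_eq', Finset.mem_filter,
          mem_support_iff]
        by_cases h1 : α ∈ B₁ <;> by_cases h2 : coeff α ((x : RR) - (y : RR)) = 0 <;>
          simp [h1, h2, -coeff_sub]
      have hdT : d ∈ TW k := by
        intro α hα
        rw [hd] at hα
        split_ifs at hα
        · exact (x - y).2 hα
        · exact absurd rfl hα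
      refine ⟨Submodule.Quotient.mk (x - ⟨d, hdT⟩), Prod.ext ?_ ?_⟩
      · refine (Submodule.Quotient.eq _).mpr fun α hα => ?_
        by_contra hB
        apply hα
        simp [hd, hB]
      · refine (Submodule.Quotient.eq _).mpr fun α hα => ?_
        have h5 : coeff α ((x : RR) - d - (y : RR)) ≠ 0 := hα
        have h6 : α ∉ B₁ := by
          intro hB
          apply h5
          simp [hd, hB]
        have h7 : coeff α ((x : RR) - (y : RR)) ≠ 0 := by simpa [hd, h6] using h5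
        exact ((h₃ α ((x - y).2 h7)).mp (h α h7)).resolve_left h6
    · rintro ⟨z, hz⟩
      obtain ⟨z, rfl⟩ := Submodule.Quotient.mk_surjective _ z
      have h1 := (Submodule.Quotient.eq _).mp (congrArg Prod.fst hz)
      have h2 := (Submodule.Quotient.eq _).mp (congrArg Prod.snd hz)
      have h3 := Submodule.sub_mem _ (rs_le (fun α hα h => (h₃ α hα).mpr (Or.inr h)) h2)
        (rs_le (fun α hα h => (h₃ α hα).mpr (Or.inl h)) h1)
      simpa using h3

/-- The swap of `u` and `w`. -/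
noncomputable def sw : RR →+* RR := (rename (R := ℂ) Sum.swap).toRingHom

@[simp] lemma sw_uu (i : Fin 4) : sw (uu i) = ww i := by simp [sw]

@[simp] lemma sw_ww (i : Fin 4) : sw (ww i) = uu i := by simp [sw]

@[simp] lemma sw_C (c : ℂ) : sw (C c) = C c := by simp [sw]

lemma sw_rho (s : SymRing 4) : sw (rho s) = rho s := by
  have : sw.comp rho = rho := by
    apply symRing_ext
    · intro c
      simp [rho_C]
    · intro i j
      simp [rho_gen]
      ring
  exact RingHom.congr_fun this s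

lemma sw_sw (f : RR) : sw (sw f) = f := by simp [sw, rename_rename]

/-- The swap on exponent vectors. -/
noncomputable def se (α : II →₀ ℕ) : II →₀ ℕ := Finsupp.mapDomain Sum.swap α

lemma se_apply (α : II →₀ ℕ) (s : II) : se α s = α s.swap := by
  conv_lhs => rw [← Sum.swap_swap s]
  exact Finsupp.mapDomain_apply Sum.swap_leftInverse.injective α _

lemma se_se (α : II →₀ ℕ) : se (se α) = α := by
  ext s
  simp [se_apply]

lemma coeff_sw (α : II →₀ ℕ) (f : RR) : coeff α (sw f) = coeff (se α) f := by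
  conv_lhs => rw [← se_se α]
  exact coeff_rename_mapDomain _ Sum.swap_leftInverse.injective f _

lemma wt_eq (α : II →₀ ℕ) : wt α = ∑ i, (α (Sum.inl i) : ℤ) - ∑ i, (α (Sum.inr i) : ℤ) := by
  simp [Finsupp.weight_eq_sum, wv, sub_eq_add_neg]

lemma wt_se (α : II →₀ ℕ) : wt (se α) = - wt α := by
  simp [wt_eq, se_apply]

lemma sw_mem {k : ℤ} {f : RR} (h : f ∈ TW k) : sw f ∈ TW (-k) := by
  intro α hα
  rw [coeff_sw] at hα
  have := h hα
  rw [← this, ← wt, ← wt, wt_se, neg_neg]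

/-- The swap as a linear map. -/
noncomputable def swL : RR →ₗ[SymRing 4] RR where
  toFun := sw
  map_add' := map_add sw
  map_smul' s x := by simp [smul_RR, sw_rho]

/-- The swap on weight zero. -/
noncomputable def swT : TW 0 →ₗ[SymRing 4] TW 0 := 
  swL.restrict fun _ hx => (neg_zero (G := ℤ)) ▸ sw_mem hx

lemma swT_coe (x : TW 0) : (swT x : RR) = sw x := rfl

/-- The swap on weight zero quotients. -/
noncomputable def sm {B₁ B₂ : UpperSet (II →₀ ℕ)} (h : ∀ α, se α ∈ B₁ → α ∈ B₂) :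
    NN B₁ 0 →ₗ[SymRing 4] NN B₂ 0 :=
  Submodule.mapQ _ _ swT fun x hx α hα => h α (hx _ (by rwa [← coeff_sw]))

lemma sm_mk {B₁ B₂ : UpperSet (II →₀ ℕ)} (h : ∀ α, se α ∈ B₁ → α ∈ B₂) (x : TW 0) :
    sm h (Submodule.Quotient.mk x) = Submodule.Quotient.mk (swT x) := rfl

lemma TW_le {k : ℤ} {K : Submodule (SymRing 4) RR} (h : ∀ α, wt α = k → monomial α 1 ∈ K) :
    TW k ≤ K := by
  intro f hf
  rw [f.as_sum]
  refine K.sum_mem fun α hα => ?_
  have : monomial α (coeff α f) = (C (coeff α f) : SymRing 4) • monomial α (1 : ℂ) := by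
    rw [smul_RR, rho_C, C_mul_monomial, mul_one]
  rw [this]
  exact K.smul_mem _ (h α (hf (mem_support_iff.mp hα)))

lemma exists_u {α : II →₀ ℕ} (h : 0 < wt α) : ∃ i, α (Sum.inl i) ≠ 0 := by
  by_contra h'
  push Not at h'
  rw [wt_eq] at h
  simp only [h', Nat.cast_zero, Finset.sum_const_zero, zero_sub] at h
  have : 0 ≤ ∑ i, (α (Sum.inr i) : ℤ) := Finset.sum_nonneg fun _ _ => Nat.cast_nonneg _
  omega

lemma exists_w {α : II →₀ ℕ} (h : wt α < 0) : ∃ i, α (Sum.inr i) ≠ 0 := by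
  have := exists_u (α := se α) (by rw [wt_se]; omega)
  simpa [se_apply] using this

lemma split_exp {α : II →₀ ℕ} {s : II} (h : α s ≠ 0) : ∃ β, α = Finsupp.single s 1 + β := by
  refine ⟨α - Finsupp.single s 1, ?_⟩
  rw [add_comm, tsub_add_cancel_of_le]
  rw [Finsupp.single_le_iff]
  exact Nat.one_le_iff_ne_zero.mpr h

lemma wt_u (i : Fin 4) : wt (Finsupp.single (Sum.inl i) 1) = 1 := by
  simp [Finsupp.weight_single, wv]

lemma wt_w (i : Fin 4) : wt (Finsupp.single (Sum.inr i) 1) = -1 := by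
  simp [Finsupp.weight_single, wv]

lemma exists_uw {α : II →₀ ℕ} (h : wt α = 0) (h0 : α ≠ 0) :
    ∃ i j β, wt β = 0 ∧ α = Finsupp.single (Sum.inl i) 1 + (Finsupp.single (Sum.inr j) 1 + β) := by
  obtain ⟨s, β, rfl⟩ := exists_single_add h0
  cases s with
  | inl i =>
    rw [wt, map_add, ← wt, wt_u] at h
    obtain ⟨j, hj⟩ := exists_w (α := β) (by rw [wt]; omega)
    obtain ⟨γ, rfl⟩ := split_exp hj
    rw [map_add, ← wt, wt_w] at h
    exact ⟨i, j, γ, by rw [wt]; omega, rfl⟩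
  | inr j =>
    rw [wt, map_add, ← wt, wt_w] at h
    obtain ⟨i, hi⟩ := exists_u (α := β) (by rw [wt]; omega)
    obtain ⟨γ, rfl⟩ := split_exp hi
    rw [map_add, ← wt, wt_u] at h
    exact ⟨i, j, γ, by rw [wt]; omega, add_left_comm _ _ _⟩

/-- The Plücker coordinates. -/
noncomputable def pl (i j : Fin 4) : RR := uu i * ww j - uu j * ww i

lemma pl_mul (i j k l : Fin 4) : pl i j * pl k l =
    rho (genSym 4 i l * genSym 4 j k - genSym 4 i k * genSym 4 j l) := by
  simp only [map_sub, map_mul, rho_gen, pl]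
  ring

/-- The span of `1` and the Plücker coordinates. -/
noncomputable def Bsp : Submodule (SymRing 4) RR :=
  Submodule.span _ (insert 1 (Set.range fun q : Fin 4 × Fin 4 => pl q.1 q.2))

lemma rho_mem_Bsp (s : SymRing 4) : rho s ∈ Bsp := by
  have : (1 : RR) ∈ Bsp := Submodule.subset_span (Set.mem_insert _ _)
  simpa [smul_RR] using Bsp.smul_mem s this

lemma pl_mul_mem (i j : Fin 4) {f : RR} (hf : f ∈ Bsp) : pl i j * f ∈ Bsp := by
  induction hf using Submodule.span_induction with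
  | mem x hx =>
    rcases hx with rfl | ⟨q, rfl⟩
    · rw [mul_one]
      exact Submodule.subset_span (Set.mem_insert_of_mem _ ⟨(i, j), rfl⟩)
    · rw [pl_mul]
      exact rho_mem_Bsp _
  | zero => simp
  | add x y _ _ hx hy => rw [mul_add]; exact Bsp.add_mem hx hy
  | smul s x _ hx => rw [mul_smul_comm]; exact Bsp.smul_mem s hx

lemma half_RR : (C (1 / 2 : ℂ) : RR) * 2 = 1 := by
  rw [← map_ofNat (C : ℂ →+* RR) 2, ← map_mul]
  norm_num

lemma TW0_le : TW 0 ≤ Bsp := by
  refine TW_le fun α => ?_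
  induction h : Finsupp.degree α using Nat.strong_induction_on generalizing α with
  | _ n ih =>
    intro hα
    by_cases h0 : α = 0
    · subst h0
      exact Submodule.subset_span (Set.mem_insert _ _)
    · obtain ⟨i, j, β, hβ, rfl⟩ := exists_uw hα h0
      have h1 := ih _ (by rw [← h]; simp; omega) β rfl hβ
      rw [← X_mul_monomial', ← X_mul_monomial']
      have h2 := Bsp.smul_mem (C (1 / 2)) (Bsp.add_mem (Bsp.smul_mem (genSym 4 i j) h1)
        (pl_mul_mem i j h1))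
      convert h2 using 1
      rw [smul_RR, smul_RR, rho_C, rho_gen, pl]
      linear_combination (-(uu i * (ww j * monomial β 1))) * half_RR

lemma TW_fg_step {k k' : ℤ} (e : Fin 4 → II) (h : (TW k).FG)
    (h' : ∀ α, wt α = k' → ∃ i β, wt β = k ∧ α = Finsupp.single (e i) 1 + β) : (TW k').FG := by
  have h1 : (⨆ i, (TW k).map (LinearMap.mulLeft (SymRing 4) (X (e i) : RR))).FG :=
    Submodule.fg_iSup _ fun i => h.map _
  refine h1.of_le (TW_le fun α hα => ?_)
  obtain ⟨i, β, hβ, rfl⟩ := h' α hα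
  refine Submodule.mem_iSup_of_mem i ⟨monomial β 1, hβ ▸ hom_monomial β, ?_⟩
  exact X_mul_monomial' _ _ _

lemma TW_fg (k : ℤ) : (TW k).FG := by
  induction k using Int.induction_on with
  | zero =>
    exact (Submodule.fg_span ((Set.finite_range _).insert _)).of_le TW0_le
  | succ n ih =>
    refine TW_fg_step Sum.inl ih fun α hα => ?_
    obtain ⟨i, hi⟩ := exists_u (α := α) (by omega)
    obtain ⟨β, rfl⟩ := split_exp hi
    rw [wt, map_add, ← wt, wt_u] at hα
    exact ⟨i, β, by rw [wt]; omega, rfl⟩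
  | pred n ih =>
    refine TW_fg_step Sum.inr ih fun α hα => ?_
    obtain ⟨i, hi⟩ := exists_w (α := α) (by omega)
    obtain ⟨β, rfl⟩ := split_exp hi
    rw [wt, map_add, ← wt, wt_w] at hα
    exact ⟨i, β, by rw [wt]; omega, rfl⟩

instance (k : ℤ) : Module.Finite (SymRing 4) (TW k) := Module.Finite.iff_fg.mpr (TW_fg k)

end Pool.Agent.Lib.MP_8277d7_ag
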