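import Mathlib

/-! Local vanishing of `Ext^i(M,R)` at a prime: long exact sequence toolkit. -/

open CategoryTheory Abelian

namespace Pool.Agent.Lib.MP_8277d7_ag

variable {R : Type} [CommRing R]

/-- `Ext^i_R(M, N)` for unbundled modules. -/
abbrev EE (R : Type) [CommRing R] (M N : Type) [AddCommGroup M] [Module R M]
    [AddCommGroup N] [Module R N] (i : ℕ) : Type :=
  Ext (ModuleCat.of R M) (ModuleCat.of R N) i

section
variable {A B C D : Type} [AddCommGroup A] [Module R A] [AddCommGroup B] [Module R B]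
  [AddCommGroup C] [Module R C] [AddCommGroup D] [Module R D]

/-- A short exact sequence of modules. -/
structure SES (f : A →ₗ[R] B) (g : B →ₗ[R] C) : Prop where
  inj : Function.Injective f
  surj : Function.Surjective g
  ex : Function.Exact f g

/-- The short complex of a short exact sequence. -/
noncomputable abbrev SES.sc {f : A →ₗ[R] B} {g : B →ₗ[R] C} (h : SES f g) :
    ShortComplex (ModuleCat.{0} R) :=
  ShortComplex.mk (ModuleCat.ofHom f) (ModuleCat.ofHom g) (by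
    ext x
    exact h.ex.apply_apply_eq_zero x)

lemma SES.se {f : A →ₗ[R] B} {g : B →ₗ[R] C} (h : SES f g) : h.sc.ShortExact :=
  ModuleCat.shortComplex_shortExact _ h.ex h.inj h.surj

/-- The class of a linear map in `Ext^0`. -/
noncomputable def mk0 (f : A →ₗ[R] B) : EE R A B 0 := Ext.mk₀ (ModuleCat.ofHom f)

/-- The extension class. -/
noncomputable def SES.cls {f : A →ₗ[R] B} {g : B →ₗ[R] C} (h : SES f g) : EE R C A 1 :=
  h.se.extClass

lemma mk0_comp_mk0 (f : A →ₗ[R] B) (g : B →ₗ[R] C) :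
    (mk0 f).comp (mk0 g) (zero_add 0) = mk0 (g ∘ₗ f) := by
  simp [mk0, Ext.mk₀_comp_mk₀]

lemma mk0_smul (t : R) (f : A →ₗ[R] B) : mk0 (t • f) = t • mk0 f := by
  unfold mk0
  rw [← Ext.mk₀_smul]
  rfl

lemma mk0_add (f g : A →ₗ[R] B) : mk0 (f + g) = mk0 f + mk0 g := by
  unfold mk0
  rw [← Ext.mk₀_add]
  rfl

lemma mk0_neg (f : A →ₗ[R] B) : mk0 (-f) = - mk0 f := by
  unfold mk0
  rw [← Ext.mk₀_neg]
  rfl

lemma mk0_zero : mk0 (0 : A →ₗ[R] B) = 0 := by
  unfold mk0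
  exact Ext.mk₀_zero _ _

lemma mk0_id_comp {i : ℕ} (e : EE R A B i) :
    (mk0 (LinearMap.id : A →ₗ[R] A)).comp e (zero_add i) = e :=
  Ext.mk₀_id_comp e

lemma comp_mk0_id {i : ℕ} (e : EE R A B i) :
    e.comp (mk0 (LinearMap.id : B →ₗ[R] B)) (add_zero i) = e :=
  Ext.comp_mk₀_id e

lemma mk0_smul_id_comp (t : R) {i : ℕ} (e : EE R A B i) :
    (mk0 (t • (LinearMap.id : A →ₗ[R] A))).comp e (zero_add i) = t • e := by
  rw [mk0_smul, Ext.smul_comp, mk0_id_comp]

lemma mk0_mk0_comp (f : A →ₗ[R] B) (g : B →ₗ[R] C) {i : ℕ} (e : EE R C D i) :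
    (mk0 f).comp ((mk0 g).comp e (zero_add i)) (zero_add i) =
      (mk0 (g ∘ₗ f)).comp e (zero_add i) := by
  rw [← mk0_comp_mk0, Ext.comp_assoc _ _ _ (zero_add 0) (zero_add i) (by omega)]

lemma SES.exact1 {f : A →ₗ[R] B} {g : B →ₗ[R] C} (h : SES f g) {i : ℕ} (x : EE R A D i)
    (hx : h.cls.comp x (add_comm 1 i) = 0) :
    ∃ y : EE R B D i, (mk0 f).comp y (zero_add i) = x :=
  Ext.contravariant_sequence_exact₁ h.se _ x (add_comm 1 i) hx

lemma SES.exact2 {f : A →ₗ[R] B} {g : B →ₗ[R] C} (h : SES f g) {i : ℕ} (x : EE R B D i)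
    (hx : (mk0 f).comp x (zero_add i) = 0) :
    ∃ y : EE R C D i, (mk0 g).comp y (zero_add i) = x :=
  Ext.contravariant_sequence_exact₂ h.se _ x hx

lemma SES.exact3 {f : A →ₗ[R] B} {g : B →ₗ[R] C} (h : SES f g) {i : ℕ} (x : EE R C D (i + 1))
    (hx : (mk0 g).comp x (zero_add (i + 1)) = 0) :
    ∃ y : EE R A D i, h.cls.comp y (add_comm 1 i) = x :=
  Ext.contravariant_sequence_exact₃ h.se _ x hx (add_comm 1 i)

lemma SES.cls_comp_f {f : A →ₗ[R] B} {g : B →ₗ[R] C} (h : SES f g) :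
    h.cls.comp (mk0 f) (add_zero 1) = 0 := h.se.extClass_comp

lemma SES.g_comp_cls {f : A →ₗ[R] B} {g : B →ₗ[R] C} (h : SES f g) :
    (mk0 g).comp h.cls (zero_add 1) = 0 := h.se.comp_extClass

lemma SES.nat {A' B' C' : Type} [AddCommGroup A'] [Module R A'] [AddCommGroup B'] [Module R B']
    [AddCommGroup C'] [Module R C'] {f : A →ₗ[R] B} {g : B →ₗ[R] C} (h : SES f g)
    {f' : A' →ₗ[R] B'} {g' : B' →ₗ[R] C'} (h' : SES f' g')
    (a : A →ₗ[R] A') (b : B →ₗ[R] B') (c : C →ₗ[R] C')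
    (h1 : ∀ x, f' (a x) = b (f x)) (h2 : ∀ x, g' (b x) = c (g x)) :
    h.cls.comp (mk0 a) (add_zero 1) = (mk0 c).comp h'.cls (zero_add 1) :=
  ShortComplex.ShortExact.extClass_naturality h.se h'.se
    { τ₁ := ModuleCat.ofHom a
      τ₂ := ModuleCat.ofHom b
      τ₃ := ModuleCat.ofHom c
      comm₁₂ := by ext x; exact h1 x
      comm₂₃ := by ext x; exact h2 x }

end

/-- `Ext^i(M, R)` vanishes at the prime `n`. -/
def V (n : Ideal R) (i : ℕ) (M : Type) [AddCommGroup M] [Module R M] : Prop :=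
  ∃ t, t ∉ n ∧ ∀ e : EE R M R i, t • e = 0

section
variable {A B C : Type} [AddCommGroup A] [Module R A] [AddCommGroup B] [Module R B]
  [AddCommGroup C] [Module R C] {n : Ideal R}

lemma mul_notMem [hn : n.IsPrime] {s t : R} (hs : s ∉ n) (ht : t ∉ n) : s * t ∉ n :=
  fun h => (hn.mem_or_mem h).elim hs ht

lemma V_mid [n.IsPrime] {f : A →ₗ[R] B} {g : B →ₗ[R] C} (h : SES f g) {i : ℕ}
    (hC : V n i C) (hA : V n i A) : V n i B := by
  obtain ⟨s, hs, hC⟩ := hC
  obtain ⟨t, ht, hA⟩ := hA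
  refine ⟨s * t, mul_notMem hs ht, fun e => ?_⟩
  obtain ⟨y, hy⟩ := h.exact2 (t • e) (by rw [Ext.comp_smul, hA])
  rw [mul_smul, ← hy, ← Ext.comp_smul, hC, Ext.comp_zero]

lemma V_left [n.IsPrime] {f : A →ₗ[R] B} {g : B →ₗ[R] C} (h : SES f g) {i : ℕ}
    (hB : V n i B) (hC : V n (i + 1) C) : V n i A := by
  obtain ⟨s, hs, hB⟩ := hB
  obtain ⟨t, ht, hC⟩ := hC
  refine ⟨s * t, mul_notMem hs ht, fun e => ?_⟩
  obtain ⟨y, hy⟩ := h.exact1 (t • e) (by rw [Ext.comp_smul, hC])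
  rw [mul_smul, ← hy, ← Ext.comp_smul, hB, Ext.comp_zero]

lemma V_right [n.IsPrime] {f : A →ₗ[R] B} {g : B →ₗ[R] C} (h : SES f g) {i : ℕ}
    (hA : V n i A) (hB : V n (i + 1) B) : V n (i + 1) C := by
  obtain ⟨s, hs, hA⟩ := hA
  obtain ⟨t, ht, hB⟩ := hB
  refine ⟨s * t, mul_notMem hs ht, fun e => ?_⟩
  obtain ⟨y, hy⟩ := h.exact3 (t • e) (by rw [Ext.comp_smul, hB])
  rw [mul_smul, ← hy, ← Ext.comp_smul, hA, Ext.comp_zero]

lemma V_retract [n.IsPrime] (f : A →ₗ[R] B) (g : B →ₗ[R] A) {t : R} (ht : t ∉ n)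
    (hfg : ∀ x, g (f x) = t • x) {i : ℕ} (hB : V n i B) : V n i A := by
  obtain ⟨s, hs, hB⟩ := hB
  refine ⟨s * t, mul_notMem hs ht, fun e => ?_⟩
  have h1 : g ∘ₗ f = t • LinearMap.id := by ext x; simp [hfg]
  have h2 := mk0_mk0_comp f g e
  rw [h1, mk0_smul_id_comp] at h2
  rw [mul_smul, ← h2, ← Ext.comp_smul, hB, Ext.comp_zero]

lemma V_kill {t : R} (ht : t ∉ n) (h : ∀ x : A, t • x = 0) (i : ℕ) : V n i A := by
  refine ⟨t, ht, fun e => ?_⟩
  have h1 : t • (LinearMap.id : A →ₗ[R] A) = 0 := by ext x; simp [h]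
  rw [← mk0_smul_id_comp, h1, mk0_zero, Ext.zero_comp]

lemma nak_local [hn : n.IsPrime] {E : Type} [AddCommGroup E] [Module R E] [Module.Finite R E]
    {t z : R} (ht : t ∉ n) (hz : z ∈ n) (h : ∀ e : E, ∃ e' : E, t • e = z • e') :
    ∃ s, s ∉ n ∧ ∀ e : E, s • e = 0 := by
  let p : PrimeSpectrum R := ⟨n, hn⟩
  have h1 : p ∉ Module.support R (QuotSMulTop z E) := by
    rw [Module.mem_support_iff_of_finite]
    intro hle
    apply ht
    apply hle
    rw [Module.mem_annihilator]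
    intro m
    obtain ⟨m, rfl⟩ := Submodule.mkQ_surjective _ m
    obtain ⟨e', he'⟩ := h m
    rw [← map_smul, he', Submodule.mkQ_apply, Submodule.Quotient.mk_eq_zero]
    exact Submodule.smul_mem_pointwise_smul _ _ _ Submodule.mem_top
  rw [Module.support_quotSMulTop] at h1
  have h2 : p ∉ Module.support R E := fun h2 => h1 ⟨h2, by simpa [p] using hz⟩
  rw [Module.mem_support_iff_of_finite] at h2
  obtain ⟨s, hs1, hs2⟩ := Set.not_subset.mp h2
  exact ⟨s, hs2, Module.mem_annihilator.mp hs1⟩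

lemma V_nak [n.IsPrime] [IsNoetherianRing R] [Module.Finite R A] {z : R} (hz : z ∈ n)
    {g : A →ₗ[R] C} (h : SES (z • (LinearMap.id : A →ₗ[R] A)) g) {i : ℕ}
    (hC : V n (i + 1) C) : V n i A := by
  obtain ⟨t, ht, hC⟩ := hC
  refine nak_local ht hz fun e => ?_
  obtain ⟨y, hy⟩ := h.exact1 (t • e) (by rw [Ext.comp_smul, hC])
  exact ⟨y, by rw [← hy, mk0_smul_id_comp]⟩

lemma V_equiv [hn : n.IsPrime] (e : A ≃ₗ[R] B) {i : ℕ} (hB : V n i B) : V n i A :=
  V_retract e.toLinearMap e.symm.toLinearMap (t := 1) ((Ideal.ne_top_iff_one n).mp hn.ne_top)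
    (by simp) hB

end

/-- Short exact sequences of quotient modules. -/
lemma ses_quot {F₁ F₂ F₃ : Type} [AddCommGroup F₁] [Module R F₁] [AddCommGroup F₂] [Module R F₂]
    [AddCommGroup F₃] [Module R F₃] (K₁ : Submodule R F₁) (K₂ : Submodule R F₂)
    (K₃ : Submodule R F₃) (f : F₁ →ₗ[R] F₂) (g : F₂ →ₗ[R] F₃) (hf : K₁ ≤ K₂.comap f)
    (hg : K₂ ≤ K₃.comap g) (inj : ∀ x, f x ∈ K₂ → x ∈ K₁) (surj : ∀ z, ∃ y, z - g y ∈ K₃)
    (ex : ∀ y, g y ∈ K₃ ↔ ∃ x, y - f x ∈ K₂) : SES (K₁.mapQ K₂ f hf) (K₂.mapQ K₃ g hg) := by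
  refine ⟨?_, ?_, ?_⟩
  · rw [injective_iff_map_eq_zero]
    intro x hx
    obtain ⟨x, rfl⟩ := Submodule.Quotient.mk_surjective _ x
    rw [Submodule.mapQ_apply, Submodule.Quotient.mk_eq_zero] at hx
    exact (Submodule.Quotient.mk_eq_zero _).mpr (inj x hx)
  · intro z
    obtain ⟨z, rfl⟩ := Submodule.Quotient.mk_surjective _ z
    obtain ⟨y, hy⟩ := surj z
    refine ⟨Submodule.Quotient.mk y, ?_⟩
    rw [Submodule.mapQ_apply, eq_comm, Submodule.Quotient.eq]
    exact hy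
  · intro y
    obtain ⟨y, rfl⟩ := Submodule.Quotient.mk_surjective _ y
    rw [Submodule.mapQ_apply, Submodule.Quotient.mk_eq_zero, ex]
    constructor
    · rintro ⟨x, hx⟩
      refine ⟨Submodule.Quotient.mk x, ?_⟩
      rw [Submodule.mapQ_apply, eq_comm, Submodule.Quotient.eq]
      exact hx
    · rintro ⟨x, hx⟩
      obtain ⟨x, rfl⟩ := Submodule.Quotient.mk_surjective _ x
      rw [Submodule.mapQ_apply, eq_comm, Submodule.Quotient.eq] at hx
      exact ⟨x, hx⟩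

/-- The cut of a quotient module by a regular element. -/
lemma ses_cut {F : Type} [AddCommGroup F] [Module R F] (K K' : Submodule R F) (z : R)
    (hz : ∀ x, z • x ∈ K → x ∈ K) (hK : ∀ x, x ∈ K' ↔ ∃ y, x - z • y ∈ K) :
    ∃ g : (F ⧸ K) →ₗ[R] (F ⧸ K'), SES (z • (LinearMap.id : (F ⧸ K) →ₗ[R] (F ⧸ K))) g := by
  have hle : K ≤ K' := fun x hx => (hK x).mpr ⟨0, by simpa using hx⟩
  have h1 : K ≤ K.comap (z • (LinearMap.id : F →ₗ[R] F)) := fun x hx => K.smul_mem z hx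
  have h := ses_quot K K K' (z • (LinearMap.id : F →ₗ[R] F)) LinearMap.id h1 hle hz
    (fun x => ⟨x, by simp⟩) hK
  have h2 : K.mapQ K (z • (LinearMap.id : F →ₗ[R] F)) h1 = z • LinearMap.id := by
    ext x
    simp
  rw [h2] at h
  exact ⟨_, h⟩

lemma ses_cut_ideal (J : Ideal R) (z : R) (hz : ∀ x, z * x ∈ J → x ∈ J) :
    ∃ g : (R ⧸ J) →ₗ[R] (R ⧸ (J ⊔ Ideal.span {z})),
      SES (z • (LinearMap.id : (R ⧸ J) →ₗ[R] (R ⧸ J))) g := by
  refine ses_cut J (J ⊔ Ideal.span {z}) z hz fun x => ?_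
  rw [Submodule.mem_sup]
  constructor
  · rintro ⟨a, ha, b, hb, rfl⟩
    obtain ⟨c, rfl⟩ := Ideal.mem_span_singleton'.mp hb
    exact ⟨c, by simpa [mul_comm] using ha⟩
  · rintro ⟨y, hy⟩
    exact ⟨_, hy, z * y, Ideal.mul_mem_right _ _ (Ideal.mem_span_singleton_self z), by simp⟩

/-- Bass-type lemma. -/
lemma V_big [IsNoetherianRing R] {n : Ideal R} [hn : n.IsPrime] {k : ℕ}
    (H : ∀ i, k < i → V n i (R ⧸ n)) (M : Type) [AddCommGroup M] [Module R M]
    [hM : Module.Finite R M] : ∀ i, k < i → V n i M := by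
  have one : (1 : R) ∉ n := (Ideal.ne_top_iff_one n).mp hn.ne_top
  have key : ∀ a : Ideal R, (∀ p : Ideal R, p.IsPrime → a ≤ p → ∀ i, k < i → V n i (R ⧸ p)) →
      ∀ (N : Type) [AddCommGroup N] [Module R N] [Module.Finite R N],
        (∀ r ∈ a, ∀ x : N, r • x = 0) → ∀ i, k < i → V n i N := by
    intro a ha N _ _ hN
    induction hN using IsNoetherianRing.induction_on_isQuotientEquivQuotientPrime R with
    | subsingleton N => exact fun _ i _ => V_kill one (fun x => Subsingleton.elim _ _) i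
    | quotient N p f =>
      intro h i hi
      refine V_equiv f (ha p.1 p.2 (fun r hr => ?_) i hi)
      have := h r hr (f.symm 1)
      rw [← map_smul, f.symm.map_eq_zero_iff, Algebra.smul_def, mul_one] at this
      exact Ideal.Quotient.eq_zero_iff_mem.mp this
    | exact N₁ N₂ N₃ f g hf hg hfg h₁ h₃ =>
      intro h i hi
      refine V_mid ⟨hf, hg, hfg⟩ (h₃ (fun r hr x => ?_) i hi) (h₁ (fun r hr x => ?_) i hi)
      · obtain ⟨x, rfl⟩ := hg x
        rw [← map_smul, h r hr, map_zero]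
      · apply hf
        rw [map_smul, h r hr, map_zero]
  have prime : ∀ p : Ideal R, p.IsPrime → ∀ i, k < i → V n i (R ⧸ p) := by
    intro p
    induction p using IsNoetherian.induction with
    | hgt p ih =>
      intro hp i hi
      by_cases h1 : p ≤ n
      · by_cases h2 : n ≤ p
        · obtain rfl := le_antisymm h1 h2
          exact H i hi
        · obtain ⟨z, hz1, hz2⟩ := Set.not_subset.mp h2
          obtain ⟨g, hg⟩ := ses_cut_ideal p z fun x hx => (hp.mem_or_mem hx).resolve_left hz2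
          refine V_nak hz1 hg (key (p ⊔ Ideal.span {z}) (fun q hq hle => ih q ?_ hq) _ ?_ _ (by omega))
          · refine lt_of_le_of_ne (le_sup_left.trans hle) ?_
            rintro rfl
            exact hz2 (hle (Ideal.mem_sup_right (Ideal.mem_span_singleton_self z)))
          · intro r hr x
            obtain ⟨x, rfl⟩ := Ideal.Quotient.mk_surjective x
            rw [Algebra.smul_def, Ideal.Quotient.algebraMap_eq, Ideal.Quotient.eq_zero_iff_mem.mpr hr,
              zero_mul]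
      · obtain ⟨t, ht1, ht2⟩ := Set.not_subset.mp h1
        refine V_kill ht2 (fun x => ?_) i
        rw [Algebra.smul_def, Ideal.Quotient.algebraMap_eq, Ideal.Quotient.eq_zero_iff_mem.mpr ht1,
          zero_mul]
  exact key ⊥ (fun p hp _ => prime p hp) M (by simp)

end Pool.Agent.Lib.MP_8277d7_ag
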