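import Pool.Agent.Lib.MP_8277d7_ag.Tool

/-! Regular sequences, grade, abstract depth theories. -/

open CategoryTheory Abelian

namespace Pool.Agent.Lib.MP_8277d7_ag

variable {R : Type} [CommRing R]

/-- `z` is a nonzero divisor modulo `J`. -/
def Reg (J : Ideal R) (z : R) : Prop := ∀ x, z * x ∈ J → x ∈ J

/-- Weakly regular sequences modulo an ideal. -/
def RegSeq : Ideal R → List R → Prop
  | _, [] => True
  | J, z :: zs => Reg J z ∧ RegSeq (J ⊔ Ideal.span {z}) zs

/-- Adding a list of elements to an ideal. -/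
def addL : Ideal R → List R → Ideal R
  | J, [] => J
  | J, z :: zs => addL (J ⊔ Ideal.span {z}) zs

lemma addL_eq (J : Ideal R) (zs : List R) : addL J zs = J ⊔ Ideal.span {z | z ∈ zs} := by
  induction zs generalizing J with
  | nil => simp [addL]
  | cons z zs ih =>
    rw [addL, ih, sup_assoc, ← Ideal.span_union]
    congr 2
    ext x
    simp

lemma grade_aux {M : Type} [AddCommGroup M] [Module R M] (zs : List R) :
    ∀ J : Ideal R, RegSeq J zs → (∀ z ∈ zs, ∃ N : ℕ, ∀ x : M, z ^ N • x = 0) →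
      ∀ i, i < zs.length → ∀ e : EE R M (R ⧸ J) i, e = 0 := by
  induction zs with
  | nil => intro J _ _ i hi; simp at hi
  | cons z zs ih =>
    intro J hJ hM i hi
    obtain ⟨g, hg⟩ := ses_cut_ideal J z hJ.1
    have hinj : ∀ e : EE R M (R ⧸ J) i, z • e = 0 → e = 0 := by
      intro e he
      have he' : e.comp (mk0 (z • (LinearMap.id : (R ⧸ J) →ₗ[R] (R ⧸ J)))) (add_zero i) = 0 := by
        rw [mk0_smul, Ext.comp_smul, comp_mk0_id, he]
      cases i with
      | zero =>
        have := hg.se.mono_f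
        exact Ext.postcomp_mk₀_injective_of_mono (ModuleCat.of R M) hg.sc.f
          (a₁ := e) (a₂ := 0) (by rw [map_zero]; exact he')
      | succ i =>
        obtain ⟨y, hy⟩ := Ext.covariant_sequence_exact₁ (ModuleCat.of R M) hg.se e he' rfl
        have := ih _ hJ.2 (fun w hw => hM w (List.mem_cons_of_mem _ hw)) i (by simpa using hi) y
        rw [← hy, this, Ext.zero_comp]
    obtain ⟨N, hN⟩ := hM z List.mem_cons_self
    have hk : ∀ N : ℕ, ∀ e : EE R M (R ⧸ J) i, z ^ N • e = 0 → e = 0 := by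
      intro N
      induction N with
      | zero => intro e he; simpa using he
      | succ N ihN =>
        intro e he
        rw [pow_succ', mul_smul] at he
        exact ihN e (hinj _ he)
    intro e
    apply hk N
    have h1 : z ^ N • (LinearMap.id : M →ₗ[R] M) = 0 := by ext x; simp [hN]
    rw [← mk0_smul_id_comp, h1, mk0_zero, Ext.zero_comp]

lemma grade_zero {M : Type} [AddCommGroup M] [Module R M] (zs : List R) (h : RegSeq ⊥ zs)
    (hM : ∀ z ∈ zs, ∃ N : ℕ, ∀ x : M, z ^ N • x = 0) {i : ℕ} (hi : i < zs.length)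
    (e : EE R M R i) : e = 0 := by
  let φ : (R ⧸ (⊥ : Ideal R)) ≃ₗ[R] R := Submodule.quotEquivOfEqBot _ rfl
  have h1 := grade_aux zs ⊥ h hM i hi (e.comp (mk0 φ.symm.toLinearMap) (add_zero i))
  have h2 : (e.comp (mk0 φ.symm.toLinearMap) (add_zero i)).comp (mk0 φ.toLinearMap) (add_zero i)
      = e := by
    rw [Ext.comp_assoc _ _ _ (add_zero i) (zero_add 0) (by omega), mk0_comp_mk0]
    have : φ.toLinearMap ∘ₗ φ.symm.toLinearMap = LinearMap.id := by ext; simp
    rw [this, comp_mk0_id]
  rw [← h2, h1, Ext.zero_comp]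

lemma V_grade {n : Ideal R} [hn : n.IsPrime] {M : Type} [AddCommGroup M] [Module R M]
    (zs : List R) (h : RegSeq ⊥ zs)
    (hM : ∀ z ∈ zs, ∃ N : ℕ, ∀ x : M, z ^ N • x = 0) {i : ℕ} (hi : i < zs.length) : V n i M :=
  ⟨1, (Ideal.ne_top_iff_one n).mp hn.ne_top, fun e => by rw [grade_zero zs h hM hi e, smul_zero]⟩

/-- An abstract depth theory at the ideal `n` with top degree `k`. -/
structure DT (R : Type) [CommRing R] (n : Ideal R) (k : ℕ) where
  W : ℕ → ∀ (M : Type) [AddCommGroup M] [Module R M], Prop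
  one : (1 : R) ∉ n
  mid : ∀ {A B C : Type} [AddCommGroup A] [Module R A] [AddCommGroup B] [Module R B]
    [AddCommGroup C] [Module R C] {f : A →ₗ[R] B} {g : B →ₗ[R] C}, SES f g → ∀ {i : ℕ},
    W i C → W i A → W i B
  left : ∀ {A B C : Type} [AddCommGroup A] [Module R A] [AddCommGroup B] [Module R B]
    [AddCommGroup C] [Module R C] {f : A →ₗ[R] B} {g : B →ₗ[R] C}, SES f g → ∀ {i : ℕ},
    W i B → W (i + 1) C → W i A
  right : ∀ {A B C : Type} [AddCommGroup A] [Module R A] [AddCommGroup B] [Module R B]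
    [AddCommGroup C] [Module R C] {f : A →ₗ[R] B} {g : B →ₗ[R] C}, SES f g → ∀ {i : ℕ},
    W i A → W (i + 1) B → W (i + 1) C
  retract : ∀ {A B : Type} [AddCommGroup A] [Module R A] [AddCommGroup B] [Module R B]
    (f : A →ₗ[R] B) (g : B →ₗ[R] A), (∀ x, g (f x) = x) → ∀ {i : ℕ}, W i B → W i A
  kill : ∀ {A : Type} [AddCommGroup A] [Module R A] {t : R}, t ∉ n → (∀ x : A, t • x = 0) →
    ∀ i, W i A
  nak : ∀ {A C : Type} [AddCommGroup A] [Module R A] [AddCommGroup C] [Module R C]
    [Module.Finite R A] {z : R}, z ∈ n → ∀ {g : A →ₗ[R] C},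
    SES (z • (LinearMap.id : A →ₗ[R] A)) g → ∀ {i : ℕ}, W (i + 1) C → W i A
  big : ∀ (M : Type) [AddCommGroup M] [Module R M] [Module.Finite R M] (i : ℕ), k < i → W i M
  small : ∀ (M : Type) [AddCommGroup M] [Module R M],
    (∀ z ∈ n, ∃ N : ℕ, ∀ x : M, z ^ N • x = 0) → ∀ i, i < k → W i M
  top : ¬ W k (R ⧸ n)

lemma V_cutfwd {n : Ideal R} [n.IsPrime] (zs : List R) : ∀ (J : Ideal R) (p : ℕ), RegSeq J zs →
    (∀ i, p ≤ i → V n i (R ⧸ J)) → ∀ i, p + zs.length ≤ i → V n i (R ⧸ addL J zs) := by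
  induction zs with
  | nil => intro J p _ h i hi; exact h i (by simpa using hi)
  | cons z zs ih =>
    intro J p hJ h i hi
    obtain ⟨g, hg⟩ := ses_cut_ideal J z hJ.1
    refine ih _ (p + 1) hJ.2 (fun j hj => ?_) i (by simp at hi; omega)
    obtain ⟨j, rfl⟩ : ∃ j', j = j' + 1 := ⟨j - 1, by omega⟩
    exact V_right hg (h j (by omega)) (h (j + 1) (by omega))

lemma V_uncut [IsNoetherianRing R] {n : Ideal R} [n.IsPrime] (zs : List R) :
    ∀ (J : Ideal R) (i : ℕ), RegSeq J zs → (∀ z ∈ zs, z ∈ n) →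
      V n (i + zs.length) (R ⧸ addL J zs) → V n i (R ⧸ J) := by
  induction zs with
  | nil => intro J i _ _ h; exact h
  | cons z zs ih =>
    intro J i hJ hz h
    obtain ⟨g, hg⟩ := ses_cut_ideal J z hJ.1
    refine V_nak (hz z List.mem_cons_self) hg (ih _ _ hJ.2
      (fun w hw => hz w (List.mem_cons_of_mem _ hw)) ?_)
    have : i + 1 + zs.length = i + (z :: zs).length := by simp; omega
    rw [this]
    exact h

lemma V_self_pos {n : Ideal R} [hn : n.IsPrime] (i : ℕ) : V n (i + 1) R := by
  refine ⟨1, (Ideal.ne_top_iff_one n).mp hn.ne_top, fun e => ?_⟩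
  have := Ext.subsingleton_of_projective (ModuleCat.of R R) (ModuleCat.of R R) i
  exact Subsingleton.elim _ _

lemma not_V_self {n : Ideal R} : ¬ V n 0 R := by
  rintro ⟨t, ht, h⟩
  have h1 := h (mk0 LinearMap.id)
  rw [← mk0_smul] at h1
  have h2 : ModuleCat.ofHom (t • (LinearMap.id : R →ₗ[R] R)) = 0 := by
    apply Ext.addEquiv₀.symm.injective
    rw [map_zero]
    exact h1
  have h3 := congrArg (fun φ => φ.hom 1) h2
  simp at h3
  exact ht (h3 ▸ n.zero_mem)

/-- The depth theory given by `V` at a prime generated by a regular sequence. -/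
def DT.ofV [IsNoetherianRing R] (n : Ideal R) [hn : n.IsPrime] (zs : List R) (h : RegSeq ⊥ zs)
    (hz : addL ⊥ zs = n) : DT R n zs.length where
  W i M := V n i M
  one := (Ideal.ne_top_iff_one n).mp hn.ne_top
  mid h := V_mid h
  left h := V_left h
  right h := V_right h
  retract f g h := V_retract f g ((Ideal.ne_top_iff_one n).mp hn.ne_top) (by simpa using h)
  kill ht h := V_kill ht h
  nak hz _ h := V_nak hz h
  big M _ _ _ := by
    refine V_big (fun i hi => ?_) M
    have := V_cutfwd (n := n) zs ⊥ 1 h (fun j hj => ?_) i (by omega)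
    · rwa [hz] at this
    · obtain ⟨j, rfl⟩ : ∃ j', j = j' + 1 := ⟨j - 1, by omega⟩
      exact V_equiv (Submodule.quotEquivOfEqBot _ rfl) (V_self_pos j)
  small M _ _ hM i hi := by
    refine V_grade zs h (fun z hz' => hM z ?_) hi
    rw [← hz, addL_eq]
    exact Ideal.mem_sup_right (Ideal.subset_span hz')
  top := by
    intro ht
    have hmem : ∀ z ∈ zs, z ∈ n := fun z hz' => by
      rw [← hz, addL_eq]
      exact Ideal.mem_sup_right (Ideal.subset_span hz')
    have := V_uncut (n := n) zs ⊥ 0 h hmem (by rw [hz, zero_add]; exact ht)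
    exact not_V_self (V_equiv (Submodule.quotEquivOfEqBot (⊥ : Ideal R) rfl).symm this)

/-- Restriction of scalars as a type synonym. -/
def Res {R' : Type} [CommRing R'] (_φ : R →+* R') (M : Type) : Type := M

section
variable {R' : Type} [CommRing R'] (φ : R →+* R')

instance (M : Type) [h : AddCommGroup M] : AddCommGroup (Res φ M) := h

instance (M : Type) [AddCommGroup M] [Module R' M] : Module R (Res φ M) := Module.compHom M φ

/-- Restriction of scalars on maps. -/
def Res.map {A B : Type} [AddCommGroup A] [Module R' A] [AddCommGroup B] [Module R' B]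
    (f : A →ₗ[R'] B) : Res φ A →ₗ[R] Res φ B where
  toFun := f
  map_add' := f.map_add
  map_smul' r x := f.map_smul (φ r) x

lemma Res.ses {A B C : Type} [AddCommGroup A] [Module R' A] [AddCommGroup B] [Module R' B]
    [AddCommGroup C] [Module R' C] {f : A →ₗ[R'] B} {g : B →ₗ[R'] C} (h : SES f g) :
    SES (Res.map φ f) (Res.map φ g) := ⟨h.inj, h.surj, h.ex⟩

lemma Res.finite (hφ : Function.Surjective φ) (M : Type) [AddCommGroup M] [Module R' M]
    [Module.Finite R' M] : Module.Finite R (Res φ M) := by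
  obtain ⟨s, hs⟩ := Module.Finite.fg_top (R := R') (M := M)
  refine ⟨⟨s, ?_⟩⟩
  rw [eq_top_iff]
  have key : ∀ x : M, x ∈ Submodule.span R' (s : Set M) →
      (show Res φ M from x) ∈ Submodule.span R (M := Res φ M) (s : Set M) := by
    intro x hx
    induction hx using Submodule.span_induction with
    | mem x hx => exact Submodule.subset_span hx
    | zero => exact Submodule.zero_mem _
    | add x y _ _ hx hy => exact Submodule.add_mem _ hx hy
    | smul r x _ hx =>
      obtain ⟨r, rfl⟩ := hφ r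
      exact Submodule.smul_mem (Submodule.span R (M := Res φ M) (s : Set M)) r hx
  intro x _
  exact key x (hs ▸ Submodule.mem_top)

/-- The structure map to a restricted quotient. -/
def Res.toQuot (J : Ideal R') : R →ₗ[R] Res φ (R' ⧸ J) where
  toFun r := (Ideal.Quotient.mk J (φ r) : R' ⧸ J)
  map_add' x y := by rw [map_add, map_add]; rfl
  map_smul' r x := by
    rw [smul_eq_mul, map_mul, map_mul]
    rfl

lemma Res.toQuot_eq_zero (J : Ideal R') (r : R) : Res.toQuot φ J r = 0 ↔ φ r ∈ J :=
  Ideal.Quotient.eq_zero_iff_mem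

/-- The quotient by an ideal, as a module over the source of a surjection. -/
noncomputable def Res.quotEquiv (hφ : Function.Surjective φ) (J : Ideal R') :
    (R ⧸ J.comap φ) ≃ₗ[R] Res φ (R' ⧸ J) :=
  LinearEquiv.ofBijective
    ((J.comap φ).liftQ (Res.toQuot φ J) (fun x hx => (Res.toQuot_eq_zero φ J x).mpr hx))
    ⟨by
      rw [injective_iff_map_eq_zero]
      intro x hx
      obtain ⟨x, rfl⟩ := Submodule.Quotient.mk_surjective _ x
      exact (Submodule.Quotient.mk_eq_zero _).mpr ((Res.toQuot_eq_zero φ J x).mp hx),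
     by
      intro y
      obtain ⟨y, rfl⟩ := Ideal.Quotient.mk_surjective (I := J) y
      obtain ⟨y, rfl⟩ := hφ y
      exact ⟨Submodule.Quotient.mk y, rfl⟩⟩

/-- Restriction of a depth theory along a surjection. -/
def DT.res {n' : Ideal R'} {k : ℕ} (D : DT R (n'.comap φ) k) (hφ : Function.Surjective φ) :
    DT R' n' k where
  W i M := D.W i (Res φ M)
  one := fun h => D.one (by simpa using h)
  mid h := D.mid (Res.ses φ h)
  left h := D.left (Res.ses φ h)
  right h := D.right (Res.ses φ h)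
  retract f g h := D.retract (Res.map φ f) (Res.map φ g) h
  kill {A _ _ t} ht h := by
    obtain ⟨t, rfl⟩ := hφ t
    exact D.kill (A := Res φ A) (t := t) ht h
  nak {A C _ _ _ _ _ z} hz g h := by
    obtain ⟨z, rfl⟩ := hφ z
    have := Res.finite φ hφ A
    intro i
    exact D.nak (A := Res φ A) (z := z) hz (g := Res.map φ g) (Res.ses φ h)
  big M _ _ _ := by
    have := Res.finite φ hφ M
    exact D.big (Res φ M)
  small M _ _ h := by
    refine D.small (Res φ M) fun z hz => ?_
    obtain ⟨N, hN⟩ := h (φ z) hz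
    exact ⟨N, fun x => by rw [← map_pow] at hN; exact hN x⟩
  top := fun h => D.top (D.retract (Res.quotEquiv φ hφ n').toLinearMap
    (Res.quotEquiv φ hφ n').symm.toLinearMap (by simp) h)

end

lemma DT.equiv {n : Ideal R} {k : ℕ} (D : DT R n k) {A B : Type} [AddCommGroup A] [Module R A]
    [AddCommGroup B] [Module R B] (e : A ≃ₗ[R] B) {i : ℕ} (h : D.W i B) : D.W i A :=
  D.retract e.toLinearMap e.symm.toLinearMap (by simp) h

end Pool.Agent.Lib.MP_8277d7_ag
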