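import Pool.Agent.Lib.MP_8277d7_ag.Tool2

/-! Transfer along automorphisms, subquotients, cuts of pairs. -/

open CategoryTheory Abelian

namespace Pool.Agent.Lib.MP_8277d7_ag

variable {R : Type} [CommRing R]

lemma V_transfer (σ : R ≃+* R) {A B : Type} [AddCommGroup A] [Module R A] [AddCommGroup B]
    [Module R B] (a : A ≃+ B) (ha : ∀ (r : R) (x : A), a (r • x) = σ r • a x) {n : Ideal R}
    {i : ℕ} (h : V (n.comap σ) i A) : V n i B := by
  obtain ⟨t, ht, h⟩ := h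
  refine ⟨σ t, ht, fun e => ?_⟩
  let F := ModuleCat.restrictScalars.{0} σ.toRingHom
  have hinj := (F.mapExt_bijective_of_preservesProjectiveObjects (ModuleCat.of R B)
    (ModuleCat.of R R) i).1
  let α : A ≃ₗ[R] Res σ.toRingHom B :=
    { toFun := a, invFun := a.symm, map_add' := a.map_add, map_smul' := ha,
      left_inv := a.left_inv, right_inv := a.right_inv }
  let β : R ≃ₗ[R] Res σ.toRingHom R :=
    { toFun := σ, invFun := σ.symm, map_add' := σ.map_add, map_smul' := σ.map_mul,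
      left_inv := σ.left_inv, right_inv := σ.right_inv }
  apply hinj
  rw [map_zero, Functor.mapExtAddHom_apply, Ext.smul_eq_comp_mk₀, Ext.mapExactFunctor_comp,
    Ext.mapExactFunctor_mk₀]
  have h1 : F.map (σ t • 𝟙 (ModuleCat.of R R)) = t • 𝟙 _ := by
    ext x
    rfl
  rw [h1, ← Ext.smul_eq_comp_mk₀]
  have key : ∀ e' : EE R (Res σ.toRingHom B) (Res σ.toRingHom R) i, t • e' = 0 := by
    intro e'
    have h2 := h ((mk0 α.toLinearMap).comp (e'.comp (mk0 β.symm.toLinearMap) (add_zero i))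
      (zero_add i))
    have h3 : e' = (mk0 α.symm.toLinearMap).comp (((mk0 α.toLinearMap).comp
        (e'.comp (mk0 β.symm.toLinearMap) (add_zero i)) (zero_add i)).comp (mk0 β.toLinearMap)
        (add_zero i)) (zero_add i) := by
      rw [Ext.comp_assoc _ _ _ (zero_add i) (add_zero i) (by omega), mk0_mk0_comp,
        Ext.comp_assoc _ _ _ (add_zero i) (zero_add 0) (by omega), mk0_comp_mk0]
      have e1 : α.toLinearMap ∘ₗ α.symm.toLinearMap = LinearMap.id :=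
        LinearMap.ext fun x => α.apply_symm_apply x
      have e2 : β.toLinearMap ∘ₗ β.symm.toLinearMap = LinearMap.id :=
        LinearMap.ext fun x => β.apply_symm_apply x
      rw [e1, e2, comp_mk0_id, mk0_id_comp]
    rw [h3, ← Ext.comp_smul, ← Ext.smul_comp, h2, Ext.zero_comp, Ext.comp_zero]
  exact key (e.mapExactFunctor F)

/-- The subquotient `K₁ / (K₁ ∩ K₂)`. -/
abbrev SQ {F : Type} [AddCommGroup F] [Module R F] (K₁ K₂ : Submodule R F) : Type :=
  K₁ ⧸ K₂.comap K₁.subtype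

section
variable {F : Type} [AddCommGroup F] [Module R F]

lemma sq_ses3 {K₁ K₂ K₃ : Submodule R F} (h₁ : K₂ ≤ K₁) (h₂ : K₃ ≤ K₂) :
    ∃ (f : SQ K₂ K₃ →ₗ[R] SQ K₁ K₃) (g : SQ K₁ K₃ →ₗ[R] SQ K₁ K₂), SES f g := by
  have H := ses_quot (K₃.comap K₂.subtype) (K₃.comap K₁.subtype) (K₂.comap K₁.subtype)
    (Submodule.inclusion h₁) LinearMap.id (fun _ hx => hx)
    (fun _ hx => h₂ hx) (fun _ hx => hx) (fun z => ⟨z, by simp⟩) (fun y => by
      constructor
      · intro hy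
        exact ⟨⟨y, hy⟩, by simp⟩
      · rintro ⟨x, hx⟩
        have h3 : (y : F) - x ∈ K₂ := h₂ hx
        have h4 := K₂.add_mem h3 x.2
        simpa using h4)
  exact ⟨_, _, H⟩

lemma sq_ses_top {K₂ K₃ : Submodule R F} (h₂ : K₃ ≤ K₂) :
    ∃ (f : SQ K₂ K₃ →ₗ[R] (F ⧸ K₃)) (g : (F ⧸ K₃) →ₗ[R] (F ⧸ K₂)), SES f g := by
  have H := ses_quot (K₃.comap K₂.subtype) K₃ K₂ K₂.subtype LinearMap.id (fun _ hx => hx)
    (fun _ hx => h₂ hx) (fun _ hx => hx) (fun z => ⟨z, by simp⟩) (fun y => by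
      constructor
      · intro hy
        exact ⟨⟨y, hy⟩, by simp⟩
      · rintro ⟨x, hx⟩
        have h3 : (y : F) - x ∈ K₂ := h₂ hx
        have h4 := K₂.add_mem h3 x.2
        simpa using h4)
  exact ⟨_, _, H⟩

/-- Isomorphisms of quotient modules. -/
noncomputable def quotEquiv {F₁ F₂ : Type} [AddCommGroup F₁] [Module R F₁] [AddCommGroup F₂]
    [Module R F₂] (K₁ : Submodule R F₁) (K₂ : Submodule R F₂) (f : F₁ →ₗ[R] F₂)
    (hf : ∀ x, x ∈ K₁ ↔ f x ∈ K₂) (surj : ∀ z, ∃ y, z - f y ∈ K₂) : (F₁ ⧸ K₁) ≃ₗ[R] (F₂ ⧸ K₂) :=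
  LinearEquiv.ofBijective (K₁.mapQ K₂ f (fun x hx => (hf x).mp hx))
    ⟨by
      rw [injective_iff_map_eq_zero]
      intro x hx
      obtain ⟨x, rfl⟩ := Submodule.Quotient.mk_surjective _ x
      rw [Submodule.mapQ_apply, Submodule.Quotient.mk_eq_zero] at hx
      exact (Submodule.Quotient.mk_eq_zero _).mpr ((hf x).mpr hx),
     by
      intro z
      obtain ⟨z, rfl⟩ := Submodule.Quotient.mk_surjective _ z
      obtain ⟨y, hy⟩ := surj z
      refine ⟨Submodule.Quotient.mk y, ?_⟩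
      rw [Submodule.mapQ_apply, eq_comm, Submodule.Quotient.eq]
      exact hy⟩

lemma sq_kill {K₁ K₂ : Submodule R F} {t : R} (h : ∀ x ∈ K₁, t • x ∈ K₂) (x : SQ K₁ K₂) :
    t • x = 0 := by
  obtain ⟨x, rfl⟩ := Submodule.Quotient.mk_surjective _ x
  rw [← Submodule.Quotient.mk_smul, Submodule.Quotient.mk_eq_zero]
  exact h x x.2

end

lemma mem_sup_span_singleton {J : Ideal R} {z x : R} :
    x ∈ J ⊔ Ideal.span {z} ↔ ∃ y, x - z * y ∈ J := by
  rw [Submodule.mem_sup]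
  constructor
  · rintro ⟨a, ha, b, hb, rfl⟩
    obtain ⟨c, rfl⟩ := Ideal.mem_span_singleton'.mp hb
    exact ⟨c, by simpa [mul_comm] using ha⟩
  · rintro ⟨y, hy⟩
    exact ⟨_, hy, z * y, Ideal.mul_mem_right _ _ (Ideal.mem_span_singleton_self z), by simp⟩

/-- The cut of a pair of ideals. -/
lemma ses_cut_pair {J₁ J₂ : Ideal R} (h : J₂ ≤ J₁) {z : R} (h₁ : Reg J₁ z) (h₂ : Reg J₂ z) :
    ∃ g : SQ J₁ J₂ →ₗ[R] SQ (J₁ ⊔ Ideal.span {z}) (J₂ ⊔ Ideal.span {z}),
      SES (z • (LinearMap.id : SQ J₁ J₂ →ₗ[R] SQ J₁ J₂)) g := by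
  have hf : Submodule.comap J₁.subtype J₂ ≤ (Submodule.comap J₁.subtype J₂).comap
      (z • (LinearMap.id : J₁ →ₗ[R] J₁)) := fun x hx => Submodule.smul_mem _ z hx
  have H := ses_quot (Submodule.comap J₁.subtype J₂) (Submodule.comap J₁.subtype J₂)
    (Submodule.comap (J₁ ⊔ Ideal.span {z}).subtype (J₂ ⊔ Ideal.span {z}))
    (z • (LinearMap.id : J₁ →ₗ[R] J₁)) (Submodule.inclusion le_sup_left) hf
    (fun x hx => Ideal.mem_sup_left hx) (fun x hx => h₂ x hx)
    (fun x => by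
      obtain ⟨y, hy⟩ := mem_sup_span_singleton.mp x.2
      refine ⟨⟨_, hy⟩, Ideal.mem_sup_right ?_⟩
      simpa using Ideal.mul_mem_right _ _ (Ideal.mem_span_singleton_self z))
    (fun y => by
      constructor
      · intro hy
        obtain ⟨c, hc⟩ := mem_sup_span_singleton.mp hy
        have hc1 : c ∈ J₁ := by
          apply h₁
          have := J₁.sub_mem y.2 (h hc)
          simpa using this
        exact ⟨⟨c, hc1⟩, hc⟩
      · rintro ⟨x, hx⟩
        exact mem_sup_span_singleton.mpr ⟨x, hx⟩)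
  have h2 : (Submodule.comap J₁.subtype J₂).mapQ _ (z • (LinearMap.id : J₁ →ₗ[R] J₁)) hf =
      z • LinearMap.id := by
    ext x
    simp
  rw [h2] at H
  exact ⟨_, H⟩

variable {n : Ideal R} {k : ℕ} (D : DT R n k)

lemma DT.uncut [IsNoetherianRing R] (zs : List R) :
    ∀ (J : Ideal R) (i : ℕ), RegSeq J zs → (∀ z ∈ zs, z ∈ n) →
      D.W (i + zs.length) (R ⧸ addL J zs) → D.W i (R ⧸ J) := by
  induction zs with
  | nil => intro J i _ _ h; exact h
  | cons z zs ih =>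
    intro J i hJ hz h
    obtain ⟨g, hg⟩ := ses_cut_ideal J z hJ.1
    refine D.nak (hz z List.mem_cons_self) hg (ih _ _ hJ.2
      (fun w hw => hz w (List.mem_cons_of_mem _ hw)) ?_)
    have : i + 1 + zs.length = i + (z :: zs).length := by simp; omega
    rw [this]
    exact h

lemma DT.uncut_pair [IsNoetherianRing R] (zs : List R) :
    ∀ (J₁ J₂ : Ideal R) (i : ℕ), J₂ ≤ J₁ → RegSeq J₁ zs → RegSeq J₂ zs → (∀ z ∈ zs, z ∈ n) →
      D.W (i + zs.length) (SQ (addL J₁ zs) (addL J₂ zs)) → D.W i (SQ J₁ J₂) := by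
  induction zs with
  | nil => intro J₁ J₂ i _ _ _ _ h; exact h
  | cons z zs ih =>
    intro J₁ J₂ i hle h₁ h₂ hz h
    obtain ⟨g, hg⟩ := ses_cut_pair hle h₁.1 h₂.1
    refine D.nak (hz z List.mem_cons_self) hg (ih _ _ _ (sup_le_sup_right hle _) h₁.2 h₂.2
      (fun w hw => hz w (List.mem_cons_of_mem _ hw)) ?_)
    have : i + 1 + zs.length = i + (z :: zs).length := by simp; omega
    rw [this]
    exact h

lemma DT.cutfwd_pair (zs : List R) :
    ∀ (J₁ J₂ : Ideal R) (p : ℕ), J₂ ≤ J₁ → RegSeq J₁ zs → RegSeq J₂ zs →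
      (∀ i, p ≤ i → D.W i (SQ J₁ J₂)) →
      ∀ i, p + zs.length ≤ i → D.W i (SQ (addL J₁ zs) (addL J₂ zs)) := by
  induction zs with
  | nil => intro J₁ J₂ p _ _ _ h i hi; exact h i (by simpa using hi)
  | cons z zs ih =>
    intro J₁ J₂ p hle h₁ h₂ h i hi
    obtain ⟨g, hg⟩ := ses_cut_pair hle h₁.1 h₂.1
    refine ih _ _ (p + 1) (sup_le_sup_right hle _) h₁.2 h₂.2 (fun j hj => ?_) i
      (by simp at hi; omega)
    obtain ⟨j, rfl⟩ : ∃ j', j = j' + 1 := ⟨j - 1, by omega⟩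
    exact D.right hg (h j (by omega)) (h (j + 1) (by omega))

/-- Nakayama for pairs: the subquotient vanishes at `n` if its cut vanishes. -/
lemma kill_uncut_pair [IsNoetherianRing R] [hn : n.IsPrime] (zs : List R) :
    ∀ (J₁ J₂ : Ideal R), J₂ ≤ J₁ → RegSeq J₁ zs → (∀ z ∈ zs, z ∈ n) →
      (addL J₁ zs ≤ addL J₂ zs) → ∃ t, t ∉ n ∧ ∀ x ∈ J₁, t * x ∈ J₂ := by
  induction zs with
  | nil =>
    intro J₁ J₂ _ _ _ h
    exact ⟨1, (Ideal.ne_top_iff_one n).mp hn.ne_top, fun x hx => by rw [one_mul]; exact h hx⟩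
  | cons z zs ih =>
    intro J₁ J₂ hle h₁ hz h
    obtain ⟨t, ht, H⟩ := ih _ _ (sup_le_sup_right hle _) h₁.2
      (fun w hw => hz w (List.mem_cons_of_mem _ hw)) h
    obtain ⟨s, hs, Hs⟩ := nak_local (E := SQ J₁ J₂) ht (hz z List.mem_cons_self) (fun e => by
      obtain ⟨x, rfl⟩ := Submodule.Quotient.mk_surjective _ e
      obtain ⟨c, hc⟩ := mem_sup_span_singleton.mp (H x (Ideal.mem_sup_left x.2))
      have hc1 : c ∈ J₁ := by
        apply h₁.1
        have := J₁.sub_mem (J₁.mul_mem_left t x.2) (hle hc)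
        simpa using this
      refine ⟨Submodule.Quotient.mk ⟨c, hc1⟩, ?_⟩
      rw [← Submodule.Quotient.mk_smul, ← Submodule.Quotient.mk_smul, Submodule.Quotient.eq]
      exact hc)
    refine ⟨s, hs, fun x hx => ?_⟩
    have := Hs (Submodule.Quotient.mk ⟨x, hx⟩)
    rw [← Submodule.Quotient.mk_smul, Submodule.Quotient.mk_eq_zero] at this
    exact this

/-- Two regular elements on a subquotient give depth two. -/
lemma DT.depth_two [IsNoetherianRing R] {K₁ K₂ : Ideal R} {a b : R} (ha : a ∈ n) (hb : b ∈ n)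
    (h₁ : ∀ x ∈ K₁, a * x ∈ K₂ → x ∈ K₂)
    (h₂ : ∀ x ∈ K₁, ∀ y ∈ K₁, b * x - a * y ∈ K₂ → ∃ y' ∈ K₁, x - a * y' ∈ K₂)
    (i : ℕ) (hi : k < i + 2) : D.W i (SQ K₁ K₂) := by
  let K' : Submodule R K₁ := Submodule.comap K₁.subtype K₂ ⊔ LinearMap.range (a • LinearMap.id)
  have hK' : ∀ x : K₁, x ∈ K' ↔ ∃ y, x - a • y ∈ Submodule.comap K₁.subtype K₂ := by
    intro x
    rw [Submodule.mem_sup]
    constructor
    · rintro ⟨u, hu, v, ⟨w, rfl⟩, rfl⟩
      exact ⟨w, by simpa using hu⟩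
    · rintro ⟨y, hy⟩
      exact ⟨_, hy, a • y, ⟨y, rfl⟩, by simp⟩
  obtain ⟨g, hg⟩ := ses_cut _ K' a (fun x hx => h₁ x x.2 hx) hK'
  refine D.nak ha hg ?_
  let K'' : Submodule R K₁ := K' ⊔ LinearMap.range (b • LinearMap.id)
  have hK'' : ∀ x : K₁, x ∈ K'' ↔ ∃ y, x - b • y ∈ K' := by
    intro x
    rw [Submodule.mem_sup]
    constructor
    · rintro ⟨u, hu, v, ⟨w, rfl⟩, rfl⟩
      exact ⟨w, by simpa using hu⟩
    · rintro ⟨y, hy⟩
      exact ⟨_, hy, b • y, ⟨y, rfl⟩, by simp⟩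
  obtain ⟨g', hg'⟩ := ses_cut K' K'' b (fun x hx => by
    obtain ⟨y, hy⟩ := (hK' _).mp hx
    obtain ⟨y', hy1, hy2⟩ := h₂ x x.2 y y.2 hy
    exact (hK' _).mpr ⟨⟨y', hy1⟩, hy2⟩) hK''
  exact D.nak hb hg' (D.big _ _ (by omega))

lemma DT.prod {A B : Type} [AddCommGroup A] [Module R A] [AddCommGroup B] [Module R B] {i : ℕ}
    (hA : D.W i A) (hB : D.W i B) : D.W i (A × B) :=
  D.mid ⟨LinearMap.inl_injective, LinearMap.snd_surjective, Function.Exact.inl_snd⟩ hB hA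

lemma DT.pi {A : Type} [AddCommGroup A] [Module R A] {i : ℕ} (hA : D.W i A) (m : ℕ) :
    D.W i (Fin m → A) := by
  induction m with
  | zero => exact D.kill D.one (fun x => Subsingleton.elim _ _) i
  | succ m ih => exact D.equiv (Fin.consLinearEquiv R (fun _ : Fin (m + 1) => A)).symm (D.prod hA ih)

/-- The pair of preimages, as a module over the source. -/
noncomputable def Res.sqEquiv {R' : Type} [CommRing R'] (φ : R →+* R')
    (hφ : Function.Surjective φ) (J₁ J₂ : Ideal R') :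
    SQ (J₁.comap φ) (J₂.comap φ) ≃ₗ[R] Res φ (SQ J₁ J₂) :=
  let ψ : (J₁.comap φ) →ₗ[R] Res φ (SQ J₁ J₂) :=
    { toFun := fun x => (Submodule.Quotient.mk ⟨φ x, x.2⟩ : SQ J₁ J₂)
      map_add' := fun x y => by
        refine Eq.trans ?_ (Submodule.Quotient.mk_add _)
        congr 1
        exact Subtype.ext (map_add φ _ _)
      map_smul' := fun r x => by
        refine Eq.trans ?_ (Submodule.Quotient.mk_smul _ (φ r) _)
        congr 1
        exact Subtype.ext (map_mul φ _ _) }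
  have hψ : ∀ x, ψ x = 0 ↔ φ x ∈ J₂ := fun x =>
    Submodule.Quotient.mk_eq_zero (Submodule.comap J₁.subtype J₂) (x := ⟨φ x, x.2⟩)
  LinearEquiv.ofBijective
    ((Submodule.comap (J₁.comap φ).subtype (J₂.comap φ)).liftQ ψ (fun x hx => (hψ x).mpr hx))
    ⟨by
      rw [injective_iff_map_eq_zero]
      intro x hx
      obtain ⟨x, rfl⟩ := Submodule.Quotient.mk_surjective _ x
      exact (Submodule.Quotient.mk_eq_zero _).mpr ((hψ x).mp hx),
     by
      intro y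
      obtain ⟨⟨y, hy⟩, rfl⟩ := Submodule.Quotient.mk_surjective (Submodule.comap J₁.subtype J₂) y
      obtain ⟨y, rfl⟩ := hφ y
      exact ⟨Submodule.Quotient.mk ⟨y, hy⟩, rfl⟩⟩

end Pool.Agent.Lib.MP_8277d7_ag
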