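import Pool.Agent.Lib.MP_8277d7_ag.Minors

/-! The Veronese presentation via a section. -/

open MvPolynomial

namespace Pool.Agent.Lib.MP_8277d7_ag

section
variable {ι E : Type} [CommRing E] (y : ι → ι → E)

/-- Product of the pair variables along a list. -/
def pp : List ι → E
  | [] => 1
  | [_] => 0
  | a :: b :: l => y a b * pp l

/-- The rank one relations. -/
structure RankOne : Prop where
  symm : ∀ i j, y i j = y j i
  rel : ∀ i j k l, y i j * y k l = y i k * y j l

variable {y}

lemma pp_swap (h : RankOne y) (x a b : ι) (l : List ι) :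
    y x b * pp y (a :: l) = y x a * pp y (b :: l) := by
  cases l with
  | nil => simp [pp]
  | cons c l => simp only [pp]; rw [← mul_assoc, ← mul_assoc, h.rel x b a c]

lemma pp_perm (h : RankOne y) {l l' : List ι} (hl : l.Perm l') :
    pp y l = pp y l' ∧ ∀ x, pp y (x :: l) = pp y (x :: l') := by
  induction hl with
  | nil => exact ⟨rfl, fun _ => rfl⟩
  | cons a _ ih => exact ⟨ih.2 a, fun x => by simp only [pp]; rw [ih.1]⟩
  | swap a b l => exact ⟨by simp only [pp]; rw [h.symm], fun x => by simp only [pp]; exact pp_swap h _ _ _ _⟩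
  | trans _ _ ih1 ih2 => exact ⟨ih1.1.trans ih2.1, fun x => (ih1.2 x).trans (ih2.2 x)⟩

/-- The canonical monomial in the pair variables attached to an exponent vector. -/
noncomputable def pm (h : RankOne y) (α : ι →₀ ℕ) : E :=
  Quot.liftOn (Finsupp.toMultiset α) (pp y) fun _ _ hl => (pp_perm h hl).1

lemma pm_zero (h : RankOne y) : pm h 0 = 1 := by
  simp only [pm, map_zero]
  rfl

lemma pm_single (h : RankOne y) (i : ι) : pm h (Finsupp.single i 1) = 0 := by
  simp only [pm, Finsupp.toMultiset_single, one_smul]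
  rfl

lemma pm_add (h : RankOne y) (i j : ι) (α : ι →₀ ℕ) :
    pm h (Finsupp.single i 1 + (Finsupp.single j 1 + α)) = y i j * pm h α := by
  simp only [pm, map_add, Finsupp.toMultiset_single, one_smul, Multiset.singleton_add]
  induction Finsupp.toMultiset α using Quot.inductionOn with
  | h l => rfl

variable {K : Type} [CommRing K]

/-- The additive section. -/
noncomputable def Lam (h : RankOne y) (l₀ : K →+ E) : MvPolynomial ι K →+ E :=
  (Finsupp.liftAddHom fun β => (AddMonoidHom.mulRight (pm h β)).comp l₀).comp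
    AddMonoidAlgebra.coeffAddEquiv.toAddMonoidHom

lemma Lam_monomial (h : RankOne y) (l₀ : K →+ E) (β : ι →₀ ℕ) (c : K) :
    Lam h l₀ (monomial β c) = l₀ c * pm h β := by
  have : AddMonoidAlgebra.coeffAddEquiv.toAddMonoidHom (monomial β c) = Finsupp.single β c := rfl
  rw [Lam, AddMonoidHom.comp_apply, this, Finsupp.liftAddHom_apply_single]
  rfl

lemma X_mul_monomial' (i : ι) (β : ι →₀ ℕ) (c : K) :
    X i * monomial β c = monomial (Finsupp.single i 1 + β) c := by
  rw [X, monomial_mul, one_mul]

lemma Lam_XX (h : RankOne y) (l₀ : K →+ E) (i j : ι) (p : MvPolynomial ι K) :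
    Lam h l₀ (X i * X j * p) = y i j * Lam h l₀ p := by
  induction p using MvPolynomial.induction_on' with
  | monomial β c =>
    rw [mul_assoc, X_mul_monomial', X_mul_monomial', Lam_monomial, Lam_monomial, pm_add]
    ring
  | add p q hp hq => rw [mul_add, map_add, map_add, hp, hq, mul_add]

lemma Lam_C (h : RankOne y) (l₀ : K →+ E) {c : K} {γ : E} (hc : ∀ c', l₀ (c * c') = γ * l₀ c')
    (p : MvPolynomial ι K) : Lam h l₀ (C c * p) = γ * Lam h l₀ p := by
  induction p using MvPolynomial.induction_on' with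
  | monomial β c' => rw [C_mul_monomial, Lam_monomial, Lam_monomial, hc, mul_assoc]
  | add p q hp hq => rw [mul_add, map_add, map_add, hp, hq, mul_add]

lemma Lam_one (h : RankOne y) (l₀ : K →+ E) : Lam h l₀ 1 = l₀ 1 := by
  have : (1 : MvPolynomial ι K) = monomial 0 1 := rfl
  rw [this, Lam_monomial, pm_zero, mul_one]

lemma exists_single_add {α : ι →₀ ℕ} (hα : α ≠ 0) : ∃ i α', α = Finsupp.single i 1 + α' := by
  classical
  obtain ⟨i, hi⟩ := Finsupp.ne_iff.mp hα
  refine ⟨i, α - Finsupp.single i 1, ?_⟩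
  rw [add_comm, tsub_add_cancel_of_le]
  rw [Finsupp.single_le_iff]
  exact Nat.one_le_iff_ne_zero.mpr hi

end

/-- The polynomial ring in `v`. -/
abbrev A0 : Type := MvPolynomial (Fin 3) ℂ

/-- The Veronese parametrisation. -/
noncomputable def pi0 : SymRing 3 →+* A0 := sub (Matrix.of fun i j => X i * X j)

lemma pi0_gen (i j : Fin 3) : pi0 (genSym 3 i j) = X i * X j :=
  sub_gen (by ext i j : 2; simp [mul_comm]) i j

lemma pi0_C (c : ℂ) : pi0 (C c) = C c := sub_C _ c

lemma symRing_induction {n : ℕ} {P : SymRing n → Prop} (hC : ∀ c, P (C c))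
    (hadd : ∀ p q, P p → P q → P (p + q)) (hX : ∀ p i j, P p → P (p * genSym n i j))
    (f : SymRing n) : P f := by
  induction f using MvPolynomial.induction_on with
  | C a => exact hC a
  | add p q hp hq => exact hadd p q hp hq
  | mul_X p s hp => rw [← genSym_idx]; exact hX _ _ _ hp

lemma two_minor_mem {R : Type} [CommRing R] {Y : Matrix (Fin 3) (Fin 3) R} (hY : Y.IsSymm)
    (i j k l : Fin 3) : Y i j * Y k l - Y i k * Y j l ∈ adjIdeal Y := by
  rw [← minorIdeal_eq_adj]
  have := det_sub_mem Y ![i, l] ![j, k]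
  rw [Matrix.det_fin_two] at this
  simpa [hY.apply l k, hY.apply l j] using this

section
variable {E : Type} [CommRing E] (φ : SymRing 3 →+* E) (hφ : ∀ x ∈ adjIdeal (genSym 3), φ x = 0)
include hφ

lemma rankOne_gen : RankOne fun i j => φ (genSym 3 i j) where
  symm i j := by rw [genSym_comm]
  rel i j k l := by
    have := hφ _ (two_minor_mem (genSym_symm 3) i j k l)
    rwa [map_sub, map_mul, map_mul, sub_eq_zero] at this

/-- The section on the ring of the variables `v`. -/
noncomputable def Lam0 : A0 →+ E := Lam (rankOne_gen φ hφ) (φ.comp C).toAddMonoidHom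

lemma Lam0_pi0 (g : SymRing 3) : ∀ h, Lam0 φ hφ (pi0 g * h) = φ g * Lam0 φ hφ h := by
  induction g using symRing_induction with
  | hC c =>
    intro h
    rw [pi0_C]
    exact Lam_C _ _ (fun c' => by simp) h
  | hadd p q hp hq => intro h; simp only [map_add, add_mul, hp, hq]
  | hX p i j hp =>
    intro h
    rw [map_mul pi0, mul_assoc, hp, pi0_gen, Lam0, Lam_XX, map_mul φ, mul_assoc]

lemma Lam0_one : Lam0 φ hφ 1 = 1 := by
  rw [Lam0, Lam_one]
  simp

end

lemma ker_pi0 {g : SymRing 3} (h : pi0 g = 0) : g ∈ adjIdeal (genSym 3) := by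
  have := Lam0_pi0 (Ideal.Quotient.mk (adjIdeal (genSym 3)))
    (fun x hx => Ideal.Quotient.eq_zero_iff_mem.mpr hx) g 1
  rw [h, zero_mul, map_zero, Lam0_one, mul_one] at this
  exact Ideal.Quotient.eq_zero_iff_mem.mp this.symm

/-- The polynomial ring in `v` and `w`. -/
abbrev QQ : Type := MvPolynomial (Fin 3) A0

/-- The polynomial ring over `S'` in the variables `t`. -/
abbrev TT : Type := MvPolynomial (Fin 3 × Fin 3) (SymRing 3)

/-- The double Veronese map. -/
noncomputable def piT : TT →+* QQ := eval₂Hom (C.comp pi0) fun q => X q.1 * X q.2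

/-- The incidence quadric. -/
noncomputable def qq : QQ := ∑ i, C (X i) * X i

/-- Ideals containing the flag relations. -/
structure FlagRel (L : Ideal TT) : Prop where
  adj : ∀ x ∈ adjIdeal (genSym 3), C x ∈ L
  symm : ∀ i j, X (i, j) - X (j, i) ∈ L
  rel : ∀ i j k l, X (i, j) * X (k, l) - X (i, k) * X (j, l) ∈ L
  inc : ∀ k l, ∑ i, C (genSym 3 i k) * X (i, l) ∈ L

theorem FlagRel.sft {L : Ideal TT} (hL : FlagRel L) {g : TT} {h k : QQ} {y : SymRing 3}
    (hg : piT g = qq * h + C (pi0 y) * k) : ∃ g', g - C y * g' ∈ L := by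
  let mk := Ideal.Quotient.mk L
  have hφ : ∀ x ∈ adjIdeal (genSym 3), (mk.comp C) x = 0 := fun x hx =>
    Ideal.Quotient.eq_zero_iff_mem.mpr (hL.adj x hx)
  have ht : RankOne fun i j : Fin 3 => mk (X (i, j)) :=
    ⟨fun i j => Ideal.Quotient.eq.mpr (hL.symm i j), fun i j k l => by
      rw [← map_mul, ← map_mul]
      exact Ideal.Quotient.eq.mpr (hL.rel i j k l)⟩
  let Λ := Lam ht (Lam0 (mk.comp C) hφ)
  have h1 : ∀ (y : SymRing 3) (h : QQ), Λ (C (pi0 y) * h) = mk (C y) * Λ h := fun y h =>
    Lam_C _ _ (Lam0_pi0 _ hφ y) h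
  have h2 : ∀ (g : TT) (h : QQ), Λ (piT g * h) = mk g * Λ h := by
    intro g
    induction g using MvPolynomial.induction_on with
    | C a => intro h; simpa [piT] using h1 a h
    | add p q hp hq => intro h; simp only [map_add, add_mul, hp, hq]
    | mul_X p s hp =>
      intro h
      have : piT (X s) = X s.1 * X s.2 := by simp [piT]
      rw [map_mul piT, mul_assoc, hp, this, Lam_XX, map_mul mk, mul_assoc]
  have h3 : Λ 1 = 1 := by rw [Lam_one, Lam0_one]
  have h4 : ∀ h : QQ, Λ (qq * h) = 0 := by
    intro h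
    induction h using MvPolynomial.induction_on' with
    | add p q hp hq => rw [mul_add, map_add, hp, hq, add_zero]
    | monomial β c =>
      induction c using MvPolynomial.induction_on' with
      | add p q hp hq => rw [map_add, mul_add, map_add, hp, hq, add_zero]
      | monomial α c =>
        have h5 : ∀ i : Fin 3, Λ (C (X i) * X i * monomial β (monomial α c)) =
            mk (C (C c)) * pm (rankOne_gen (mk.comp C) hφ) (Finsupp.single i 1 + α) *
              pm ht (Finsupp.single i 1 + β) := by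
          intro i
          rw [mul_assoc, X_mul_monomial', C_mul_monomial, X_mul_monomial', Lam_monomial, Lam0,
            Lam_monomial]
          rfl
        rw [qq, Finset.sum_mul, map_sum]
        simp only [h5]
        by_cases hα : α = 0
        · simp [hα, pm_single]
        by_cases hβ : β = 0
        · simp [hβ, pm_single]
        obtain ⟨k, α', rfl⟩ := exists_single_add hα
        obtain ⟨l, β', rfl⟩ := exists_single_add hβ
        simp only [pm_add]
        have h6 : mk (∑ i, C (genSym 3 i k) * X (i, l)) = 0 :=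
          Ideal.Quotient.eq_zero_iff_mem.mpr (hL.inc k l)
        rw [map_sum] at h6
        simp only [map_mul] at h6
        calc _ = (∑ i, mk (C (genSym 3 i k)) * mk (X (i, l))) *
            (mk (C (C c)) * pm (rankOne_gen (mk.comp C) hφ) α' * pm ht β') := by
              rw [Finset.sum_mul]
              refine Finset.sum_congr rfl fun i _ => ?_
              simp only [RingHom.comp_apply]
              ring
          _ = 0 := by rw [h6, zero_mul]
  obtain ⟨g', hg'⟩ := Ideal.Quotient.mk_surjective (I := L) (Λ k)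
  refine ⟨g', Ideal.Quotient.eq.mp ?_⟩
  have h7 := h2 g 1
  rw [mul_one, h3, mul_one, hg, map_add, h4, h1, zero_add] at h7
  rw [map_mul, hg']
  exact h7.symm

section
variable {R : Type} [CommRing R]

lemma Reg.swap {J : Ideal R} {b q : R} (hb : Reg J b) (hq : Reg (J ⊔ Ideal.span {b}) q) :
    Reg (J ⊔ Ideal.span {q}) b := by
  intro x hx
  obtain ⟨k, hk⟩ := mem_sup_span_singleton.mp hx
  have h1 : q * k ∈ J ⊔ Ideal.span {b} :=
    mem_sup_span_singleton.mpr ⟨x, by simpa using J.neg_mem hk⟩
  obtain ⟨k', hk'⟩ := mem_sup_span_singleton.mp (hq k h1)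
  refine mem_sup_span_singleton.mpr ⟨k', hb _ ?_⟩
  have := J.add_mem hk (J.mul_mem_left q hk')
  convert this using 1
  ring

lemma Reg.map_C {σ : Type} {J : Ideal R} {z : R} (h : Reg J z) :
    Reg (J.map (C : R →+* MvPolynomial σ R)) (C z) := by
  intro x hx
  rw [mem_map_C_iff] at hx ⊢
  intro m
  have := hx m
  rw [coeff_C_mul] at this
  exact h _ this

end

lemma reg_qq {J : Ideal A0} (h : Reg J (X 2)) : Reg (J.map C) qq := by
  refine reg_of_family (psiVar_eval 2) ?_ 1 ?_
  · unfold Stab
    rw [Ideal.map_map, Ideal.map_map]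
    exact le_of_eq (by congr 1; ext <;> simp)
  · have : (psiVar 2 qq).coeff 1 = C (X 2) := by
      simp [qq, Fin.sum_univ_three, psiVar_ne, Polynomial.coeff_C]
    rw [this]
    exact h.map_C

lemma reg_v0 : Reg (Ideal.span {qq}) (C (X 0)) := by
  have h1 : Reg (⊥ ⊔ Ideal.span {(X 0 : A0)}) (X 2) :=
    reg_of_family (psiVar_eval 2) ((Stab.bot _).sup_fixed (psiVar_ne (by decide))) 1
      (Reg.of_isUnit _ (by simp))
  have h0 : Reg (⊥ : Ideal QQ) (C (X 0)) := fun x hx => by
    rw [Ideal.mem_bot] at hx ⊢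
    exact (mul_eq_zero.mp hx).resolve_left (by simp)
  have h2 := reg_qq h1
  rw [Ideal.map_sup, Ideal.map_bot, Ideal.map_span, Set.image_singleton] at h2
  simpa using h0.swap h2

lemma reg_v1 : Reg (Ideal.span {C (X 0 * X 0)} ⊔ Ideal.span {qq}) (C (X 1 * X 1)) := by
  have h1 : Reg (Ideal.span {(X 0 * X 0 : A0)} ⊔ Ideal.span {(X 1 * X 1 : A0)}) (X 2) :=
    reg_of_family (psiVar_eval 2) ((Stab.span_fixed (by
      rintro _ rfl; simp [psiVar_ne])).sup_fixed (by simp [psiVar_ne])) 1
      (Reg.of_isUnit _ (by simp))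
  have h0 : Reg (Ideal.span {(X 0 * X 0 : A0)}) (X 1 * X 1) :=
    reg_of_family (psiVar_eval 1) (Stab.span_fixed (by rintro _ rfl; simp [psiVar_ne])) 2
      (Reg.of_isUnit _ (by simp [← pow_two]))
  have h2 := reg_qq h1
  have h3 := h0.map_C (σ := Fin 3)
  rw [Ideal.map_sup, Ideal.map_span, Ideal.map_span, Set.image_singleton,
    Set.image_singleton] at h2
  rw [Ideal.map_span, Set.image_singleton] at h3
  exact h3.swap h2

end Pool.Agent.Lib.MP_8277d7_ag
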