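import Pool.Agent.Lib.MP_8277d7_ag.Depth

/-! An anti-invariant top class killed by the variables `u_i`. -/

open MvPolynomial CategoryTheory Abelian

namespace Pool.Agent.Lib.MP_8277d7_ag

section
variable {R : Type} [CommRing R] {A B C : Type} [AddCommGroup A] [Module R A] [AddCommGroup B]
  [Module R B] [AddCommGroup C] [Module R C]

/-- Composition with `ξ` is onto at the prime `n`. -/
def Sj (n : Ideal R) {r : ℕ} (ξ : EE R A B r) (c d : ℕ) (h : r + c = d) : Prop :=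
  ∃ t, t ∉ n ∧ ∀ y : EE R A R d, ∃ x : EE R B R c, ξ.comp x h = t • y

lemma Sj_cls {n : Ideal R} {f : A →ₗ[R] B} {g : B →ₗ[R] C} (h : SES f g) {c : ℕ}
    (hB : V n (c + 1) B) : Sj n h.cls c (c + 1) (add_comm 1 c) := by
  obtain ⟨t, ht, hB⟩ := hB
  exact ⟨t, ht, fun y => h.exact3 (t • y) (by rw [Ext.comp_smul, hB])⟩

lemma Sj.comp {n : Ideal R} [n.IsPrime] {r s c d e : ℕ} {ξ : EE R A B r} {η : EE R B C s}
    {h₁ : r + d = e} {h₂ : s + c = d} (hξ : Sj n ξ d e h₁) (hη : Sj n η c d h₂) {q : ℕ}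
    (hq : r + s = q) (h : q + c = e) : Sj n (ξ.comp η hq : EE R A C q) c e h := by
  obtain ⟨t, ht, hξ⟩ := hξ
  obtain ⟨t', ht', hη⟩ := hη
  refine ⟨t' * t, mul_notMem ht' ht, fun y => ?_⟩
  obtain ⟨x, hx⟩ := hξ y
  obtain ⟨z, hz⟩ := hη x
  refine ⟨z, ?_⟩
  rw [Ext.comp_assoc _ _ _ hq h₂ (by omega), hz, Ext.comp_smul, hx, mul_smul]

lemma comp_mk0_mk0 {D : Type} [AddCommGroup D] [Module R D] {r : ℕ} (ξ : EE R A B r)
    (f : B →ₗ[R] C) (g : C →ₗ[R] D) :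
    (ξ.comp (mk0 f) (add_zero r)).comp (mk0 g) (add_zero r) = ξ.comp (mk0 (g ∘ₗ f)) (add_zero r) := by
  rw [Ext.comp_assoc _ _ _ (add_zero r) (zero_add 0) (by omega), mk0_comp_mk0]

lemma SES.cls_comp_factor {D : Type} [AddCommGroup D] [Module R D] {f : A →ₗ[R] B} {g : B →ₗ[R] C}
    (h : SES f g) (a : A →ₗ[R] D) (φ : B →ₗ[R] D) (ha : ∀ x, a x = φ (f x)) :
    h.cls.comp (mk0 a) (add_zero 1) = 0 := by
  have : a = φ ∘ₗ f := LinearMap.ext ha
  rw [this, ← comp_mk0_mk0, h.cls_comp_f, Ext.zero_comp]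

lemma SES.factor_comp_cls {D : Type} [AddCommGroup D] [Module R D] {f : A →ₗ[R] B} {g : B →ₗ[R] C}
    (h : SES f g) (a : D →ₗ[R] C) (φ : D →ₗ[R] B) (ha : ∀ x, a x = g (φ x)) :
    (mk0 a).comp h.cls (zero_add 1) = 0 := by
  have : a = g ∘ₗ φ := LinearMap.ext ha
  rw [this, ← mk0_mk0_comp, h.g_comp_cls, Ext.comp_zero]

end

lemma se_mem_bPQ {P Q : Finset (Fin 4)} {α : II →₀ ℕ} : se α ∈ bPQ P Q ↔ α ∈ bPQ Q P := by
  simp only [mem_bPQ, se_apply, Sum.swap_inl, Sum.swap_inr]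
  exact or_comm

/-- The residue field as a weight module. -/
abbrev K0 : Type := NN (bPQ ∅ ∅) 0

/-- Multiplication by `u_i`. -/
noncomputable def uB (B : UpperSet (II →₀ ℕ)) (i : Fin 4) : NN B 0 →ₗ[SymRing 4] NN B 1 :=
  mm (eu i) (wt_eu_add i (by ring)) fun _ _ h => B.upper le_add_self h

/-- The swap. -/
noncomputable def smP (P Q : Finset (Fin 4)) : NN (bPQ P Q) 0 →ₗ[SymRing 4] NN (bPQ Q P) 0 :=
  sm fun _ h => se_mem_bPQ.mp h

/-- The restriction used in the lifting property. -/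
noncomputable def rsU (P Q : Finset (Fin 4)) (p : Fin 4) (k : ℤ) :
    NN (bPQ P Q) k →ₗ[SymRing 4] NN (bPQ (P.erase p) Q) k :=
  rs fun _ _ h => mem_erase_u.mpr (Or.inl h)

lemma nn_ext {B B' : UpperSet (II →₀ ℕ)} {k k' : ℤ} {f g : NN B k → NN B' k'}
    (h : ∀ x : TW k, ∃ y z : TW k', f (Submodule.Quotient.mk x) = Submodule.Quotient.mk y ∧
      g (Submodule.Quotient.mk x) = Submodule.Quotient.mk z ∧ (y : RR) = z) (x : NN B k) :
    f x = g x := by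
  obtain ⟨x, rfl⟩ := Submodule.Quotient.mk_surjective _ x
  obtain ⟨y, z, h1, h2, h3⟩ := h x
  rw [h1, h2, Subtype.ext h3]

lemma sw_monomial_euw (p : Fin 4) :
    sw (monomial (eu p + ew p) (1 : ℂ)) = monomial (eu p + ew p) (1 : ℂ) := by
  rw [monomial_euw, map_mul, sw_uu, sw_ww, mul_comm]

lemma xi_step {P : Finset (Fin 4)} {p : Fin 4} (hp : p ∈ P) (hP : 2 ≤ P.card) {r c : ℕ}
    (h : r + (c + 2) = 10) (hc : 10 < c + 2 * P.card)
    (Ξ : EE (SymRing 4) K0 (NN (bPQ (P.erase p) (P.erase p)) 0) r) (ε : SymRing 4)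
    (h₁ : Sj (pt 0) Ξ (c + 2) 10 h)
    (h₂ : Ξ.comp (mk0 (smP _ _)) (add_zero r) = ε • Ξ)
    (h₃ : ∀ i ∈ P.erase p, ∃ Θ : EE (SymRing 4) K0 (NN (bPQ P (P.erase p)) 1) r,
      Ξ.comp (mk0 (uB _ i)) (add_zero r) = Θ.comp (mk0 (rsU _ _ p 1)) (add_zero r)) :
    ∃ Ξ' : EE (SymRing 4) K0 (NN (bPQ P P) 0) (r + 2),
      Sj (pt 0) Ξ' c 10 (by omega) ∧ Ξ'.comp (mk0 (smP _ _)) (add_zero _) = (-ε) • Ξ' ∧
        ∀ i ∈ P, Ξ'.comp (mk0 (uB _ i)) (add_zero _) = 0 := by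
  let D := ptDT (0 : Idx 4 → ℂ) card_idx4
  have cP := Finset.card_erase_add_one hp
  let B2 := b2 (bPQ P P) (eu p + ew p)
  have γ := fun k => ses_euw hp hp k
  have μ := fun k => ses_mv (k := k) (B₀ := B2) (B₁ := bPQ (P.erase p) P) (B₂ := bPQ P (P.erase p))
    (B₃ := bPQ (P.erase p) (P.erase p))
    (fun α _ => by rw [mem_b2, mem_erase_u, mem_erase_w, euw_le]; tauto)
    (fun α _ => by rw [mem_erase_u, mem_erase_u, mem_erase_w]; tauto)
  have sγ : Sj (pt 0) (γ 0).cls c (c + 1) (add_comm 1 c) :=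
    Sj_cls _ (depth_NN D _ P P 0 rfl (by omega) (by omega) _ (by omega))
  have sμ : Sj (pt 0) (μ 0).cls (c + 1) (c + 2) (add_comm 1 (c + 1)) :=
    Sj_cls _ (D.prod (depth_NN D _ _ _ 0 rfl (by omega) (by omega) _ (by omega))
      (depth_NN D _ _ _ 0 rfl (by omega) (by omega) _ (by omega)))
  refine ⟨Ξ.comp ((μ 0).cls.comp (γ 0).cls rfl) rfl, h₁.comp (sμ.comp sγ rfl (by omega)) rfl _,
    ?_, fun i hi => ?_⟩
  · let s2 : NN B2 0 →ₗ[SymRing 4] NN B2 0 := sm fun α h => by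
      rw [mem_b2, euw_le] at h ⊢
      simpa only [se_mem_bPQ, se_apply, Sum.swap_inl, Sum.swap_inr, and_comm] using h
    have e1 := (γ 0).nat (γ 0) (smP P P) (smP P P) s2
      (nn_ext fun x => ⟨_, _, rfl, rfl, by
        simp only [mT_coe, swT_coe, map_mul, sw_monomial_euw]⟩)
      (nn_ext fun x => ⟨_, _, rfl, rfl, rfl⟩)
    have e2 := (μ 0).nat (μ 0) s2
      (((smP _ _).comp (LinearMap.snd _ _ _)).prod ((smP _ _).comp (LinearMap.fst _ _ _)))
      (-smP _ _) (fun x => by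
        obtain ⟨x, rfl⟩ := Submodule.Quotient.mk_surjective _ x
        rfl) (by
        rintro ⟨x, y⟩
        obtain ⟨x, rfl⟩ := Submodule.Quotient.mk_surjective _ x
        obtain ⟨y, rfl⟩ := Submodule.Quotient.mk_surjective _ y
        simp [smP, sm_mk, rs_mk])
    rw [Ext.comp_assoc _ _ _ rfl (add_zero 2) (by omega),
      Ext.comp_assoc _ _ _ rfl (add_zero 1) (by omega), e1,
      ← Ext.comp_assoc _ _ _ (add_zero 1) (zero_add 1) (by omega), e2,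
      Ext.comp_assoc _ _ _ (zero_add 1) rfl (by omega),
      ← Ext.comp_assoc _ _ _ (add_zero r) (zero_add 2) (by omega), mk0_neg, Ext.comp_neg, h₂,
      neg_smul, Ext.neg_comp, Ext.smul_comp]
  · have e1 := (γ 0).nat (γ 1) (uB _ i) (uB _ i) (uB B2 i)
      (nn_ext fun x => ⟨_, _, rfl, rfl, by simp only [mT_coe]; ring⟩)
      (nn_ext fun x => ⟨_, _, rfl, rfl, rfl⟩)
    rw [Ext.comp_assoc _ _ _ rfl (add_zero 2) (by omega),
      Ext.comp_assoc _ _ _ rfl (add_zero 1) (by omega), e1,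
      ← Ext.comp_assoc _ _ _ (add_zero 1) (zero_add 1) (by omega)]
    by_cases hip : i = p
    · subst hip
      have e2 := (μ 0).cls_comp_factor (uB B2 i)
        ((mm (eu i) (wt_eu_add i (by ring)) (B₁ := bPQ P (P.erase i)) (B₂ := B2) fun α _ h => by
          rw [mem_b2, eu_add_mem, euw_le]
          rw [mem_erase_w] at h
          simp
          tauto).comp (LinearMap.snd _ _ _))
        (nn_ext fun x => ⟨_, _, rfl, rfl, rfl⟩)
      rw [e2, Ext.zero_comp, Ext.comp_zero]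
    · have e2 := (μ 0).nat (μ 1) (uB B2 i) ((uB _ i).prodMap (uB _ i)) (uB _ i) (fun x => by
        obtain ⟨x, rfl⟩ := Submodule.Quotient.mk_surjective _ x
        rfl) (by
        rintro ⟨x, y⟩
        obtain ⟨x, rfl⟩ := Submodule.Quotient.mk_surjective _ x
        obtain ⟨y, rfl⟩ := Submodule.Quotient.mk_surjective _ y
        simp [uB, mm_mk, rs_mk])
      obtain ⟨Θ, hΘ⟩ := h₃ i (Finset.mem_erase.mpr ⟨hip, hi⟩)
      have e3 := (μ 1).factor_comp_cls (rsU P (P.erase p) p 1) (-LinearMap.inr _ _ _) (fun x => by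
        obtain ⟨x, rfl⟩ := Submodule.Quotient.mk_surjective _ x
        simp [rsU, rs_mk])
      rw [e2, Ext.comp_assoc _ _ _ (zero_add 1) rfl (by omega),
        ← Ext.comp_assoc _ _ _ (add_zero r) (zero_add 2) (by omega), hΘ,
        Ext.comp_assoc _ _ _ (add_zero r) (zero_add 2) (by omega),
        ← Ext.comp_assoc _ _ _ (zero_add 1) rfl (by omega), e3, Ext.zero_comp, Ext.comp_zero]

lemma mem_bPQ_empty {α : II →₀ ℕ} : α ∈ bPQ ∅ ∅ ↔ α ≠ 0 := by
  simp only [mem_bPQ, Finset.notMem_empty, not_false_eq_true, true_and, Finsupp.ne_iff,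
    Sum.exists, Finsupp.coe_zero, Pi.zero_apply]

lemma bPQ_le_empty {P Q : Finset (Fin 4)} {α : II →₀ ℕ} (h : α ∈ bPQ P Q) : α ∈ bPQ ∅ ∅ := by
  rcases h with ⟨i, _, h⟩ | ⟨i, _, h⟩
  · exact Or.inl ⟨i, by simp, h⟩
  · exact Or.inr ⟨i, by simp, h⟩

lemma xi_base {P : Finset (Fin 4)} {p : Fin 4} (hP : P.erase p = {0}) :
    ∃ Ξ : EE (SymRing 4) K0 (NN (bPQ (P.erase p) (P.erase p)) 0) 1,
      Sj (pt 0) Ξ 9 10 rfl ∧ Ξ.comp (mk0 (smP _ _)) (add_zero _) = (1 : SymRing 4) • Ξ ∧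
        ∀ i ∈ P.erase p, ∃ Θ : EE (SymRing 4) K0 (NN (bPQ P (P.erase p)) 1) 1,
          Ξ.comp (mk0 (uB _ i)) (add_zero 1) = Θ.comp (mk0 (rsU _ _ p 1)) (add_zero 1) := by
  let D := ptDT (0 : Idx 4 → ℂ) card_idx4
  have h0 : (0 : Fin 4) ∈ P.erase p := by simp [hP]
  have hw : ∀ (P' : Finset (Fin 4)) (α : II →₀ ℕ), wt α = 0 →
      (α ∈ bPQ ∅ ∅ ↔ α ∈ bPQ P' (P.erase p) ∨ ew 0 ≤ α) := by
    intro P' α hα
    constructor
    · intro h
      obtain ⟨i, j, β, _, rfl⟩ := exists_uw hα (mem_bPQ_empty.mp h)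
      by_cases hj : j = 0
      · subst hj
        exact Or.inr (ew_le.mpr (by simp))
      · exact Or.inl (Or.inr ⟨j, by simp [hP, hj], by simp⟩)
    · rintro (h | h)
      · exact bPQ_le_empty h
      · exact Or.inr ⟨0, by simp, ew_le.mp h⟩
  have η := ses_mm (eu 0 + ew 0) (wt_euw_add 0 0 0) (B₁ := bPQ (P.erase p) (P.erase p))
    (B₂ := bPQ (P.erase p) (P.erase p)) (B₃ := bPQ ∅ ∅)
    (fun α _ => by rw [add_assoc, eu_add_mem, ew_add_mem]; simp only [h0, not_true, false_or])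
    (fun α hα => by
      constructor
      · intro h
        obtain ⟨i, j, β, _, rfl⟩ := exists_uw hα (mem_bPQ_empty.mp h)
        by_cases hj : j = 0
        · by_cases hi : i = 0
          · subst hi hj
            exact Or.inr (euw_le.mpr (by simp))
          · exact Or.inl (Or.inl ⟨i, by simp [hP, hi], by simp⟩)
        · exact Or.inl (Or.inr ⟨j, by simp [hP, hj], by simp⟩)
      · rintro (h | h)
        · exact bPQ_le_empty h
        · exact Or.inr ⟨0, by simp, (euw_le.mp h).2⟩)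
  have β := fun P' : Finset (Fin 4) => ses_mm (ew 0) (wt_ew_add 0 (k := 1) (k' := 0) (by ring))
    (B₁ := bPQ P' (P.erase p)) (B₂ := bPQ P' (P.erase p)) (B₃ := bPQ ∅ ∅)
    (fun α _ => by rw [ew_add_mem]; simp only [h0, not_true, false_or]) (hw P')
  refine ⟨η.cls, Sj_cls _ (depth_NN D _ _ _ 0 rfl (by simp [hP]) (by simp [hP]) _
    (by simp [hP])), ?_, fun i hi => ⟨(β P).cls, ?_⟩⟩
  · have e1 := η.nat η (smP _ _) (smP _ _) LinearMap.id
      (nn_ext fun x => ⟨_, _, rfl, rfl, by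
        simp only [mT_coe, swT_coe, map_mul, sw_monomial_euw]⟩)
      (fun x => by
        obtain ⟨x, rfl⟩ := Submodule.Quotient.mk_surjective _ x
        refine (Submodule.Quotient.eq _).mpr fun α hα => mem_bPQ_empty.mpr ?_
        rintro rfl
        refine hα ?_
        change coeff 0 (sw (x : RR) - (x : RR)) = 0
        rw [coeff_sub, coeff_sw, se, Finsupp.mapDomain_zero, sub_self])
    rw [e1, mk0_id_comp, one_smul]
  · obtain rfl : i = 0 := by simpa [hP] using hi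
    have e1 := η.nat (β (P.erase p)) (uB _ 0) LinearMap.id LinearMap.id
      (nn_ext fun x => ⟨_, _, rfl, rfl, by
        simp only [mT_coe, monomial_euw]
        rw [← X, ← X]
        ring⟩)
      (nn_ext fun x => ⟨_, _, rfl, rfl, rfl⟩)
    have e2 := (β P).nat (β (P.erase p)) (rsU _ _ p 1) (rsU _ _ p 0) LinearMap.id
      (nn_ext fun x => ⟨_, _, rfl, rfl, rfl⟩) (nn_ext fun x => ⟨_, _, rfl, rfl, rfl⟩)
    rw [e1, e2]

theorem exists_xi : ∃ Ξ : EE (SymRing 4) K0 (NN (bPQ Finset.univ Finset.univ) 0) 7,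
    Sj (pt 0) Ξ 3 10 rfl ∧ Ξ.comp (mk0 (smP _ _)) (add_zero _) = (-1 : SymRing 4) • Ξ ∧
      ∀ i, Ξ.comp (mk0 (uB _ i)) (add_zero _) = 0 := by
  obtain ⟨Ξ₁, a₁, b₁, c₁⟩ := xi_base (P := (Finset.univ.erase 3).erase 2) (p := 1) (by decide)
  obtain ⟨Ξ₂, a₂, b₂, c₂⟩ := xi_step (c := 7) (by decide) (by decide) rfl (by decide) Ξ₁ _ a₁ b₁ c₁
  obtain ⟨Ξ₃, a₃, b₃, c₃⟩ := xi_step (c := 5) (by decide) (by decide) rfl (by decide) Ξ₂ _ a₂ b₂
    fun i hi => ⟨0, by rw [c₂ i hi, Ext.zero_comp]⟩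
  obtain ⟨Ξ₄, a₄, b₄, c₄⟩ := xi_step (c := 3) (by decide) (by decide) rfl (by decide) Ξ₃ _ a₃ b₃
    fun i hi => ⟨0, by rw [c₃ i hi, Ext.zero_comp]⟩
  exact ⟨Ξ₄, a₄, by simpa using b₄, fun i => c₄ i (Finset.mem_univ i)⟩

end Pool.Agent.Lib.MP_8277d7_ag
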